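import Mathlib

set_option autoImplicit false

namespace Pool.Agent.Lib.MP_2095a9_ag

open Polynomial

section Alg

variable {L : Type*} [Field L]

/-- an element `N / D` of `L(X)` that is algebraic over `L` is a polynomial -/
theorem dvd_of_isAlgebraic (N D : L[X]) (hD : D ≠ 0)
    (h : IsAlgebraic L (algebraMap L[X] (FractionRing L[X]) N /
      algebraMap L[X] (FractionRing L[X]) D)) : D ∣ N := by
  have h1 : IsIntegral L (algebraMap L[X] (FractionRing L[X]) N /
      algebraMap L[X] (FractionRing L[X]) D) := h.isIntegral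
  have h2 : IsIntegral L[X] (algebraMap L[X] (FractionRing L[X]) N /
      algebraMap L[X] (FractionRing L[X]) D) := h1.tower_top
  obtain ⟨p, hp⟩ := IsIntegrallyClosed.isIntegral_iff.mp h2
  have hD' : algebraMap L[X] (FractionRing L[X]) D ≠ 0 := by
    simpa using (IsFractionRing.injective L[X] (FractionRing L[X])).ne hD
  rw [eq_div_iff hD', ← map_mul] at hp
  have := IsFractionRing.injective L[X] (FractionRing L[X]) hp
  exact ⟨p, by rw [← this, mul_comm]⟩

theorem sq_lemma {K : Type*} [Field K] (h2 : (2 : K) ≠ 0) (a b : K) (hb : b ≠ 0) :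
    ∀ (n : ℕ) (p q : K[X]), q.natDegree ≤ n →
      C b * p ^ 2 = q ^ 2 * (1 - C a * X ^ 2) → a ≠ 0 → p = 0 ∧ q = 0 := by
  intro n
  induction n with
  | zero => ?_
  | succ n ih => ?_
  all_goals
    intro p q hq h ha
    have hsep : (1 - C a * X ^ 2 : K[X]).Separable := by
      refine ⟨1, - C (1 / 2) * X, ?_⟩
      have e2 : (C 2 : K[X]) = 2 := map_ofNat C 2
      have : derivative (1 - C a * X ^ 2 : K[X]) = - C a * (C 2 * X) := by
        rw [derivative_sub, derivative_one, derivative_C_mul, derivative_X_pow]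
        simp
      rw [this]
      have e : (C (1 / 2) * C 2 : K[X]) = 1 := by
        rw [← C_mul, one_div, inv_mul_cancel₀ h2, C_1]
      linear_combination (C a * X ^ 2) * e
    have hrad := hsep.squarefree.isRadical
    have hfdeg : (1 - C a * X ^ 2 : K[X]).natDegree = 2 := by
      compute_degree!
    have hf0 : (1 - C a * X ^ 2 : K[X]) ≠ 0 := by
      intro h0; rw [h0] at hfdeg; simp at hfdeg
    have hCb : (C b : K[X]) ≠ 0 := by simpa using hb
    by_cases hq0 : q = 0
    · subst hq0
      have : C b * p ^ 2 = 0 := by rw [h]; ring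
      rcases mul_eq_zero.mp this with h3 | h3
      · exact absurd h3 hCb
      · exact ⟨pow_eq_zero_iff two_ne_zero |>.mp h3, rfl⟩
    exfalso
    have hd1 : (1 - C a * X ^ 2 : K[X]) ∣ p ^ 2 := by
      have : (1 - C a * X ^ 2 : K[X]) ∣ C b * p ^ 2 := ⟨q ^ 2, by rw [h]; ring⟩
      exact (IsUnit.dvd_mul_left (isUnit_C.mpr (isUnit_iff_ne_zero.mpr hb))).mp this
    obtain ⟨p', hp'⟩ := hrad 2 p hd1
    have h3 : C b * (1 - C a * X ^ 2) * p' ^ 2 = q ^ 2 := by
      apply mul_right_cancel₀ hf0
      rw [← h, hp']; ring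
    have hd2 : (1 - C a * X ^ 2 : K[X]) ∣ q ^ 2 := ⟨C b * p' ^ 2, by rw [← h3]; ring⟩
    obtain ⟨q', hq'⟩ := hrad 2 q hd2
    have h4 : C b * p' ^ 2 = q' ^ 2 * (1 - C a * X ^ 2) := by
      apply mul_left_cancel₀ hf0
      rw [hq'] at h3
      linear_combination h3
    have hq'0 : q' ≠ 0 := by
      rintro rfl
      apply hq0; rw [hq']; ring
    have hdeg : q.natDegree = 2 + q'.natDegree := by
      rw [hq', natDegree_mul hf0 hq'0, hfdeg]
  · omega
  · exact hq'0 (ih p' q' (by omega) h4 ha).2

end Alg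

section Conic

variable {K : Type*} [Field K]

/-- normal form modulo the conic -/
theorem conic_normal_form (a b : K) (hb : b ≠ 0) (f : MvPolynomial (Fin 2) K) :
    ∃ p q : K[X], f - (aeval (MvPolynomial.X 0 : MvPolynomial (Fin 2) K) p +
      aeval (MvPolynomial.X 0 : MvPolynomial (Fin 2) K) q * MvPolynomial.X 1) ∈
      Ideal.span {(MvPolynomial.C a * MvPolynomial.X 0 ^ 2 + MvPolynomial.C b * MvPolynomial.X 1 ^ 2 - 1 :
                  MvPolynomial (Fin 2) K)} := by
  induction f using MvPolynomial.induction_on with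
  | C c =>
    refine ⟨C c, 0, ?_⟩
    have : (aeval (MvPolynomial.X 0 : MvPolynomial (Fin 2) K)) (C c : K[X]) = MvPolynomial.C c := by
      rw [aeval_C]; rfl
    rw [this]
    simp
  | add f g hf hg =>
    obtain ⟨p1, q1, h1⟩ := hf
    obtain ⟨p2, q2, h2⟩ := hg
    refine ⟨p1 + p2, q1 + q2, ?_⟩
    have := Ideal.add_mem _ h1 h2
    have e : f + g - ((aeval (MvPolynomial.X 0 : MvPolynomial (Fin 2) K)) (p1 + p2) +
        (aeval (MvPolynomial.X 0)) (q1 + q2) * MvPolynomial.X 1) =
        (f - ((aeval (MvPolynomial.X 0)) p1 + (aeval (MvPolynomial.X 0)) q1 * MvPolynomial.X 1)) +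
        (g - ((aeval (MvPolynomial.X 0)) p2 + (aeval (MvPolynomial.X 0)) q2 * MvPolynomial.X 1)) := by
      rw [map_add, map_add]; ring
    rw [e]; exact this
  | mul_X f i hf =>
    obtain ⟨p, q, h⟩ := hf
    fin_cases i
    · refine ⟨p * X, q * X, ?_⟩
      have := Ideal.mul_mem_right (MvPolynomial.X 0 : MvPolynomial (Fin 2) K) _ h
      have e : f * MvPolynomial.X 0 - ((aeval (MvPolynomial.X 0 : MvPolynomial (Fin 2) K)) (p * X) +
        (aeval (MvPolynomial.X 0)) (q * X) * MvPolynomial.X 1) =
        (f - ((aeval (MvPolynomial.X 0)) p + (aeval (MvPolynomial.X 0)) q * MvPolynomial.X 1)) *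
          MvPolynomial.X 0 := by
        rw [map_mul, map_mul, aeval_X]; ring
      exact e ▸ this
    · refine ⟨C (1 / b) * q * (1 - C a * X ^ 2), p, ?_⟩
      have h1 := Ideal.mul_mem_right (MvPolynomial.X 1 : MvPolynomial (Fin 2) K) _ h
      have h2 : (MvPolynomial.C a * MvPolynomial.X 0 ^ 2 + MvPolynomial.C b * MvPolynomial.X 1 ^ 2 - 1 :
                  MvPolynomial (Fin 2) K) * (MvPolynomial.C (1 / b) *
                  aeval (MvPolynomial.X 0 : MvPolynomial (Fin 2) K) q) ∈
                  Ideal.span {(MvPolynomial.C a * MvPolynomial.X 0 ^ 2 +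
                    MvPolynomial.C b * MvPolynomial.X 1 ^ 2 - 1 : MvPolynomial (Fin 2) K)} :=
        Ideal.mul_mem_right _ _ (Ideal.mem_span_singleton_self _)
      have := Ideal.add_mem _ h1 h2
      have eb : (MvPolynomial.C b * MvPolynomial.C (1 / b) : MvPolynomial (Fin 2) K) = 1 := by
        rw [← MvPolynomial.C_mul, mul_one_div_cancel hb, MvPolynomial.C_1]
      have ec : ∀ c : K, (aeval (MvPolynomial.X 0 : MvPolynomial (Fin 2) K)) (C c : K[X]) =
          MvPolynomial.C c := fun c => by rw [aeval_C]; rfl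
      have e : f * MvPolynomial.X 1 - ((aeval (MvPolynomial.X 0 : MvPolynomial (Fin 2) K))
          (C (1 / b) * q * (1 - C a * X ^ 2)) +
        (aeval (MvPolynomial.X 0)) p * MvPolynomial.X 1) =
        (f - ((aeval (MvPolynomial.X 0)) p + (aeval (MvPolynomial.X 0)) q * MvPolynomial.X 1)) *
          MvPolynomial.X 1 + (MvPolynomial.C a * MvPolynomial.X 0 ^ 2 +
          MvPolynomial.C b * MvPolynomial.X 1 ^ 2 - 1 :
                  MvPolynomial (Fin 2) K) * (MvPolynomial.C (1 / b) *
                  aeval (MvPolynomial.X 0 : MvPolynomial (Fin 2) K) q) := by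
        rw [map_mul, map_mul, map_sub, map_mul, map_pow, aeval_X, map_one, ec, ec]
        linear_combination (-(MvPolynomial.X 1 ^ 2 *
          aeval (MvPolynomial.X 0 : MvPolynomial (Fin 2) K) q)) * eb
      exact e ▸ this

/-- **Function field of a conic with a point over an extension**: if the conic
`a u² + b v² = 1` over `K` has a point over `L ⊇ K` then its function field embeds
into `L(X)`. -/
theorem conic_embed {k : Type*} [Field k] [Algebra k K] {L : Type*} [Field L] [Algebra k L]
    (h2 : (2 : K) ≠ 0) (a b : K) (ha : a ≠ 0) (hb : b ≠ 0) (σ : K →ₐ[k] L) (u₀ v₀ : L)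
    (huv : σ a * u₀ ^ 2 + σ b * v₀ ^ 2 = 1) :
    Nonempty (FractionRing (MvPolynomial (Fin 2) K ⧸
      Ideal.span {(MvPolynomial.C a * MvPolynomial.X 0 ^ 2 + MvPolynomial.C b * MvPolynomial.X 1 ^ 2 - 1 :
                  MvPolynomial (Fin 2) K)}) →ₐ[k] FractionRing (Polynomial L)) := by
  classical
  set M := FractionRing (Polynomial L) with hM
  let ι : L →+* M := (algebraMap L[X] M).comp C
  have hι : Function.Injective ι := ι.injective
  have hσa : σ a ≠ 0 := (map_ne_zero σ).mpr ha
  have hσb : σ b ≠ 0 := (map_ne_zero σ).mpr hb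
  have hL2 : (2 : L) ≠ 0 := by
    have := (map_ne_zero σ).mpr h2
    rwa [map_ofNat] at this
  let N : L[X] := - C 2 * (C (σ a * u₀) + C (σ b * v₀) * X)
  let D : L[X] := C (σ a) + C (σ b) * X ^ 2
  have hDdeg : D.natDegree = 2 := by
    show (C (σ a) + C (σ b) * X ^ 2 : L[X]).natDegree = 2
    compute_degree!
  have hD0 : D ≠ 0 := by
    intro h0; rw [h0] at hDdeg; simp at hDdeg
  have hinjM : Function.Injective (algebraMap L[X] M) := IsFractionRing.injective L[X] M
  have hDM : algebraMap L[X] M D ≠ 0 := by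
    intro h0
    exact hD0 (hinjM (by rw [h0, map_zero]))
  let lam : M := algebraMap L[X] M N / algebraMap L[X] M D
  have hlamtr : ¬ IsAlgebraic L lam := by
    intro halg
    have hdvd := dvd_of_isAlgebraic N D hD0 halg
    have hN0 : N ≠ 0 := by
      intro h0
      have h1 : (C (σ a * u₀) + C (σ b * v₀) * X : L[X]) = 0 := by
        rcases mul_eq_zero.mp h0 with h3 | h3
        · exfalso
          have : (C 2 : L[X]) = 0 := by linear_combination -h3
          exact hL2 (C_eq_zero.mp this)
        · exact h3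
      have hu : σ a * u₀ = 0 := by
        have := congrArg (fun p : L[X] => p.coeff 0) h1
        simpa using this
      have hv : σ b * v₀ = 0 := by
        have := congrArg (fun p : L[X] => p.coeff 1) h1
        simpa [coeff_C] using this
      have hu' : u₀ = 0 := (mul_eq_zero.mp hu).resolve_left hσa
      have hv' : v₀ = 0 := (mul_eq_zero.mp hv).resolve_left hσb
      rw [hu', hv'] at huv
      simp at huv
    have h3 := natDegree_le_of_dvd hdvd hN0
    have h4 : N.natDegree ≤ 1 := by
      show (- C 2 * (C (σ a * u₀) + C (σ b * v₀) * X) : L[X]).natDegree ≤ 1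
      compute_degree
    omega
  let τ : M := algebraMap L[X] M X
  let u : M := ι u₀ + lam
  let v : M := ι v₀ + lam * τ
  have hlamD : lam * (ι (σ a) + ι (σ b) * τ ^ 2) = - 2 * (ι (σ a) * ι u₀ + ι (σ b) * ι v₀ * τ) := by
    have h1 : lam * algebraMap L[X] M D = algebraMap L[X] M N := div_mul_cancel₀ _ hDM
    have h5 : algebraMap L[X] M D = ι (σ a) + ι (σ b) * τ ^ 2 := by
      simp only [D, ι, τ, map_add, map_mul, map_pow, RingHom.comp_apply]
    have h6 : algebraMap L[X] M N = - 2 * (ι (σ a) * ι u₀ + ι (σ b) * ι v₀ * τ) := by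
      simp only [N, ι, τ, map_add, map_mul, map_neg, RingHom.comp_apply, map_ofNat]
    rw [← h5, ← h6, h1]
  have hconic : ι (σ a) * u ^ 2 + ι (σ b) * v ^ 2 = 1 := by
    have h1 : ι (σ a) * ι u₀ ^ 2 + ι (σ b) * ι v₀ ^ 2 = 1 := by
      rw [← map_pow, ← map_pow, ← map_mul, ← map_mul, ← map_add, huv, map_one]
    simp only [u, v]
    linear_combination h1 + lam * hlamD
  -- transcendence of u over K
  have hutr : ∀ p : K[X], p.eval₂ (ι.comp (σ : K →+* L)) u = 0 → p = 0 := by
    intro p hp
    by_contra hp0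
    apply hlamtr
    -- u is algebraic over L
    have hu : IsAlgebraic L u := by
      refine ⟨p.map (σ : K →+* L), ?_, ?_⟩
      · exact (Polynomial.map_ne_zero_iff (σ : K →+* L).injective).mpr hp0
      · rw [aeval_def, eval₂_map]
        have : (algebraMap L M) = ι := by
          ext x
          simp only [ι, RingHom.comp_apply]
          rw [IsScalarTower.algebraMap_apply L L[X] M]
          rfl
        rw [this]
        exact hp
    have h3 : lam = u - algebraMap L M u₀ := by
      have : (algebraMap L M) u₀ = ι u₀ := by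
        simp only [ι, RingHom.comp_apply]
        rw [IsScalarTower.algebraMap_apply L L[X] M]
        rfl
      rw [this]; simp only [u]; ring
    rw [h3]
    exact hu.sub (isAlgebraic_algebraMap _)
  -- the ring homomorphism
  let ιk : L →ₐ[k] M :=
    { ι with
      commutes' := fun r => by
        show ι (algebraMap k L r) = algebraMap k M r
        simp only [ι, RingHom.comp_apply]
        rw [IsScalarTower.algebraMap_apply k L[X] M]
        rfl }
  let φK : K →ₐ[k] M := ιk.comp σ
  let _ : Algebra K M := φK.toRingHom.toAlgebra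
  have _ : IsScalarTower k K M := IsScalarTower.of_algebraMap_eq (fun r => (φK.commutes r).symm)
  have hmapK : ∀ c : K, algebraMap K M c = ι (σ c) := fun c => rfl
  let ψ : MvPolynomial (Fin 2) K →ₐ[K] M := MvPolynomial.aeval ![u, v]
  have hψ0 : ψ (MvPolynomial.X 0) = u := by simp [ψ]
  have hψ1 : ψ (MvPolynomial.X 1) = v := by simp [ψ]
  have hψg : ψ (MvPolynomial.C a * MvPolynomial.X 0 ^ 2 + MvPolynomial.C b * MvPolynomial.X 1 ^ 2 - 1) = 0 := by
    have hC : ∀ c : K, ψ (MvPolynomial.C c) = ι (σ c) := fun c => by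
      rw [← hmapK]; exact MvPolynomial.aeval_C _ _
    rw [map_sub, map_add, map_mul, map_mul, map_pow, map_pow, hC, hC, hψ0, hψ1, hconic, map_one, sub_self]
  set I := Ideal.span {(MvPolynomial.C a * MvPolynomial.X 0 ^ 2 + MvPolynomial.C b * MvPolynomial.X 1 ^ 2 - 1 :
                  MvPolynomial (Fin 2) K)} with hI
  have hker : ∀ f ∈ I, ψ f = 0 := by
    intro f hf
    obtain ⟨g, rfl⟩ := Ideal.mem_span_singleton'.mp hf
    rw [map_mul, hψg, mul_zero]
  let ψq : (MvPolynomial (Fin 2) K ⧸ I) →ₐ[K] M := Ideal.Quotient.liftₐ I ψ hker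
  have hψq : ∀ f, ψq (Ideal.Quotient.mk I f) = ψ f := fun f => rfl
  have hinj : Function.Injective ψq := by
    rw [injective_iff_map_eq_zero]
    intro x hx
    obtain ⟨f, rfl⟩ := Ideal.Quotient.mk_surjective x
    rw [hψq] at hx
    obtain ⟨p, q, hpq⟩ := conic_normal_form a b hb f
    have h3 : ψ (aeval (MvPolynomial.X 0 : MvPolynomial (Fin 2) K) p +
      aeval (MvPolynomial.X 0 : MvPolynomial (Fin 2) K) q * MvPolynomial.X 1) = 0 := by
      have h4 := hker _ hpq
      rw [map_sub, hx, zero_sub, neg_eq_zero] at h4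
      exact h4
    have hev : ∀ r : K[X], ψ (aeval (MvPolynomial.X 0 : MvPolynomial (Fin 2) K) r) = aeval u r := by
      intro r
      rw [← hψ0, Polynomial.aeval_algHom_apply]
    rw [map_add, map_mul, hev, hev, hψ1] at h3
    have h5 : aeval u (C b * p ^ 2 - q ^ 2 * (1 - C a * X ^ 2)) = 0 := by
      have hbv : ι (σ b) * v ^ 2 = 1 - ι (σ a) * u ^ 2 := by linear_combination hconic
      rw [map_sub, map_mul, map_mul, map_sub, map_mul, map_pow, map_pow, map_pow, map_one, aeval_C, aeval_C,
        aeval_X, hmapK, hmapK, ← hbv]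
      linear_combination (ι (σ b) * (aeval u p - aeval u q * v)) * h3
    have h6 : C b * p ^ 2 - q ^ 2 * (1 - C a * X ^ 2) = 0 := by
      apply hutr
      have : (algebraMap K M) = ι.comp (σ : K →+* L) := rfl
      rw [← this, ← aeval_def]
      exact h5
    obtain ⟨hp0, hq0⟩ := sq_lemma h2 a b hb _ p q le_rfl (sub_eq_zero.mp h6) ha
    rw [hp0, hq0, map_zero, zero_mul, add_zero, sub_zero] at hpq
    exact Ideal.Quotient.eq_zero_iff_mem.mpr hpq
  let ψk : (MvPolynomial (Fin 2) K ⧸ I) →ₐ[k] M := ψq.restrictScalars k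
  have hinjk : Function.Injective ψk := hinj
  have _ : IsDomain (MvPolynomial (Fin 2) K ⧸ I) := hinj.isDomain ψq.toRingHom
  exact ⟨IsFractionRing.liftAlgHom (K := FractionRing (MvPolynomial (Fin 2) K ⧸ I)) hinjk⟩

end Conic

end Pool.Agent.Lib.MP_2095a9_ag
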