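import Pool.Agent.Lib.MP_2095a9_ag.Tsen
import Pool.Agent.Lib.MP_2095a9_ag.Embed

set_option autoImplicit false

namespace Pool.Agent.Lib.MP_2095a9_ag

open Polynomial

section Prime

variable {F : Type*} [Field F]

/-- a quadratic polynomial with nonzero discriminant that does not divide `q₁` has a prime
factor not dividing `q₁` -/
theorem exists_prime_factor (h2 : (2 : F) ≠ 0) (α β γ a1 b1 c1 : F) (hα : α ≠ 0)
    (hδ : β ^ 2 + α * γ ≠ 0)
    (hW : a1 * β - α * b1 ≠ 0 ∨ a1 * γ - α * c1 ≠ 0) :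
    ∃ π : F[X], Prime π ∧ π ∣ (C α * X ^ 2 + C (2 * β) * X - C γ) ∧
      ¬ π ∣ (C a1 * X ^ 2 + C (2 * b1) * X - C c1) := by
  classical
  set q0 : F[X] := C α * X ^ 2 + C (2 * β) * X - C γ with hq0
  set q1 : F[X] := C a1 * X ^ 2 + C (2 * b1) * X - C c1 with hq1
  have hq0deg : q0.natDegree = 2 := by
    rw [hq0]; compute_degree!
  have hq00 : q0 ≠ 0 := by
    intro h; rw [h] at hq0deg; simp at hq0deg
  have hq1deg : q1.natDegree ≤ 2 := by
    rw [hq1]; compute_degree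
  have hsep : q0.Separable := by
    have e2 : (C 2 : F[X]) = 2 := map_ofNat C 2
    have hx2 : derivative (X ^ 2 : F[X]) = 2 * X := by
      rw [derivative_X_pow, Nat.cast_ofNat, e2, show 2 - 1 = 1 from rfl, pow_one]
    have hd : derivative q0 = C (2 * α) * X + C (2 * β) := by
      rw [hq0, derivative_sub, derivative_add, derivative_C_mul, derivative_C_mul, hx2,
        derivative_X, derivative_C]
      simp only [C_mul, e2]
      ring
    have eδ : C (β ^ 2 + α * γ) * C (1 / (β ^ 2 + α * γ)) = (1 : F[X]) := by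
      rw [← C_mul, mul_one_div_cancel hδ, C_1]
    have e3 : (2 : F[X]) * C (1 / 2) = 1 := by
      rw [← e2, ← C_mul, mul_one_div_cancel h2, C_1]
    refine ⟨- C α * C (1 / (β ^ 2 + α * γ)),
      (C α * X + C β) * C (1 / 2) * C (1 / (β ^ 2 + α * γ)), ?_⟩
    rw [hd, hq0]
    simp only [C_mul, C_add, C_pow, e2] at eδ ⊢
    linear_combination eδ + ((C α * X + C β) ^ 2 * C (1 / (β ^ 2 + α * γ))) * e3
  have hsf := hsep.squarefree
  have hnd : ¬ q0 ∣ q1 := by
    rintro ⟨p, hp⟩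
    have hpd : ∃ c : F, p = C c := by
      by_cases hp0 : p = 0
      · exact ⟨0, by rw [hp0, C_0]⟩
      · have : q1.natDegree = q0.natDegree + p.natDegree := by rw [hp, natDegree_mul hq00 hp0]
        have h0 : p.natDegree = 0 := by omega
        exact ⟨p.coeff 0, eq_C_of_natDegree_eq_zero h0⟩
    obtain ⟨c, rfl⟩ := hpd
    have h3 : q1.coeff 2 = c * q0.coeff 2 := by rw [hp, mul_comm, coeff_C_mul]
    have h4 : q1.coeff 1 = c * q0.coeff 1 := by rw [hp, mul_comm, coeff_C_mul]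
    have h5 : q1.coeff 0 = c * q0.coeff 0 := by rw [hp, mul_comm, coeff_C_mul]
    have e02 : q0.coeff 2 = α := by rw [hq0]; simp [coeff_X, coeff_C]
    have e01 : q0.coeff 1 = 2 * β := by rw [hq0]; simp [coeff_X, coeff_C]
    have e00 : q0.coeff 0 = - γ := by rw [hq0]; simp [coeff_X, coeff_C]
    have e12 : q1.coeff 2 = a1 := by rw [hq1]; simp [coeff_X, coeff_C]
    have e11 : q1.coeff 1 = 2 * b1 := by rw [hq1]; simp [coeff_X, coeff_C]
    have e10 : q1.coeff 0 = - c1 := by rw [hq1]; simp [coeff_X, coeff_C]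
    rw [e02, e12] at h3
    rw [e01, e11] at h4
    rw [e00, e10] at h5
    have h4' : b1 = c * β := by
      apply mul_left_cancel₀ h2
      linear_combination h4
    have h5' : c1 = c * γ := by linear_combination -h5
    rcases hW with h | h
    · apply h; rw [h3, h4']; ring
    · apply h; rw [h3, h5']; ring
  set g := gcd q0 q1 with hg
  obtain ⟨r, hr⟩ := gcd_dvd_left q0 q1
  have hru : ¬ IsUnit r := by
    intro hu
    apply hnd
    have : q0 ∣ g := by
      obtain ⟨v, hv⟩ := hu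
      exact ⟨(↑v⁻¹ : F[X]), by rw [hr, ← hv, mul_assoc, Units.mul_inv, mul_one]⟩
    exact this.trans (gcd_dvd_right q0 q1)
  have hr0 : r ≠ 0 := by
    rintro rfl
    apply hq00; rw [hr, mul_zero]
  obtain ⟨π, hπ, hπr⟩ := WfDvdMonoid.exists_irreducible_factor hru hr0
  refine ⟨π, hπ.prime, ?_, ?_⟩
  · rw [hr]; exact hπr.mul_left _
  · intro h1
    have h0 : π ∣ q0 := by rw [hr]; exact hπr.mul_left _
    have hgπ : π ∣ gcd q0 q1 := dvd_gcd h0 h1
    have : π * π ∣ q0 := by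
      rw [hr]; exact mul_dvd_mul hgπ hπr
    exact hπ.not_isUnit (hsf π this)

end Prime

section Core

variable {F : Type*} [Field F]

/-- an element of a field extension that is transcendental over `F` -/
def Transc {L : Type*} [Field L] [Algebra F L] (y : L) : Prop :=
  ∀ p : F[X], aeval y p = 0 → p = 0

theorem transc_of_not_isAlgebraic {L : Type*} [Field L] [Algebra F L] {y : L}
    (h : ¬ IsAlgebraic F y) : Transc (F := F) y := by
  intro p hp
  by_contra hp0
  exact h ⟨p, hp0, hp⟩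

theorem taylor_expand {L : Type*} [Field L] [Algebra F L] (A : F[X]) (hA : A.natDegree ≤ 4)
    (y0 : F) (h : L) :
    aeval (algebraMap F L y0 + h) A = algebraMap F L ((taylor y0 A).coeff 0) +
      algebraMap F L ((taylor y0 A).coeff 1) * h + algebraMap F L ((taylor y0 A).coeff 2) * h ^ 2 +
      algebraMap F L ((taylor y0 A).coeff 3) * h ^ 3 +
      algebraMap F L ((taylor y0 A).coeff 4) * h ^ 4 := by
  have h1 : aeval h (taylor y0 A) = aeval (algebraMap F L y0 + h) A := by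
    rw [taylor_apply, aeval_comp, map_add, aeval_X, aeval_C, add_comm]
  have h2 : (taylor y0 A).natDegree < 5 := by
    rw [natDegree_taylor]; omega
  rw [← h1, aeval_eq_sum_range' h2]
  simp only [Finset.sum_range_succ, Finset.sum_range_zero, Algebra.smul_def, pow_zero, pow_one]
  ring

/-- the algebraic identity behind tripling a point on `w² = q₀ + q₁ h + q₂ h² + q₃ h³ + q₄ h⁴` -/
theorem triple_identity {L : Type*} [Field L] (q0 q1 q2 q3 q4 w h : L) (hw : w ^ 2 = q0)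
    (hq0 : q0 ≠ 0) (h2 : (2 : L) ≠ 0)
    (hh : h * (64 * q0 ^ 3 * q4 - (4 * q0 * q2 - q1 ^ 2) ^ 2) =
      8 * q0 * (4 * q0 * q1 * q2 - q1 ^ 3 - 8 * q0 ^ 2 * q3)) :
    q0 + q1 * h + q2 * h ^ 2 + q3 * h ^ 3 + q4 * h ^ 4 =
      (w * (1 + q1 / (2 * q0) * h + (4 * q0 * q2 - q1 ^ 2) / (8 * q0 ^ 2) * h ^ 2)) ^ 2 := by
  rw [mul_pow, hw]
  have h8 : (8 : L) ≠ 0 := by
    have : (8 : L) = 2 ^ 3 := by norm_num
    rw [this]; exact pow_ne_zero _ h2
  field_simp
  linear_combination (4 * h ^ 3) * hh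

theorem param_identity {L : Type*} [Field L] (α U0 W0 s : L) (hden : 1 - α * s ^ 2 ≠ 0) :
    (U0 + (2 * α * U0 * s ^ 2 + 2 * α * W0 * s) / (1 - α * s ^ 2)) ^ 2 -
      α * ((W0 * (1 + α * s ^ 2) + 2 * U0 * s) / (1 - α * s ^ 2)) ^ 2 = U0 ^ 2 - α * W0 ^ 2 := by
  field_simp
  ring

theorem core_point [CharZero F] (hT : ∀ a b : F, a ≠ 0 → b ≠ 0 → Iso a b)
    (A B C0 : F[X]) (hA : A.natDegree ≤ 4) (hB : B.natDegree ≤ 4) (hC : C0.natDegree ≤ 4)
    (y0 : F) (hα : A.eval y0 ≠ 0) (hδ : (B ^ 2 + A * C0).eval y0 ≠ 0)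
    (hW : (derivative A * B - A * derivative B).eval y0 ≠ 0 ∨
      (derivative A * C0 - A * derivative C0).eval y0 ≠ 0) :
    ∃ y1 : FractionRing F[X], Transc (F := F) y1 ∧
      Iso (aeval y1 A) (aeval y1 (B ^ 2 + A * C0)) := by
  classical
  set L := FractionRing F[X] with hL
  have h2 : (2 : F) ≠ 0 := two_ne_zero
  have h2L : (2 : L) ≠ 0 := by
    have := (map_ne_zero (algebraMap F L)).mpr h2
    rwa [map_ofNat] at this
  have hinj : Function.Injective (algebraMap F[X] L) := IsFractionRing.injective F[X] L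
  -- Taylor coefficients
  set a : ℕ → F := fun i => (taylor y0 A).coeff i with ha
  set b : ℕ → F := fun i => (taylor y0 B).coeff i with hb
  set c : ℕ → F := fun i => (taylor y0 C0).coeff i with hc
  have ha0 : a 0 = A.eval y0 := taylor_coeff_zero y0 A
  have hb0 : b 0 = B.eval y0 := taylor_coeff_zero y0 B
  have hc0 : c 0 = C0.eval y0 := taylor_coeff_zero y0 C0
  have ha1 : a 1 = (derivative A).eval y0 := taylor_coeff_one y0 A
  have hb1 : b 1 = (derivative B).eval y0 := taylor_coeff_one y0 B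
  have hc1 : c 1 = (derivative C0).eval y0 := taylor_coeff_one y0 C0
  have hα' : a 0 ≠ 0 := by rw [ha0]; exact hα
  have hδ' : b 0 ^ 2 + a 0 * c 0 ≠ 0 := by
    rw [ha0, hb0, hc0]
    simpa using hδ
  have hW' : a 1 * b 0 - a 0 * b 1 ≠ 0 ∨ a 1 * c 0 - a 0 * c 1 ≠ 0 := by
    rw [ha0, hb0, hc0, ha1, hb1, hc1]
    simpa using hW
  set q : ℕ → F[X] := fun i => C (a i) * X ^ 2 + C (2 * b i) * X - C (c i) with hq
  obtain ⟨π, hπ, hπ0, hπ1⟩ := exists_prime_factor h2 (a 0) (b 0) (c 0) (a 1) (b 1) (c 1) hα' hδ' hW'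
  change π ∣ q 0 at hπ0
  change ¬ π ∣ q 1 at hπ1
  have hq00 : q 0 ≠ 0 := by
    intro h0
    have : (q 0).coeff 2 = a 0 := by simp [hq, coeff_X, coeff_C]
    rw [h0, coeff_zero] at this
    exact hα' this.symm
  set D : F[X] := 64 * q 0 ^ 3 * q 4 - (4 * q 0 * q 2 - q 1 ^ 2) ^ 2 with hD
  set N : F[X] := 8 * q 0 * (4 * q 0 * q 1 * q 2 - q 1 ^ 3 - 8 * q 0 ^ 2 * q 3) with hN
  have hπD : ¬ π ∣ D := by
    intro h
    apply hπ1
    obtain ⟨z, hz⟩ := hπ0
    obtain ⟨d, hd⟩ := h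
    have h1 : π ∣ q 1 ^ 4 := by
      refine ⟨64 * z * q 0 ^ 2 * q 4 - 16 * z * q 0 * q 2 ^ 2 + 8 * z * q 2 * q 1 ^ 2 - d, ?_⟩
      have h5 : q 1 ^ 4 = 64 * q 0 ^ 3 * q 4 - 16 * q 0 ^ 2 * q 2 ^ 2 + 8 * q 0 * q 2 * q 1 ^ 2 - D := by
        rw [hD]; ring
      rw [h5, hd]
      linear_combination (64 * q 0 ^ 2 * q 4 - 16 * q 0 * q 2 ^ 2 + 8 * q 2 * q 1 ^ 2) * hz
    exact hπ.dvd_of_dvd_pow h1
  have hD0 : D ≠ 0 := by
    intro h0; apply hπD; rw [h0]; exact dvd_zero _
  have hπN : π ∣ N := by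
    rw [hN]; exact (hπ0.mul_left 8).mul_right _
  have hN0 : N ≠ 0 := by
    intro h0
    rcases mul_eq_zero.mp h0 with h3 | h3
    · rcases mul_eq_zero.mp h3 with h4 | h4
      · exact absurd h4 (by norm_num)
      · exact hq00 h4
    · apply hπ1
      obtain ⟨z, hz⟩ := hπ0
      have h1 : π ∣ q 1 ^ 3 := by
        refine ⟨4 * z * q 1 * q 2 - 8 * z * q 0 * q 3, ?_⟩
        linear_combination (4 * q 1 * q 2 - 8 * q 0 * q 3) * hz - h3
      exact hπ.dvd_of_dvd_pow h1
  have hND : ¬ IsAlgebraic F (algebraMap F[X] L N / algebraMap F[X] L D) := by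
    intro halg
    have h3 : IsAlgebraic F (algebraMap F[X] L D / algebraMap F[X] L N) := by
      have := halg.inv
      rwa [inv_div] at this
    have h4 := dvd_of_isAlgebraic D N hN0 h3
    exact hπD (hπN.trans h4)
  -- the conic over y0
  obtain ⟨U0, W0, hUW⟩ := (hT (a 0) (b 0 ^ 2 + a 0 * c 0) hα' hδ').norm_form h2 hα' hδ'
  set ι := algebraMap F L with hι
  have hιC : ∀ x : F, algebraMap F[X] L (C x) = ι x := fun x =>
    (IsScalarTower.algebraMap_apply F F[X] L x).symm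
  let s : L := algebraMap F[X] L X
  set Dn : F[X] := 1 - C (a 0) * X ^ 2 with hDn
  set Nn : F[X] := C (2 * a 0 * U0) * X ^ 2 + C (2 * a 0 * W0) * X with hNn
  have hDndeg : Dn.natDegree = 2 := by
    rw [hDn]; compute_degree!
  have hDn0 : Dn ≠ 0 := by
    intro h; rw [h] at hDndeg; simp at hDndeg
  have hDnL : algebraMap F[X] L Dn ≠ 0 := by
    intro h; exact hDn0 (hinj (by rw [h, map_zero]))
  have hDnL' : algebraMap F[X] L Dn = 1 - ι (a 0) * s ^ 2 := by
    rw [hDn, map_sub, map_one, map_mul, map_pow, hιC]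
  have hNnL' : algebraMap F[X] L Nn = ι (2 * a 0 * U0) * s ^ 2 + ι (2 * a 0 * W0) * s := by
    rw [hNn, map_add, RingHom.map_mul (algebraMap F[X] L), RingHom.map_mul (algebraMap F[X] L),
      RingHom.map_pow (algebraMap F[X] L), hιC, hιC]
  have hden : (1 - ι (a 0) * s ^ 2) ≠ 0 := by rw [← hDnL']; exact hDnL
  let U : L := ι U0 + (ι (2 * a 0 * U0) * s ^ 2 + ι (2 * a 0 * W0) * s) / (1 - ι (a 0) * s ^ 2)
  let W : L := (ι W0 * (1 + ι (a 0) * s ^ 2) + 2 * ι U0 * s) / (1 - ι (a 0) * s ^ 2)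
  have hUW' : U ^ 2 - ι (a 0) * W ^ 2 = ι (b 0 ^ 2 + a 0 * c 0) := by
    rw [← hUW]
    simp only [U, W, map_mul, map_sub, map_pow, map_ofNat]
    exact param_identity _ _ _ _ hden
  have hUtr : ¬ IsAlgebraic F U := by
    intro halg
    have h3 : IsAlgebraic F (algebraMap F[X] L Nn / algebraMap F[X] L Dn) := by
      have : algebraMap F[X] L Nn / algebraMap F[X] L Dn = U - ι U0 := by
        rw [hDnL', hNnL']; simp only [U]; ring
      rw [this]
      exact halg.sub (isAlgebraic_algebraMap _)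
    obtain ⟨p, hp⟩ := dvd_of_isAlgebraic Nn Dn hDn0 h3
    have hNndeg : Nn.natDegree ≤ 2 := by
      rw [hNn]; compute_degree
    have hpc : ∃ x : F, p = C x := by
      by_cases hp0 : p = 0
      · exact ⟨0, by rw [hp0, C_0]⟩
      · have : Nn.natDegree = Dn.natDegree + p.natDegree := by rw [hp, natDegree_mul hDn0 hp0]
        exact ⟨p.coeff 0, eq_C_of_natDegree_eq_zero (by omega)⟩
    obtain ⟨x, rfl⟩ := hpc
    have e0 : Nn.coeff 0 = x * Dn.coeff 0 := by rw [hp, mul_comm, coeff_C_mul]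
    have e1 : Nn.coeff 1 = x * Dn.coeff 1 := by rw [hp, mul_comm, coeff_C_mul]
    have e2 : Nn.coeff 2 = x * Dn.coeff 2 := by rw [hp, mul_comm, coeff_C_mul]
    have f0 : Nn.coeff 0 = 0 := by rw [hNn]; simp
    have f1 : Nn.coeff 1 = 2 * a 0 * W0 := by
      rw [hNn, coeff_add, coeff_C_mul, coeff_C_mul, coeff_X_pow, coeff_X]; norm_num
    have f2 : Nn.coeff 2 = 2 * a 0 * U0 := by
      rw [hNn, coeff_add, coeff_C_mul, coeff_C_mul, coeff_X_pow, coeff_X]; norm_num
    have g0 : Dn.coeff 0 = 1 := by rw [hDn]; simp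
    have g1 : Dn.coeff 1 = 0 := by rw [hDn]; simp [coeff_one]
    rw [f0, g0, mul_one] at e0
    rw [f1, g1, mul_zero] at e1
    rw [f2, ← e0, zero_mul] at e2
    have hne : (2 * a 0 : F) ≠ 0 := mul_ne_zero h2 hα'
    have hU0 : U0 = 0 := (mul_eq_zero.mp e2).resolve_left hne
    have hW0 : W0 = 0 := (mul_eq_zero.mp e1).resolve_left hne
    apply hδ'
    rw [← hUW, hU0, hW0]; ring
  have hιa : ι (a 0) ≠ 0 := (map_ne_zero ι).mpr hα'
  let t : L := (U - ι (b 0)) / ι (a 0)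
  have htU : ι (a 0) * t + ι (b 0) = U := by
    have h9 : ι (a 0) * ((U - ι (b 0)) / ι (a 0)) = U - ι (b 0) := by
      rw [mul_comm, div_mul_cancel₀ _ hιa]
    show ι (a 0) * ((U - ι (b 0)) / ι (a 0)) + ι (b 0) = U
    rw [h9]; ring
  have httr : ¬ IsAlgebraic F t := by
    intro halg
    apply hUtr
    rw [← htU]
    exact ((isAlgebraic_algebraMap (a 0)).mul halg).add (isAlgebraic_algebraMap (b 0))
  have hTt : Transc (F := F) t := transc_of_not_isAlgebraic httr
  have hinjt : Function.Injective (aeval t : F[X] →ₐ[F] L) := by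
    rw [injective_iff_map_eq_zero]
    intro p hp
    exact hTt p hp
  let ψ : FractionRing F[X] →ₐ[F] L := IsFractionRing.liftAlgHom (K := FractionRing F[X]) hinjt
  have hψ : ∀ p : F[X], ψ (algebraMap F[X] (FractionRing F[X]) p) = aeval t p := fun p =>
    IsFractionRing.lift_algebraMap hinjt p
  let h : L := ψ (algebraMap F[X] L N / algebraMap F[X] L D)
  have htr : ¬ IsAlgebraic F h := by
    intro halg
    apply hND
    exact (isAlgebraic_algHom_iff ψ ψ.injective).mp halg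
  have hhD : h * aeval t D = aeval t N := by
    have hDL : algebraMap F[X] L D ≠ 0 := by
      intro h0; exact hD0 (hinj (by rw [h0, map_zero]))
    rw [← hψ D, ← hψ N, ← map_mul, div_mul_cancel₀ _ hDL]
  let y1 : L := ι y0 + h
  have hy1 : ¬ IsAlgebraic F y1 := by
    intro halg
    apply htr
    have : h = y1 - ι y0 := by simp only [y1]; ring
    rw [this]
    exact halg.sub (isAlgebraic_algebraMap y0)
  refine ⟨y1, transc_of_not_isAlgebraic hy1, ?_⟩
  -- values of the q i at t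
  have hqt : ∀ i, aeval t (q i) = ι (a i) * t ^ 2 + 2 * ι (b i) * t - ι (c i) := by
    intro i
    simp only [hq, map_sub, map_add, map_mul, map_pow, aeval_X, aeval_C, map_ofNat]
    rfl
  have hw : W ^ 2 = aeval t (q 0) := by
    apply mul_left_cancel₀ hιa
    rw [hqt 0]
    have h5 : U ^ 2 - ι (a 0) * W ^ 2 = ι (b 0) ^ 2 + ι (a 0) * ι (c 0) := by
      rw [hUW', map_add, map_pow, map_mul]
    rw [← htU] at h5
    linear_combination -h5
  have hq0t : aeval t (q 0) ≠ 0 := fun h0 => hq00 (hTt _ h0)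
  have hhe : h * (64 * aeval t (q 0) ^ 3 * aeval t (q 4) - (4 * aeval t (q 0) * aeval t (q 2) - aeval t (q 1) ^ 2) ^ 2) =
      8 * aeval t (q 0) * (4 * aeval t (q 0) * aeval t (q 1) * aeval t (q 2) - aeval t (q 1) ^ 3 - 8 * aeval t (q 0) ^ 2 * aeval t (q 3)) := by
    have e1 : aeval t D = 64 * aeval t (q 0) ^ 3 * aeval t (q 4) - (4 * aeval t (q 0) * aeval t (q 2) - aeval t (q 1) ^ 2) ^ 2 := by
      rw [hD]; simp only [map_sub, map_mul, map_pow, map_ofNat]
    have e2 : aeval t N = 8 * aeval t (q 0) * (4 * aeval t (q 0) * aeval t (q 1) * aeval t (q 2) - aeval t (q 1) ^ 3 - 8 * aeval t (q 0) ^ 2 * aeval t (q 3)) := by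
      rw [hN]; simp only [map_sub, map_mul, map_pow, map_ofNat]
    rw [← e1, ← e2, hhD]
  have htrip := triple_identity _ _ _ _ _ W h hw hq0t h2L hhe
  have hAe := taylor_expand A hA y0 h
  have hBe := taylor_expand B hB y0 h
  have hCe := taylor_expand C0 hC y0 h
  rw [hqt 0, hqt 1, hqt 2, hqt 3, hqt 4] at htrip
  change aeval y1 A = ι (a 0) + ι (a 1) * h + ι (a 2) * h ^ 2 + ι (a 3) * h ^ 3 + ι (a 4) * h ^ 4 at hAe
  change aeval y1 B = ι (b 0) + ι (b 1) * h + ι (b 2) * h ^ 2 + ι (b 3) * h ^ 3 + ι (b 4) * h ^ 4 at hBe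
  change aeval y1 C0 = ι (c 0) + ι (c 1) * h + ι (c 2) * h ^ 2 + ι (c 3) * h ^ 3 + ι (c 4) * h ^ 4 at hCe
  generalize (W * _) = w1 at htrip
  have hfin : aeval y1 A * t ^ 2 + 2 * aeval y1 B * t - aeval y1 C0 = w1 ^ 2 := by
    rw [← htrip, hAe, hBe, hCe]; ring
  refine Iso.of_norm_form (U := aeval y1 A * t + aeval y1 B) (W := w1) ?_
  rw [← hfin, map_add, map_pow, map_mul]
  ring

end Core

end Pool.Agent.Lib.MP_2095a9_ag
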