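import Mathlib

set_option autoImplicit false

namespace Pool.Agent.Lib.MP_2095a9_ag

section FlagDeg

open MvPolynomial

theorem flag_pderiv_comm {σ : Type*} (i j : σ) (f : MvPolynomial σ ℂ) :
    pderiv i (pderiv j f) = pderiv j (pderiv i f) := by
  classical
  ext m
  rw [coeff_pderiv, coeff_pderiv, coeff_pderiv, coeff_pderiv, add_right_comm]
  by_cases h : i = j
  · subst h; rfl
  · have h1 : (Finsupp.single i 1 : σ →₀ ℕ) j = 0 := Finsupp.single_eq_of_ne (Ne.symm h)
    have h2 : (Finsupp.single j 1 : σ →₀ ℕ) i = 0 := Finsupp.single_eq_of_ne h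
    rw [Finsupp.add_apply, Finsupp.add_apply, h1, h2]
    simp only [add_zero]
    ring

theorem flag_totalDegree_pderiv {σ : Type*} (i : σ) (f : MvPolynomial σ ℂ) (h : pderiv i f ≠ 0) :
    (pderiv i f).totalDegree + 1 ≤ f.totalDegree := by
  classical
  obtain ⟨m0, hm0⟩ := support_nonempty.mpr h
  have hpos : 0 < f.totalDegree := by
    have h1 : m0 + Finsupp.single i 1 ∈ f.support := by
      rw [mem_support_iff] at hm0 ⊢
      rw [coeff_pderiv] at hm0
      exact left_ne_zero_of_mul hm0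
    have h2 := le_totalDegree h1
    rw [Finsupp.sum_add_index' (fun _ => rfl) (fun _ _ _ => rfl), Finsupp.sum_single_index rfl] at h2
    omega
  have h3 : (pderiv i f).totalDegree ≤ f.totalDegree - 1 := by
    rw [totalDegree]
    apply Finset.sup_le
    intro m hm
    have h1 : m + Finsupp.single i 1 ∈ f.support := by
      rw [mem_support_iff] at hm ⊢
      rw [coeff_pderiv] at hm
      exact left_ne_zero_of_mul hm
    have h2 := le_totalDegree h1
    rw [Finsupp.sum_add_index' (fun _ => rfl) (fun _ _ _ => rfl), Finsupp.sum_single_index rfl] at h2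
    omega
  omega

/-- a polynomial dividing its own partial derivative has derivative zero -/
theorem flag_pderiv_eq_zero_of_dvd {σ : Type*} (i : σ) (f g : MvPolynomial σ ℂ)
    (h : pderiv i f = f * g) : pderiv i f = 0 := by
  by_contra hne
  have hf : f ≠ 0 := by
    rintro rfl
    exact hne (map_zero _)
  have hg : g ≠ 0 := by
    rintro rfl
    apply hne; rw [h, mul_zero]
  have h1 := flag_totalDegree_pderiv i f hne
  have h2 := totalDegree_mul_of_isDomain hf hg
  rw [← h] at h2
  omega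

theorem flag_degreeOf_of_pderiv_zero {σ : Type*} (i : σ) (f : MvPolynomial σ ℂ)
    (h : pderiv i f = 0) : f.degreeOf i = 0 := by
  classical
  apply Nat.le_zero.mp
  rw [degreeOf_le_iff]
  intro m hm
  by_contra hcon
  have hmi : 0 < m i := by omega
  have h1 : coeff (m - Finsupp.single i 1) (pderiv i f) ≠ 0 := by
    rw [coeff_pderiv]
    have h2 : m - Finsupp.single i 1 + Finsupp.single i 1 = m := by
      apply tsub_add_cancel_of_le
      rw [Finsupp.single_le_iff]
      omega
    rw [h2]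
    refine mul_ne_zero (mem_support_iff.mp hm) ?_
    exact Nat.cast_add_one_ne_zero _
  rw [h, coeff_zero] at h1
  exact h1 rfl

theorem flag_degreeOf_le_pderiv {σ : Type*} (i : σ) (f : MvPolynomial σ ℂ) (n : ℕ)
    (h : (pderiv i f).degreeOf i ≤ n) : f.degreeOf i ≤ n + 1 := by
  classical
  rw [degreeOf_le_iff]
  intro m hm
  by_contra hcon
  have hmi : n + 1 < m i := by omega
  have h1 : coeff (m - Finsupp.single i 1) (pderiv i f) ≠ 0 := by
    rw [coeff_pderiv]
    have h2 : m - Finsupp.single i 1 + Finsupp.single i 1 = m := by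
      apply tsub_add_cancel_of_le
      rw [Finsupp.single_le_iff]
      omega
    rw [h2]
    refine mul_ne_zero (mem_support_iff.mp hm) ?_
    exact Nat.cast_add_one_ne_zero _
  have h3 := degreeOf_le_iff.mp h _ (mem_support_iff.mpr h1)
  rw [Finsupp.tsub_apply, Finsupp.single_eq_same] at h3
  omega

theorem flag_degreeOf_pderiv_le {σ : Type*} (i j : σ) (f : MvPolynomial σ ℂ) (n : ℕ)
    (h : f.degreeOf i ≤ n) : (pderiv j f).degreeOf i ≤ n := by
  classical
  rw [degreeOf_le_iff] at h ⊢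
  intro m hm
  have h1 : m + Finsupp.single j 1 ∈ f.support := by
    rw [mem_support_iff] at hm ⊢
    rw [coeff_pderiv] at hm
    exact left_ne_zero_of_mul hm
  have h2 := h _ h1
  rw [Finsupp.add_apply] at h2
  omega

end FlagDeg

section FlagDegenerate

open Polynomial

/-- If `A t² + 2 B t - D` divides its derivative in the direction `∂x + t ∂y` (here `x = X 1`,
`y = X 0`), then up to a square factor `B² + A D` has degree at most two in `y`. -/
theorem flag_degenerate (A B D : MvPolynomial (Fin 2) ℂ) (hA : A ≠ 0) (hδ : B ^ 2 + A * D ≠ 0)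
    (h1 : A ^ 2 * (2 * MvPolynomial.pderiv 1 B - MvPolynomial.pderiv 0 D) =
      2 * B * ((MvPolynomial.pderiv 1 A + 2 * MvPolynomial.pderiv 0 B) * A -
        2 * B * MvPolynomial.pderiv 0 A) - D * A * MvPolynomial.pderiv 0 A)
    (h0 : A ^ 2 * (- MvPolynomial.pderiv 1 D) =
      - D * ((MvPolynomial.pderiv 1 A + 2 * MvPolynomial.pderiv 0 B) * A -
        2 * B * MvPolynomial.pderiv 0 A)) :
    ∃ d δ1 : MvPolynomial (Fin 2) ℂ, d ≠ 0 ∧ B ^ 2 + A * D = d ^ 2 * δ1 ∧ δ1.degreeOf 0 ≤ 2 := by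
  classical
  let _ : NormalizedGCDMonoid (MvPolynomial (Fin 2) ℂ) := Classical.choice inferInstance
  have half : (2 : (MvPolynomial (Fin 2) ℂ)) * MvPolynomial.C (1 / 2) = 1 := by
    have : (2 : (MvPolynomial (Fin 2) ℂ)) = MvPolynomial.C 2 := by rw [map_ofNat]
    rw [this, ← MvPolynomial.C_mul]
    norm_num
  have two_ne : (2 : (MvPolynomial (Fin 2) ℂ)) ≠ 0 := by
    intro h; rw [h, zero_mul] at half; exact zero_ne_one half
  set G : (MvPolynomial (Fin 2) ℂ)[X] := C A * X ^ 2 + C (2 * B) * X - C D with hG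
  have hGeq := G.eq_C_content_mul_primPart
  set d := G.content with hd
  set P := G.primPart with hP
  have hPprim : P.IsPrimitive := G.isPrimitive_primPart
  have hG2 : G.coeff 2 = A := by rw [hG]; simp
  have hG1 : G.coeff 1 = 2 * B := by rw [hG]; simp [coeff_C]
  have hG0 : G.coeff 0 = - D := by rw [hG]; simp
  set A1 := P.coeff 2 with hA1
  set B1 := MvPolynomial.C (1 / 2) * P.coeff 1 with hB1
  set D1 := - P.coeff 0 with hD1
  have hB1' : P.coeff 1 = 2 * B1 := by rw [hB1]; linear_combination (-P.coeff 1) * half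
  have eA : A = d * A1 := by rw [← hG2, hGeq, coeff_C_mul]
  have eB : B = d * B1 := by
    apply mul_left_cancel₀ two_ne
    have : 2 * B = d * P.coeff 1 := by rw [← hG1, hGeq, coeff_C_mul]
    rw [this, hB1']; ring
  have eD : D = d * D1 := by
    have : - D = d * P.coeff 0 := by rw [← hG0, hGeq, coeff_C_mul]
    rw [hD1]; linear_combination -this
  have hd0 : d ≠ 0 := by
    intro h; apply hA; rw [eA, h, zero_mul]
  have hA10 : A1 ≠ 0 := by
    intro h; apply hA; rw [eA, h, mul_zero]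
  have hGdeg : G.natDegree ≤ 2 := by rw [hG]; compute_degree
  have hPdeg : P.natDegree ≤ 2 := by rw [hP, natDegree_primPart]; exact hGdeg
  have hPform : P = C A1 * X ^ 2 + C (2 * B1) * X - C D1 := by
    have h3 := P.as_sum_range_C_mul_X_pow' (n := 3) (by omega)
    rw [Finset.sum_range_succ, Finset.sum_range_succ, Finset.sum_range_succ, Finset.sum_range_zero] at h3
    rw [h3, hB1', ← hA1, hD1]
    simp only [C_neg]
    ring
  -- the relations for the primitive part
  have pA0 : MvPolynomial.pderiv 0 A = MvPolynomial.pderiv 0 d * A1 + d * MvPolynomial.pderiv 0 A1 := by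
    rw [eA, MvPolynomial.pderiv_mul]
  have pA1 : MvPolynomial.pderiv 1 A = MvPolynomial.pderiv 1 d * A1 + d * MvPolynomial.pderiv 1 A1 := by
    rw [eA, MvPolynomial.pderiv_mul]
  have pB0 : MvPolynomial.pderiv 0 B = MvPolynomial.pderiv 0 d * B1 + d * MvPolynomial.pderiv 0 B1 := by
    rw [eB, MvPolynomial.pderiv_mul]
  have pB1 : MvPolynomial.pderiv 1 B = MvPolynomial.pderiv 1 d * B1 + d * MvPolynomial.pderiv 1 B1 := by
    rw [eB, MvPolynomial.pderiv_mul]
  have pD0 : MvPolynomial.pderiv 0 D = MvPolynomial.pderiv 0 d * D1 + d * MvPolynomial.pderiv 0 D1 := by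
    rw [eD, MvPolynomial.pderiv_mul]
  have pD1 : MvPolynomial.pderiv 1 D = MvPolynomial.pderiv 1 d * D1 + d * MvPolynomial.pderiv 1 D1 := by
    rw [eD, MvPolynomial.pderiv_mul]
  rw [pA0, pA1, pB0, pB1, pD0, eA, eB, eD] at h1
  rw [pA0, pA1, pB0, pD1, eA, eB, eD] at h0
  have hd3 : d ^ 3 ≠ 0 := pow_ne_zero _ hd0
  set κ := A1 * (MvPolynomial.pderiv 1 A1 + 2 * MvPolynomial.pderiv 0 B1) -
    2 * B1 * MvPolynomial.pderiv 0 A1 with hκ
  have h1' : A1 ^ 2 * (2 * MvPolynomial.pderiv 1 B1 - MvPolynomial.pderiv 0 D1) =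
      2 * B1 * κ - D1 * A1 * MvPolynomial.pderiv 0 A1 := by
    apply mul_left_cancel₀ hd3
    rw [hκ]
    linear_combination h1
  have h0' : A1 ^ 2 * (- MvPolynomial.pderiv 1 D1) = - D1 * κ := by
    apply mul_left_cancel₀ hd3
    rw [hκ]
    linear_combination h0
  set S : (MvPolynomial (Fin 2) ℂ)[X] := C (A1 * MvPolynomial.pderiv 0 A1) * X + C κ with hS
  set E : (MvPolynomial (Fin 2) ℂ)[X] := C (MvPolynomial.pderiv 0 A1) * X ^ 3 +
    C (MvPolynomial.pderiv 1 A1 + 2 * MvPolynomial.pderiv 0 B1) * X ^ 2 +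
    C (2 * MvPolynomial.pderiv 1 B1 - MvPolynomial.pderiv 0 D1) * X - C (MvPolynomial.pderiv 1 D1) with hE
  have hES : C (A1 ^ 2) * E = P * S := by
    have c1 := congrArg (C : (MvPolynomial (Fin 2) ℂ) → (MvPolynomial (Fin 2) ℂ)[X]) h1'
    have c0 := congrArg (C : (MvPolynomial (Fin 2) ℂ) → (MvPolynomial (Fin 2) ℂ)[X]) h0'
    rw [hE, hS, hPform]
    simp only [hκ, C_mul, C_add, C_sub, C_pow, C_neg] at c1 c0 ⊢
    linear_combination X * c1 + c0
  have hdiv : C (A1 ^ 2) ∣ S := by
    rw [← dvd_content_iff_C_dvd]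
    have h3 : A1 ^ 2 ∣ (P * S).content := by
      rw [dvd_content_iff_C_dvd, ← hES]
      exact Dvd.intro _ rfl
    have h4 := h3.trans (associated_content_mul P S).dvd
    rwa [hPprim.content_eq_one, one_mul] at h4
  obtain ⟨T, hT⟩ := hdiv
  set μ := T.coeff 1 with hμ
  set lam := T.coeff 0 with hlam
  have hA2 : A1 ^ 2 ≠ 0 := pow_ne_zero _ hA10
  have hμe : A1 * MvPolynomial.pderiv 0 A1 = A1 ^ 2 * μ := by
    have : S.coeff 1 = A1 * MvPolynomial.pderiv 0 A1 := by rw [hS]; simp [coeff_C]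
    rw [← this, hT, coeff_C_mul]
  have hlame : κ = A1 ^ 2 * lam := by
    have : S.coeff 0 = κ := by rw [hS]; simp
    rw [← this, hT, coeff_C_mul]
  have hEq : E = P * (C μ * X + C lam) := by
    have hC : (C (A1 ^ 2) : (MvPolynomial (Fin 2) ℂ)[X]) ≠ 0 := C_ne_zero.mpr hA2
    apply mul_left_cancel₀ hC
    rw [hES, hS, hμe, hlame]
    simp only [C_mul]
    ring
  have r3 : MvPolynomial.pderiv 0 A1 = A1 * μ := by
    apply mul_left_cancel₀ hA10
    rw [hμe]; ring
  have a0 : MvPolynomial.pderiv 0 A1 = 0 := flag_pderiv_eq_zero_of_dvd 0 A1 μ r3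
  have hμ0 : μ = 0 := by
    rw [a0] at r3
    exact (mul_eq_zero.mp r3.symm).resolve_left hA10
  have r2 : MvPolynomial.pderiv 1 A1 + 2 * MvPolynomial.pderiv 0 B1 = A1 * lam := by
    apply mul_left_cancel₀ hA10
    rw [hκ, a0] at hlame
    linear_combination hlame
  have r1 : 2 * MvPolynomial.pderiv 1 B1 - MvPolynomial.pderiv 0 D1 = 2 * B1 * lam := by
    apply mul_left_cancel₀ hA2
    rw [a0, hlame] at h1'
    linear_combination h1'
  have r0 : MvPolynomial.pderiv 1 D1 = D1 * lam := by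
    apply mul_left_cancel₀ hA2
    rw [hlame] at h0'
    linear_combination -h0'
  have d0 : MvPolynomial.pderiv 1 D1 = 0 := flag_pderiv_eq_zero_of_dvd 1 D1 lam r0
  have hlam0 : lam = 0 := by
    by_cases hD10 : D1 = 0
    · have hB10 : B1 ≠ 0 := by
        intro h; apply hδ; rw [eB, eD, h, hD10]; ring
      have h4 : MvPolynomial.pderiv 1 B1 = B1 * lam := by
        rw [hD10, map_zero] at r1
        apply mul_left_cancel₀ two_ne
        linear_combination r1
      have h5 := flag_pderiv_eq_zero_of_dvd 1 B1 lam h4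
      rw [h5] at h4
      exact (mul_eq_zero.mp h4.symm).resolve_left hB10
    · rw [d0] at r0
      exact (mul_eq_zero.mp r0.symm).resolve_left hD10
  rw [hlam0, mul_zero] at r2 r1
  have degA : A1.degreeOf 0 = 0 := flag_degreeOf_of_pderiv_zero 0 A1 a0
  have degB : B1.degreeOf 0 ≤ 1 := by
    apply flag_degreeOf_le_pderiv 0 B1 0
    rw [flag_degreeOf_of_pderiv_zero 0 _ ?_]
    have h4 : MvPolynomial.pderiv 0 (MvPolynomial.pderiv 1 A1 + 2 * MvPolynomial.pderiv 0 B1) = 0 := by
      rw [r2, map_zero]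
    rw [map_add, flag_pderiv_comm 0 1, a0, map_zero, zero_add,
      show (2 : (MvPolynomial (Fin 2) ℂ)) * MvPolynomial.pderiv 0 B1 = MvPolynomial.C 2 * MvPolynomial.pderiv 0 B1 by rw [map_ofNat],
      MvPolynomial.pderiv_C_mul, show (MvPolynomial.C 2 : (MvPolynomial (Fin 2) ℂ)) = 2 by rw [map_ofNat]] at h4
    exact (mul_eq_zero.mp h4).resolve_left two_ne
  have degD : D1.degreeOf 0 ≤ 2 := by
    apply flag_degreeOf_le_pderiv 0 D1 1
    have h4 : MvPolynomial.pderiv 0 D1 = MvPolynomial.C 2 * MvPolynomial.pderiv 1 B1 := by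
      rw [map_ofNat]
      linear_combination -r1
    rw [h4]
    refine (MvPolynomial.degreeOf_mul_le _ _ _).trans ?_
    rw [MvPolynomial.degreeOf_C, zero_add]
    exact flag_degreeOf_pderiv_le 0 1 B1 1 degB
  refine ⟨d, B1 ^ 2 + A1 * D1, hd0, ?_, ?_⟩
  · rw [eA, eB, eD]; ring
  · refine (MvPolynomial.degreeOf_add_le _ _ _).trans (max_le ?_ ?_)
    · refine (MvPolynomial.degreeOf_pow_le _ _ _).trans ?_
      omega
    · refine (MvPolynomial.degreeOf_mul_le _ _ _).trans ?_
      omega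

end FlagDegenerate

end Pool.Agent.Lib.MP_2095a9_ag
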