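import Pool.Agent.Lib.MP_2095a9_ag.FlagA
import Pool.Agent.Lib.MP_2095a9_ag.FlagB

set_option autoImplicit false
set_option linter.unusedSimpArgs false

namespace Pool.Agent.Lib.MP_2095a9_ag

open Polynomial

section FlagMain

theorem flag_not_dvd {F : Type*} [Field F] (α β γ a3 a2 a1 a0 : F) (hα : α ≠ 0)
    (hE : α ^ 2 * a1 - (2 * β * (a2 * α - 2 * β * a3) - γ * α * a3) ≠ 0 ∨
      α ^ 2 * a0 + γ * (a2 * α - 2 * β * a3) ≠ 0) :
    ¬ (C α * X ^ 2 + C (2 * β) * X - C γ) ∣ (C a3 * X ^ 3 + C a2 * X ^ 2 + C a1 * X + C a0) := by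
  intro hdvd
  set q0 : F[X] := C α * X ^ 2 + C (2 * β) * X - C γ with hq0
  have hq0deg : q0.natDegree = 2 := by
    rw [hq0]; compute_degree!
  set r1 := α ^ 2 * a1 - (2 * β * (a2 * α - 2 * β * a3) - γ * α * a3) with hr1
  set r0 := α ^ 2 * a0 + γ * (a2 * α - 2 * β * a3) with hr0
  have h1 : C r1 * X + C r0 = C (α ^ 2) * (C a3 * X ^ 3 + C a2 * X ^ 2 + C a1 * X + C a0) -
      q0 * (C (α * a3) * X + C (a2 * α - 2 * β * a3)) := by
    rw [hr1, hr0, hq0]
    simp only [C_mul, C_add, C_sub, C_pow]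
    ring
  have h2 : q0 ∣ C r1 * X + C r0 := by
    rw [h1]
    exact dvd_sub (hdvd.mul_left _) (Dvd.intro _ rfl)
  have h3 : (C r1 * X + C r0).natDegree < q0.natDegree := by
    rw [hq0deg]
    have : (C r1 * X + C r0).natDegree ≤ 1 := by compute_degree
    omega
  have h4 := Polynomial.eq_zero_of_dvd_of_natDegree_lt h2 h3
  have h5 : r1 = 0 := by
    have := congrArg (fun p : F[X] => p.coeff 1) h4
    simpa [coeff_C] using this
  have h6 : r0 = 0 := by
    have := congrArg (fun p : F[X] => p.coeff 0) h4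
    simpa using this
  rcases hE with h | h
  · exact h h5
  · exact h h6

/-- some line `X 1 = e` is not contained in a given curve -/
theorem flag_exists_line (P : MvPolynomial (Fin 2) ℂ) (hP : P ≠ 0) :
    ∃ e : ℂ, MvPolynomial.aeval
      ![algebraMap (MvPolynomial (Fin 1) ℂ) (FractionRing (MvPolynomial (Fin 1) ℂ)) (MvPolynomial.X 0),
        algebraMap ℂ (FractionRing (MvPolynomial (Fin 1) ℂ)) e] P ≠ 0 := by
  classical
  by_contra hcon
  push Not at hcon
  apply hP
  apply MvPolynomial.funext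
  intro v
  rw [map_zero]
  have h1 := hcon (v 1)
  have h2 : (MvPolynomial.aeval
      ![algebraMap (MvPolynomial (Fin 1) ℂ) (FractionRing (MvPolynomial (Fin 1) ℂ)) (MvPolynomial.X 0),
        algebraMap ℂ (FractionRing (MvPolynomial (Fin 1) ℂ)) (v 1)] : MvPolynomial (Fin 2) ℂ →ₐ[ℂ] _) =
      (IsScalarTower.toAlgHom ℂ (MvPolynomial (Fin 1) ℂ) (FractionRing (MvPolynomial (Fin 1) ℂ))).comp
        (MvPolynomial.aeval ![(MvPolynomial.X 0 : MvPolynomial (Fin 1) ℂ), MvPolynomial.C (v 1)]) := by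
    apply MvPolynomial.algHom_ext
    intro i
    fin_cases i
    · simp
    · simp only [AlgHom.comp_apply, MvPolynomial.aeval_X]
      rfl
  rw [h2, AlgHom.comp_apply] at h1
  have h3 : MvPolynomial.aeval ![(MvPolynomial.X 0 : MvPolynomial (Fin 1) ℂ), MvPolynomial.C (v 1)] P = 0 :=
    IsFractionRing.injective (MvPolynomial (Fin 1) ℂ) (FractionRing (MvPolynomial (Fin 1) ℂ))
      (h1.trans (map_zero _).symm)
  have h4 : (MvPolynomial.aeval (fun _ : Fin 1 => v 0) : MvPolynomial (Fin 1) ℂ →ₐ[ℂ] ℂ).comp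
      (MvPolynomial.aeval ![(MvPolynomial.X 0 : MvPolynomial (Fin 1) ℂ), MvPolynomial.C (v 1)]) =
      MvPolynomial.aeval v := by
    apply MvPolynomial.algHom_ext
    intro i
    fin_cases i
    · simp
    · simp
  have h5 : MvPolynomial.aeval v P = 0 := by
    rw [← h4, AlgHom.comp_apply, h3, map_zero]
  exact h5

/-- Taylor expansion along the direction `(1, t)` -/
theorem flag_natDegree {R : Type*} [CommRing R] [Algebra ℂ R] (c1 c2 u : R)
    (f : MvPolynomial (Fin 2) ℂ) (hf : f.totalDegree ≤ 4) :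
    (MvPolynomial.aeval ![C c1 + C u * X, C c2 + X] f : R[X]).natDegree ≤ 4 := by
  have h1 : (MvPolynomial.aeval ![C c1 + C u * X, C c2 + X] f : R[X]) =
      MvPolynomial.aeval ![C c1 + C u * X, C c2 + X] (MvPolynomial.map (algebraMap ℂ R) f) := by
    rw [MvPolynomial.aeval_map_algebraMap]
  rw [h1]
  have h2 : (MvPolynomial.map (algebraMap ℂ R) f).totalDegree ≤ 4 :=
    (Finset.sup_mono (MvPolynomial.support_map_subset (algebraMap ℂ R) f)).trans hf
  have h3 := MvPolynomial.aeval_natDegree_le (m := 4) (MvPolynomial.map (algebraMap ℂ R) f) h2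
    ![C c1 + C u * X, C c2 + X] (n := 1) (by
      intro i
      fin_cases i
      · show (C c1 + C u * X : R[X]).natDegree ≤ 1
        compute_degree
      · show (C c2 + X : R[X]).natDegree ≤ 1
        compute_degree)
  simpa using h3

theorem flag_coeff_zero {R : Type*} [CommRing R] [Algebra ℂ R] (c1 c2 u : R)
    (f : MvPolynomial (Fin 2) ℂ) :
    (MvPolynomial.aeval ![C c1 + C u * X, C c2 + X] f : R[X]).coeff 0 =
      MvPolynomial.aeval ![c1, c2] f := by
  induction f using MvPolynomial.induction_on with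
  | C a =>
    rw [MvPolynomial.aeval_C, MvPolynomial.aeval_C]
    have : algebraMap ℂ R[X] a = C (algebraMap ℂ R a) := rfl
    rw [this, coeff_C_zero]
  | add p q hp hq => rw [map_add, map_add, coeff_add, hp, hq]
  | mul_X p i hp =>
    rw [map_mul, map_mul, MvPolynomial.aeval_X, MvPolynomial.aeval_X, mul_coeff_zero, hp]
    congr 1
    fin_cases i
    · simp
    · simp

theorem flag_coeff_one {R : Type*} [CommRing R] [Algebra ℂ R] (c1 c2 u : R)
    (f : MvPolynomial (Fin 2) ℂ) :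
    (MvPolynomial.aeval ![C c1 + C u * X, C c2 + X] f : R[X]).coeff 1 =
      u * MvPolynomial.aeval ![c1, c2] (MvPolynomial.pderiv 0 f) +
        MvPolynomial.aeval ![c1, c2] (MvPolynomial.pderiv 1 f) := by
  classical
  induction f using MvPolynomial.induction_on with
  | C a =>
    rw [MvPolynomial.aeval_C, MvPolynomial.pderiv_C, MvPolynomial.pderiv_C]
    have : algebraMap ℂ R[X] a = C (algebraMap ℂ R a) := rfl
    rw [this, coeff_C]
    simp
  | add p q hp hq =>
    rw [map_add, coeff_add, hp, hq]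
    simp only [map_add]
    ring
  | mul_X p i hp =>
    have h0 := flag_coeff_zero c1 c2 u p
    rw [map_mul, MvPolynomial.aeval_X, MvPolynomial.pderiv_mul, MvPolynomial.pderiv_mul]
    simp only [map_add, map_mul, MvPolynomial.aeval_X]
    fin_cases i
    · show ((MvPolynomial.aeval ![C c1 + C u * X, C c2 + X] p : R[X]) * (C c1 + C u * X)).coeff 1 = _
      rw [mul_add, coeff_add, coeff_mul_C, ← mul_assoc, coeff_mul_X, coeff_mul_C, h0, hp]
      simp
      ring
    · show ((MvPolynomial.aeval ![C c1 + C u * X, C c2 + X] p : R[X]) * (C c2 + X)).coeff 1 = _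
      rw [mul_add, coeff_add, coeff_mul_C, coeff_mul_X, h0, hp]
      simp
      ring

/-- from a point of the conic over a rational function field in two variables to the embedding
of the function field -/
theorem flag_finish (a b : FractionRing (MvPolynomial (Fin 2) ℂ)) (ha0 : a ≠ 0) (hb0 : b ≠ 0)
    (σ : FractionRing (MvPolynomial (Fin 2) ℂ) →ₐ[ℂ]
      FractionRing (FractionRing (MvPolynomial (Fin 1) ℂ))[X])
    (hiso : Iso (σ a) (σ b)) :
    Nonempty
        (FractionRing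
            (MvPolynomial (Fin 2) (FractionRing (MvPolynomial (Fin 2) ℂ)) ⧸
              Ideal.span
                {(MvPolynomial.C a * MvPolynomial.X 0 ^ 2 +
                    MvPolynomial.C b * MvPolynomial.X 1 ^ 2 - 1 :
                  MvPolynomial (Fin 2) (FractionRing (MvPolynomial (Fin 2) ℂ)))})
          →ₐ[ℂ] FractionRing (MvPolynomial (Fin 3) ℂ)) := by
  have h2L : (2 : FractionRing (FractionRing (MvPolynomial (Fin 1) ℂ))[X]) ≠ 0 := by
    have := (map_ne_zero (algebraMap ℂ (FractionRing (FractionRing (MvPolynomial (Fin 1) ℂ))[X]))).mpr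
      (two_ne_zero : (2 : ℂ) ≠ 0)
    rwa [map_ofNat] at this
  obtain ⟨u, v, huv⟩ := hiso.affine h2L ((map_ne_zero σ).mpr ha0) ((map_ne_zero σ).mpr hb0)
  have h2K : (2 : FractionRing (MvPolynomial (Fin 2) ℂ)) ≠ 0 := by
    have := (map_ne_zero (algebraMap ℂ (FractionRing (MvPolynomial (Fin 2) ℂ)))).mpr
      (two_ne_zero : (2 : ℂ) ≠ 0)
    rwa [map_ofNat] at this
  obtain ⟨Ψ⟩ := conic_embed h2K a b ha0 hb0 σ u v huv
  obtain ⟨s2⟩ := rational_step 1 (AlgHom.id ℂ (FractionRing (MvPolynomial (Fin 1) ℂ)))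
  obtain ⟨s3⟩ := rational_step 2 s2
  exact ⟨s3.comp Ψ⟩

/-- `(p, -p q)` isotropic implies `(p, d² q)` isotropic -/
theorem flag_transfer {L : Type*} [Field L] (p q d : L) (hp : p ≠ 0) (hd : d ≠ 0)
    (h : Iso p (0 ^ 2 + p * (- q))) : Iso p (d ^ 2 * q) := by
  obtain ⟨x, y, z, hne, h⟩ := h
  refine ⟨z, p * y / d, p * x, ?_, ?_⟩
  · rintro ⟨h1, h2, h3⟩
    apply hne
    refine ⟨(mul_eq_zero.mp h3).resolve_left hp, ?_, h1⟩
    rcases div_eq_zero_iff.mp h2 with h4 | h4
    · exact (mul_eq_zero.mp h4).resolve_left hp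
    · exact absurd h4 hd
  · have h5 : d ^ 2 * q * (p * y / d) ^ 2 = q * (p * y) ^ 2 := by
      field_simp
    rw [h5]
    linear_combination (-p) * h

/-- the nondegenerate case -/
theorem flag_generic (g0 g1 g2 g3 g4 g5 A B D : MvPolynomial (Fin 2) ℂ)
    (h0 : g0.totalDegree ≤ 4) (h1 : g1.totalDegree ≤ 4) (h2 : g2.totalDegree ≤ 4)
    (h3 : g3.totalDegree ≤ 4) (h4 : g4.totalDegree ≤ 4) (h5 : g5.totalDegree ≤ 4)
    (hA : A = g0 * MvPolynomial.X 1 ^ 2 - 2 * g1 * MvPolynomial.X 1 + g3)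
    (hB : B = - g0 * MvPolynomial.X 1 * MvPolynomial.X 0 + g1 * MvPolynomial.X 0 -
      g2 * MvPolynomial.X 1 + g4)
    (hD : D = - (g0 * MvPolynomial.X 0 ^ 2 + 2 * g2 * MvPolynomial.X 0 + g5))
    (e : ℂ)
    (hα : MvPolynomial.aeval
      ![algebraMap (MvPolynomial (Fin 1) ℂ) (FractionRing (MvPolynomial (Fin 1) ℂ)) (MvPolynomial.X 0),
        algebraMap ℂ (FractionRing (MvPolynomial (Fin 1) ℂ)) e] A ≠ 0)
    (hδ : MvPolynomial.aeval
      ![algebraMap (MvPolynomial (Fin 1) ℂ) (FractionRing (MvPolynomial (Fin 1) ℂ)) (MvPolynomial.X 0),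
        algebraMap ℂ (FractionRing (MvPolynomial (Fin 1) ℂ)) e] (B ^ 2 + A * D) ≠ 0)
    (hE : MvPolynomial.aeval
      ![algebraMap (MvPolynomial (Fin 1) ℂ) (FractionRing (MvPolynomial (Fin 1) ℂ)) (MvPolynomial.X 0),
        algebraMap ℂ (FractionRing (MvPolynomial (Fin 1) ℂ)) e]
        (A ^ 2 * (2 * MvPolynomial.pderiv 1 B - MvPolynomial.pderiv 0 D) -
          (2 * B * ((MvPolynomial.pderiv 1 A + 2 * MvPolynomial.pderiv 0 B) * A -
        2 * B * MvPolynomial.pderiv 0 A) - D * A * MvPolynomial.pderiv 0 A)) ≠ 0 ∨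
      MvPolynomial.aeval
      ![algebraMap (MvPolynomial (Fin 1) ℂ) (FractionRing (MvPolynomial (Fin 1) ℂ)) (MvPolynomial.X 0),
        algebraMap ℂ (FractionRing (MvPolynomial (Fin 1) ℂ)) e]
        (A ^ 2 * (- MvPolynomial.pderiv 1 D) + D * ((MvPolynomial.pderiv 1 A + 2 * MvPolynomial.pderiv 0 B) * A -
        2 * B * MvPolynomial.pderiv 0 A)) ≠ 0) :
    ∃ σ : FractionRing (MvPolynomial (Fin 2) ℂ) →ₐ[ℂ]
      FractionRing (FractionRing (MvPolynomial (Fin 1) ℂ))[X],
      Iso (σ (algebraMap _ _ A)) (σ (algebraMap _ _ (B ^ 2 + A * D))) := by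
  classical
  set F := FractionRing (MvPolynomial (Fin 1) ℂ) with hF
  set K := FractionRing F[X] with hK
  have _ : CharZero F := charZero_of_injective_algebraMap (algebraMap ℂ F).injective
  set c' : F := algebraMap (MvPolynomial (Fin 1) ℂ) F (MvPolynomial.X 0) with hc'
  set e' : F := algebraMap ℂ F e with he'
  set sp : MvPolynomial (Fin 2) ℂ →ₐ[ℂ] F := MvPolynomial.aeval ![c', e'] with hsp
  have sp0 : sp (MvPolynomial.X 0) = c' := by rw [hsp, MvPolynomial.aeval_X]; rfl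
  have sp1 : sp (MvPolynomial.X 1) = e' := by rw [hsp, MvPolynomial.aeval_X]; rfl
  -- the expansion in the direction `(1, t)`
  let G : MvPolynomial (Fin 2) ℂ →ₐ[ℂ] (F[X])[X] :=
    MvPolynomial.aeval ![C (C c') + C X * X, C (C e') + X]
  have hG0 : ∀ f, (G f).coeff 0 = C (sp f) := by
    intro f
    refine (flag_coeff_zero (R := F[X]) (C c') (C e') X f).trans ?_
    have h6 : (MvPolynomial.aeval ![(C c' : F[X]), C e'] : MvPolynomial (Fin 2) ℂ →ₐ[ℂ] F[X]) =
        (IsScalarTower.toAlgHom ℂ F F[X]).comp sp := by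
      apply MvPolynomial.algHom_ext
      intro i
      fin_cases i
      · simp only [AlgHom.comp_apply, hsp, MvPolynomial.aeval_X]; rfl
      · simp only [AlgHom.comp_apply, hsp, MvPolynomial.aeval_X]; rfl
    rw [h6]; rfl
  have hG1 : ∀ f, (G f).coeff 1 = X * C (sp (MvPolynomial.pderiv 0 f)) +
      C (sp (MvPolynomial.pderiv 1 f)) := by
    intro f
    refine (flag_coeff_one (R := F[X]) (C c') (C e') X f).trans ?_
    have h6 : (MvPolynomial.aeval ![(C c' : F[X]), C e'] : MvPolynomial (Fin 2) ℂ →ₐ[ℂ] F[X]) =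
        (IsScalarTower.toAlgHom ℂ F F[X]).comp sp := by
      apply MvPolynomial.algHom_ext
      intro i
      fin_cases i
      · simp only [AlgHom.comp_apply, hsp, MvPolynomial.aeval_X]; rfl
      · simp only [AlgHom.comp_apply, hsp, MvPolynomial.aeval_X]; rfl
    rw [h6]; rfl
  have hGd : ∀ f : MvPolynomial (Fin 2) ℂ, f.totalDegree ≤ 4 → (G f).natDegree ≤ 4 :=
    fun f hf => flag_natDegree (R := F[X]) (C c') (C e') X f hf
  set cc : F[X] := C c' - X * C e' with hcc
  set P : (F[X])[X] := C (cc ^ 2) * G g0 + C (2 * cc * X) * G g1 + C (2 * cc) * G g2 +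
    C (X ^ 2) * G g3 + C (2 * X) * G g4 + G g5 with hP
  have hPdeg : P.natDegree ≤ 4 := by
    rw [hP]
    refine (natDegree_add_le _ _).trans (max_le ?_ (hGd _ h5))
    refine (natDegree_add_le _ _).trans (max_le ?_ ((natDegree_C_mul_le _ _).trans (hGd _ h4)))
    refine (natDegree_add_le _ _).trans (max_le ?_ ((natDegree_C_mul_le _ _).trans (hGd _ h3)))
    refine (natDegree_add_le _ _).trans (max_le ?_ ((natDegree_C_mul_le _ _).trans (hGd _ h2)))
    exact (natDegree_add_le _ _).trans (max_le ((natDegree_C_mul_le _ _).trans (hGd _ h0))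
      ((natDegree_C_mul_le _ _).trans (hGd _ h1)))
  have hPc : ∀ i, P.coeff i = cc ^ 2 * (G g0).coeff i + 2 * cc * X * (G g1).coeff i +
      2 * cc * (G g2).coeff i + X ^ 2 * (G g3).coeff i + 2 * X * (G g4).coeff i + (G g5).coeff i := by
    intro i
    rw [hP]
    simp only [coeff_add, coeff_C_mul]
  -- values of A, B, D and of their derivatives
  have sA : sp A = sp g0 * e' ^ 2 - 2 * sp g1 * e' + sp g3 := by
    rw [hA]; simp only [map_add, map_sub, map_mul, map_pow, map_ofNat, sp1]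
  have sB : sp B = - sp g0 * e' * c' + sp g1 * c' - sp g2 * e' + sp g4 := by
    rw [hB]; simp only [map_add, map_sub, map_mul, map_neg, sp0, sp1]
  have sD : sp D = - (sp g0 * c' ^ 2 + 2 * sp g2 * c' + sp g5) := by
    rw [hD]; simp only [map_add, map_mul, map_neg, map_pow, map_ofNat, sp0]
  have d10 : MvPolynomial.pderiv (1 : Fin 2) (MvPolynomial.X 0 : MvPolynomial (Fin 2) ℂ) = 0 :=
    MvPolynomial.pderiv_X_of_ne (by decide)
  have d01 : MvPolynomial.pderiv (0 : Fin 2) (MvPolynomial.X 1 : MvPolynomial (Fin 2) ℂ) = 0 :=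
    MvPolynomial.pderiv_X_of_ne (by decide)
  have d00 : MvPolynomial.pderiv (0 : Fin 2) (MvPolynomial.X 0 : MvPolynomial (Fin 2) ℂ) = 1 :=
    MvPolynomial.pderiv_X_self 0
  have d11 : MvPolynomial.pderiv (1 : Fin 2) (MvPolynomial.X 1 : MvPolynomial (Fin 2) ℂ) = 1 :=
    MvPolynomial.pderiv_X_self 1
  have dn : ∀ i : Fin 2, MvPolynomial.pderiv i (2 : MvPolynomial (Fin 2) ℂ) = 0 := by
    intro i
    have : (2 : MvPolynomial (Fin 2) ℂ) = MvPolynomial.C 2 := by rw [map_ofNat]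
    rw [this, MvPolynomial.pderiv_C]
  have sAy : sp (MvPolynomial.pderiv 0 A) = sp (MvPolynomial.pderiv 0 g0) * e' ^ 2 -
      2 * sp (MvPolynomial.pderiv 0 g1) * e' + sp (MvPolynomial.pderiv 0 g3) := by
    rw [hA]
    simp only [map_add, map_sub, map_neg, MvPolynomial.pderiv_mul, MvPolynomial.pderiv_pow, d01, d00, d10, d11,
      dn, Nat.cast_ofNat, show 2 - 1 = 1 from rfl, pow_one, map_mul, map_pow, map_ofNat, sp0, sp1, map_zero, map_one]
    ring
  have sAx : sp (MvPolynomial.pderiv 1 A) = sp (MvPolynomial.pderiv 1 g0) * e' ^ 2 + 2 * sp g0 * e' -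
      2 * sp (MvPolynomial.pderiv 1 g1) * e' - 2 * sp g1 + sp (MvPolynomial.pderiv 1 g3) := by
    rw [hA]
    simp only [map_add, map_sub, map_neg, MvPolynomial.pderiv_mul, MvPolynomial.pderiv_pow, d01, d00, d10, d11,
      dn, Nat.cast_ofNat, show 2 - 1 = 1 from rfl, pow_one, map_mul, map_pow, map_ofNat, sp0, sp1, map_zero, map_one]
    ring
  have sBy : sp (MvPolynomial.pderiv 0 B) = - sp (MvPolynomial.pderiv 0 g0) * e' * c' - sp g0 * e' +
      sp (MvPolynomial.pderiv 0 g1) * c' + sp g1 - sp (MvPolynomial.pderiv 0 g2) * e' +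
      sp (MvPolynomial.pderiv 0 g4) := by
    rw [hB]
    simp only [map_add, map_sub, map_neg, MvPolynomial.pderiv_mul, MvPolynomial.pderiv_pow, d01, d00, d10, d11,
      dn, Nat.cast_ofNat, show 2 - 1 = 1 from rfl, pow_one, map_mul, map_pow, map_ofNat, sp0, sp1, map_zero, map_one]
    ring
  have sBx : sp (MvPolynomial.pderiv 1 B) = - sp (MvPolynomial.pderiv 1 g0) * e' * c' - sp g0 * c' +
      sp (MvPolynomial.pderiv 1 g1) * c' - sp g2 - sp (MvPolynomial.pderiv 1 g2) * e' +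
      sp (MvPolynomial.pderiv 1 g4) := by
    rw [hB]
    simp only [map_add, map_sub, map_neg, MvPolynomial.pderiv_mul, MvPolynomial.pderiv_pow, d01, d00, d10, d11,
      dn, Nat.cast_ofNat, show 2 - 1 = 1 from rfl, pow_one, map_mul, map_pow, map_ofNat, sp0, sp1, map_zero, map_one]
    ring
  have sDy : sp (MvPolynomial.pderiv 0 D) = - (sp (MvPolynomial.pderiv 0 g0) * c' ^ 2 + 2 * sp g0 * c' +
      2 * sp (MvPolynomial.pderiv 0 g2) * c' + 2 * sp g2 + sp (MvPolynomial.pderiv 0 g5)) := by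
    rw [hD]
    simp only [map_add, map_sub, map_neg, MvPolynomial.pderiv_mul, MvPolynomial.pderiv_pow, d01, d00, d10, d11,
      dn, Nat.cast_ofNat, show 2 - 1 = 1 from rfl, pow_one, map_mul, map_pow, map_ofNat, sp0, sp1, map_zero, map_one]
    ring
  have sDx : sp (MvPolynomial.pderiv 1 D) = - (sp (MvPolynomial.pderiv 1 g0) * c' ^ 2 +
      2 * sp (MvPolynomial.pderiv 1 g2) * c' + sp (MvPolynomial.pderiv 1 g5)) := by
    rw [hD]
    simp only [map_add, map_sub, map_neg, MvPolynomial.pderiv_mul, MvPolynomial.pderiv_pow, d01, d00, d10, d11,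
      dn, Nat.cast_ofNat, show 2 - 1 = 1 from rfl, pow_one, map_mul, map_pow, map_ofNat, sp0, sp1, map_zero, map_one]
    ring
  have hq0 : P.coeff 0 = C (sp A) * X ^ 2 + C (2 * sp B) * X - C (sp D) := by
    rw [hPc, hG0, hG0, hG0, hG0, hG0, hG0, sA, sB, sD, hcc]
    simp only [C_add, C_sub, C_mul, C_neg, C_pow, C_ofNat]
    ring
  have hq1 : P.coeff 1 = C (sp (MvPolynomial.pderiv 0 A)) * X ^ 3 +
      C (sp (MvPolynomial.pderiv 1 A) + 2 * sp (MvPolynomial.pderiv 0 B)) * X ^ 2 +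
      C (2 * sp (MvPolynomial.pderiv 1 B) - sp (MvPolynomial.pderiv 0 D)) * X +
      C (- sp (MvPolynomial.pderiv 1 D)) := by
    rw [hPc, hG1, hG1, hG1, hG1, hG1, hG1, sAy, sAx, sBy, sBx, sDy, sDx, hcc]
    simp only [C_add, C_sub, C_mul, C_neg, C_pow, C_ofNat]
    ring
  have hα' : sp A ≠ 0 := hα
  have hδ' : sp B ^ 2 + sp A * sp D ≠ 0 := by
    rw [← map_pow, ← map_mul, ← map_add]; exact hδ
  have hnd : ¬ P.coeff 0 ∣ P.coeff 1 := by
    rw [hq0, hq1]
    apply flag_not_dvd _ _ _ _ _ _ _ hα'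
    rcases hE with h6 | h6
    · left
      intro h7
      apply h6
      rw [← h7]
      simp only [map_add, map_sub, map_mul, map_pow, map_ofNat]
    · right
      intro h7
      apply h6
      rw [← h7]
      simp only [map_add, map_sub, map_mul, map_pow, map_ofNat, map_neg]
  obtain ⟨N, Dn, π, ψ, w, hπ, hπN, hπD, hN0, hD0, hw⟩ := flag_core tsen_one (sp A) (sp B) (sp D)
    hα' hδ' (P.coeff 0) (P.coeff 1) (P.coeff 2) (P.coeff 3) (P.coeff 4) hq0 hnd
  set h : K := algebraMap F[X] K N / algebraMap F[X] K Dn with hh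
  let g : MvPolynomial (Fin 2) ℂ →ₐ[ℂ] K := MvPolynomial.aeval
    ![algebraMap F K c' + algebraMap F[X] K X * h, algebraMap ℂ K e + h]
  have hginj : Function.Injective g := by
    rw [injective_iff_map_eq_zero]
    intro Φ hΦ
    exact flag_indep e N Dn π hπ hπN hπD hN0 hD0 Φ hΦ
  let σ0 : MvPolynomial (Fin 2) ℂ →ₐ[ℂ] K := (ψ.restrictScalars ℂ).comp g
  have hσ0inj : Function.Injective σ0 := ψ.injective.comp hginj
  let σ : FractionRing (MvPolynomial (Fin 2) ℂ) →ₐ[ℂ] K :=
    IsFractionRing.liftAlgHom (K := FractionRing (MvPolynomial (Fin 2) ℂ)) hσ0inj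
  have hσ : ∀ f, σ (algebraMap _ _ f) = σ0 f := fun f => IsFractionRing.lift_algebraMap hσ0inj f
  refine ⟨σ, ?_⟩
  rw [hσ, hσ]
  set t : K := ψ (algebraMap F[X] K X) with ht
  set h1' : K := ψ h with hh1
  -- the evaluation map
  let Θ : (F[X])[X] →+* K := eval₂RingHom ((aeval t : F[X] →ₐ[F] K) : F[X] →+* K) h1'
  have hΘP : Θ P = aeval t (P.coeff 0) + aeval t (P.coeff 1) * h1' + aeval t (P.coeff 2) * h1' ^ 2 +
      aeval t (P.coeff 3) * h1' ^ 3 + aeval t (P.coeff 4) * h1' ^ 4 := by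
    show eval₂ _ _ P = _
    rw [eval₂_eq_sum_range' _ (n := 5) (by omega)]
    simp only [Finset.sum_range_succ, Finset.sum_range_zero, pow_zero, pow_one, mul_one, zero_add]
    rfl
  have hΘG : ∀ f, Θ (G f) = σ0 f := by
    intro f
    induction f using MvPolynomial.induction_on with
    | C a =>
      have e1 : G (MvPolynomial.C a) = C (C (algebraMap ℂ F a)) := (MvPolynomial.aeval_C _ _).trans rfl
      have e2 : σ0 (MvPolynomial.C a) = algebraMap ℂ K a := σ0.commutes a
      rw [e1, e2]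
      show eval₂ _ _ (C (C (algebraMap ℂ F a))) = _
      rw [eval₂_C]
      show aeval t (C (algebraMap ℂ F a)) = _
      rw [aeval_C]
      exact (IsScalarTower.algebraMap_apply ℂ F K a).symm
    | add p q hp hq => rw [map_add, map_add, map_add, hp, hq]
    | mul_X p i hp =>
      rw [map_mul, map_mul, map_mul, hp]
      congr 1
      fin_cases i
      · have e1 : G (MvPolynomial.X 0) = C (C c') + C X * X := (MvPolynomial.aeval_X _ _).trans rfl
        have e2 : g (MvPolynomial.X 0) = algebraMap F K c' + algebraMap F[X] K X * h :=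
          (MvPolynomial.aeval_X _ _).trans rfl
        show Θ (G (MvPolynomial.X 0)) = ψ (g (MvPolynomial.X 0))
        rw [e1, e2, map_add, map_mul, map_add, map_mul]
        show eval₂ _ _ (C (C c')) + eval₂ _ _ (C X) * eval₂ _ _ X = _
        rw [eval₂_C, eval₂_C, eval₂_X]
        show aeval t (C c') + aeval t X * h1' = _
        rw [aeval_C, aeval_X]
        congr 1
        exact (ψ.commutes c').symm
      · have e1 : G (MvPolynomial.X 1) = C (C e') + X := (MvPolynomial.aeval_X _ _).trans rfl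
        have e2 : g (MvPolynomial.X 1) = algebraMap ℂ K e + h := (MvPolynomial.aeval_X _ _).trans rfl
        show Θ (G (MvPolynomial.X 1)) = ψ (g (MvPolynomial.X 1))
        rw [e1, e2, map_add, map_add]
        show eval₂ _ _ (C (C e')) + eval₂ _ _ X = _
        rw [eval₂_C, eval₂_X]
        show aeval t (C e') + h1' = _
        rw [aeval_C]
        congr 1
        rw [he', IsScalarTower.algebraMap_apply ℂ F K e]
        exact (ψ.commutes _).symm
  have hΘC : ∀ p : F[X], Θ (C p) = aeval t p := fun p => eval₂_C _ _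
  have y1 : σ0 (MvPolynomial.X 0) = algebraMap F K c' + t * h1' := by
    rw [← hΘG]
    have e1 : G (MvPolynomial.X 0) = C (C c') + C X * X := (MvPolynomial.aeval_X _ _).trans rfl
    rw [e1, map_add, map_mul, hΘC, hΘC, aeval_C, aeval_X]
    congr 2
    exact eval₂_X _ _
  have x1 : σ0 (MvPolynomial.X 1) = algebraMap F K e' + h1' := by
    rw [← hΘG]
    have e1 : G (MvPolynomial.X 1) = C (C e') + X := (MvPolynomial.aeval_X _ _).trans rfl
    rw [e1, map_add, hΘC, aeval_C]
    congr 1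
    exact eval₂_X _ _
  have hfin : σ0 A * t ^ 2 + 2 * σ0 B * t - σ0 D = w ^ 2 := by
    rw [← hw, ← hΘP, hP]
    simp only [map_add, map_mul, hΘC, hΘG]
    rw [hA, hB, hD, hcc]
    simp only [map_add, map_sub, map_mul, map_pow, map_neg, map_ofNat, aeval_C, aeval_X, y1, x1]
    ring
  refine Iso.of_norm_form (U := σ0 A * t + σ0 B) (W := w) ?_
  rw [← hfin, map_add, map_pow, map_mul]
  ring

/-- the degenerate case -/
theorem flag_special (A B D d δ1 : MvPolynomial (Fin 2) ℂ)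
    (hAdeg : A.degreeOf 0 ≤ 4) (hA0 : A ≠ 0) (hδ0 : B ^ 2 + A * D ≠ 0) (hd : d ≠ 0)
    (hδ : B ^ 2 + A * D = d ^ 2 * δ1) (hδ1 : δ1.degreeOf 0 ≤ 2) :
    ∃ σ : FractionRing (MvPolynomial (Fin 2) ℂ) →ₐ[ℂ]
      FractionRing (FractionRing (MvPolynomial (Fin 1) ℂ))[X],
      Iso (σ (algebraMap _ _ A)) (σ (algebraMap _ _ (B ^ 2 + A * D))) := by
  classical
  set F := FractionRing (MvPolynomial (Fin 1) ℂ) with hF
  have _ : CharZero F := charZero_of_injective_algebraMap (algebraMap ℂ F).injective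
  let Φ : MvPolynomial (Fin 2) ℂ → F[X] := fun f =>
    (MvPolynomial.finSuccEquiv ℂ 1 f).map (algebraMap (MvPolynomial (Fin 1) ℂ) F)
  have hΦdeg : ∀ f : MvPolynomial (Fin 2) ℂ, f.degreeOf 0 ≤ 4 → (Φ f).natDegree ≤ 4 := by
    intro f hf
    refine (Polynomial.natDegree_map_le).trans ?_
    rw [MvPolynomial.natDegree_finSuccEquiv]
    exact hf
  have hΦinj : ∀ f : MvPolynomial (Fin 2) ℂ, f ≠ 0 → Φ f ≠ 0 := by
    intro f hf h0
    apply hf
    have h1 : MvPolynomial.finSuccEquiv ℂ 1 f = 0 :=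
      (Polynomial.map_injective (algebraMap (MvPolynomial (Fin 1) ℂ) F)
        (IsFractionRing.injective _ F)) (by rw [Polynomial.map_zero]; exact h0)
    exact (MvPolynomial.finSuccEquiv ℂ 1).injective (by rw [h1, map_zero])
  have hδ10 : δ1 ≠ 0 := by
    rintro rfl
    apply hδ0; rw [hδ, mul_zero]
  have hdn : (- Φ δ1).natDegree ≤ 4 := by
    rw [natDegree_neg]
    exact hΦdeg δ1 (by omega)
  obtain ⟨y1, hy1, hiso⟩ := split_quartic tsen_one (Φ A) 0 (- Φ δ1) (hΦdeg A hAdeg)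
    (by rw [natDegree_zero]; omega) hdn (hΦinj A hA0)
    (by
      intro h0
      have h1 : Φ A * Φ δ1 = 0 := by linear_combination -h0
      rcases mul_eq_zero.mp h1 with h2 | h2
      · exact hΦinj A hA0 h2
      · exact hΦinj δ1 hδ10 h2)
  obtain ⟨σ, hσ⟩ := subst_embed 1 y1 hy1
  refine ⟨σ, ?_⟩
  have hσinj : Function.Injective σ := σ.injective
  have hinj2 := IsFractionRing.injective (MvPolynomial (Fin 2) ℂ) (FractionRing (MvPolynomial (Fin 2) ℂ))
  have hne : ∀ f : MvPolynomial (Fin 2) ℂ, f ≠ 0 →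
      σ (algebraMap (MvPolynomial (Fin 2) ℂ) (FractionRing (MvPolynomial (Fin 2) ℂ)) f) ≠ 0 := by
    intro f hf h0
    exact hf (hinj2 (hσinj (h0.trans (map_zero σ).symm) |>.trans (map_zero _).symm))
  rw [hδ, map_mul, map_pow, map_mul, map_pow]
  apply flag_transfer _ _ _ (hne A hA0) (hne d hd)
  have e1 : aeval y1 ((0 : F[X]) ^ 2 + Φ A * (- Φ δ1)) =
      0 ^ 2 + aeval y1 (Φ A) * (- aeval y1 (Φ δ1)) := by
    simp only [map_add, map_mul, map_neg, map_pow, map_zero]
  rw [e1] at hiso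
  have eA : σ (algebraMap _ _ A) = aeval y1 (Φ A) := hσ A
  have eδ : σ (algebraMap _ _ δ1) = aeval y1 (Φ δ1) := hσ δ1
  rw [eA, eδ]
  exact hiso

/-- double covers of the flag variety branched in bidegree `(4, 2)` -/
theorem main_flag (g0 g1 g2 g3 g4 g5 A B D : MvPolynomial (Fin 2) ℂ)
    (h0 : g0.totalDegree ≤ 4) (h1 : g1.totalDegree ≤ 4) (h2 : g2.totalDegree ≤ 4)
    (h3 : g3.totalDegree ≤ 4) (h4 : g4.totalDegree ≤ 4) (h5 : g5.totalDegree ≤ 4)
    (hA : A = g0 * MvPolynomial.X 1 ^ 2 - 2 * g1 * MvPolynomial.X 1 + g3)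
    (hB : B = - g0 * MvPolynomial.X 1 * MvPolynomial.X 0 + g1 * MvPolynomial.X 0 -
      g2 * MvPolynomial.X 1 + g4)
    (hD : D = - (g0 * MvPolynomial.X 0 ^ 2 + 2 * g2 * MvPolynomial.X 0 + g5))
    (hA0 : A ≠ 0) (hδ0 : B ^ 2 + A * D ≠ 0)
    (a b : FractionRing (MvPolynomial (Fin 2) ℂ))
    (ha : a = algebraMap _ _ A) (hb : b = algebraMap _ _ (B ^ 2 + A * D)) :
    Nonempty
        (FractionRing
            (MvPolynomial (Fin 2) (FractionRing (MvPolynomial (Fin 2) ℂ)) ⧸
              Ideal.span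
                {(MvPolynomial.C a * MvPolynomial.X 0 ^ 2 +
                    MvPolynomial.C b * MvPolynomial.X 1 ^ 2 - 1 :
                  MvPolynomial (Fin 2) (FractionRing (MvPolynomial (Fin 2) ℂ)))})
          →ₐ[ℂ] FractionRing (MvPolynomial (Fin 3) ℂ)) := by
  classical
  have hinj2 := IsFractionRing.injective (MvPolynomial (Fin 2) ℂ) (FractionRing (MvPolynomial (Fin 2) ℂ))
  have ha0 : a ≠ 0 := by
    intro h; exact hA0 (hinj2 (by rw [← ha, h, map_zero]))
  have hb0 : b ≠ 0 := by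
    intro h; exact hδ0 (hinj2 (by rw [← hb, h, map_zero]))
  suffices hs : ∃ σ : FractionRing (MvPolynomial (Fin 2) ℂ) →ₐ[ℂ]
      FractionRing (FractionRing (MvPolynomial (Fin 1) ℂ))[X],
      Iso (σ (algebraMap _ _ A)) (σ (algebraMap _ _ (B ^ 2 + A * D))) by
    obtain ⟨σ, hσ⟩ := hs
    rw [← ha, ← hb] at hσ
    exact flag_finish a b ha0 hb0 σ hσ
  set E1 : MvPolynomial (Fin 2) ℂ := A ^ 2 * (2 * MvPolynomial.pderiv 1 B - MvPolynomial.pderiv 0 D) -
          (2 * B * ((MvPolynomial.pderiv 1 A + 2 * MvPolynomial.pderiv 0 B) * A -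
        2 * B * MvPolynomial.pderiv 0 A) - D * A * MvPolynomial.pderiv 0 A) with hE1
  set E0 : MvPolynomial (Fin 2) ℂ := A ^ 2 * (- MvPolynomial.pderiv 1 D) +
    D * ((MvPolynomial.pderiv 1 A + 2 * MvPolynomial.pderiv 0 B) * A -
        2 * B * MvPolynomial.pderiv 0 A) with hE0
  by_cases hE : E1 = 0 ∧ E0 = 0
  · obtain ⟨d, δ1, hd, hδ, hδ1⟩ := flag_degenerate A B D hA0 hδ0
      (by linear_combination hE.1) (by linear_combination hE.2)
    refine flag_special A B D d δ1 ?_ hA0 hδ0 hd hδ hδ1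
    have hdeg : ∀ f : MvPolynomial (Fin 2) ℂ, f.totalDegree ≤ 4 → f.degreeOf 0 ≤ 4 :=
      fun f hf => (MvPolynomial.degreeOf_le_totalDegree f 0).trans hf
    have hX : (MvPolynomial.X 1 : MvPolynomial (Fin 2) ℂ).degreeOf 0 = 0 := by
      rw [MvPolynomial.degreeOf_X]; simp
    have h2d : (2 : MvPolynomial (Fin 2) ℂ).degreeOf 0 = 0 := by
      have : (2 : MvPolynomial (Fin 2) ℂ) = MvPolynomial.C 2 := by rw [map_ofNat]
      rw [this, MvPolynomial.degreeOf_C]
    have hsub : A = g0 * MvPolynomial.X 1 ^ 2 + MvPolynomial.C (-1) * (2 * g1 * MvPolynomial.X 1) + g3 := by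
      rw [hA, MvPolynomial.C_neg, MvPolynomial.C_1]; ring
    rw [hsub]
    refine (MvPolynomial.degreeOf_add_le _ _ _).trans (max_le ?_ (hdeg _ h3))
    refine (MvPolynomial.degreeOf_add_le _ _ _).trans (max_le ?_ ?_)
    · refine (MvPolynomial.degreeOf_mul_le _ _ _).trans ?_
      have e1 := MvPolynomial.degreeOf_pow_le 0 (MvPolynomial.X 1 : MvPolynomial (Fin 2) ℂ) 2
      have e2 := hdeg _ h0
      omega
    · refine (MvPolynomial.degreeOf_mul_le _ _ _).trans ?_
      rw [MvPolynomial.degreeOf_C, zero_add]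
      refine (MvPolynomial.degreeOf_mul_le _ _ _).trans ?_
      have e1 := MvPolynomial.degreeOf_mul_le 0 (2 : MvPolynomial (Fin 2) ℂ) g1
      have e2 := hdeg _ h1
      omega
  · have hor : E1 ≠ 0 ∨ E0 ≠ 0 := by
      by_contra hcon
      push Not at hcon
      exact hE hcon
    rcases hor with hne | hne
    · obtain ⟨e, he⟩ := flag_exists_line (A * (B ^ 2 + A * D) * E1)
        (mul_ne_zero (mul_ne_zero hA0 hδ0) hne)
      rw [map_mul, map_mul] at he
      exact flag_generic g0 g1 g2 g3 g4 g5 A B D h0 h1 h2 h3 h4 h5 hA hB hD e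
        (left_ne_zero_of_mul (left_ne_zero_of_mul he)) (right_ne_zero_of_mul (left_ne_zero_of_mul he))
        (Or.inl (right_ne_zero_of_mul he))
    · obtain ⟨e, he⟩ := flag_exists_line (A * (B ^ 2 + A * D) * E0)
        (mul_ne_zero (mul_ne_zero hA0 hδ0) hne)
      rw [map_mul, map_mul] at he
      exact flag_generic g0 g1 g2 g3 g4 g5 A B D h0 h1 h2 h3 h4 h5 hA hB hD e
        (left_ne_zero_of_mul (left_ne_zero_of_mul he)) (right_ne_zero_of_mul (left_ne_zero_of_mul he))
        (Or.inr (right_ne_zero_of_mul he))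

end FlagMain

end Pool.Agent.Lib.MP_2095a9_ag
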