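import Pool.Agent.Lib.MP_2095a9_ag.Main

set_option autoImplicit false

namespace Pool.Agent.Lib.MP_2095a9_ag

open Polynomial

/-- rational parametrisation of `U² - a W² = δ` -/
theorem norm_param {F : Type*} [Field F] (h2 : (2 : F) ≠ 0) (a0 δ0 : F) (ha0 : a0 ≠ 0)
    (hδ0 : δ0 ≠ 0) (hiso : Iso a0 δ0) :
    ∃ U W : FractionRing F[X], U ^ 2 - algebraMap F _ a0 * W ^ 2 = algebraMap F _ δ0 ∧
      ¬ IsAlgebraic F U := by
  classical
  obtain ⟨U0, W0, hUW⟩ := hiso.norm_form h2 ha0 hδ0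
  set L := FractionRing F[X] with hL
  have hinj : Function.Injective (algebraMap F[X] L) := IsFractionRing.injective F[X] L
  set ι := algebraMap F L with hι
  have hιC : ∀ x : F, algebraMap F[X] L (C x) = ι x := fun x =>
    (IsScalarTower.algebraMap_apply F F[X] L x).symm
  let s : L := algebraMap F[X] L X
  set Dn : F[X] := 1 - C a0 * X ^ 2 with hDn
  set Nn : F[X] := C (2 * a0 * U0) * X ^ 2 + C (2 * a0 * W0) * X with hNn
  have hDndeg : Dn.natDegree = 2 := by
    rw [hDn]; compute_degree!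
  have hDn0 : Dn ≠ 0 := by
    intro h; rw [h] at hDndeg; simp at hDndeg
  have hDnL : algebraMap F[X] L Dn ≠ 0 := by
    intro h; exact hDn0 (hinj (by rw [h, map_zero]))
  have hDnL' : algebraMap F[X] L Dn = 1 - ι a0 * s ^ 2 := by
    rw [hDn, map_sub, map_one, map_mul, map_pow, hιC]
  have hNnL' : algebraMap F[X] L Nn = ι (2 * a0 * U0) * s ^ 2 + ι (2 * a0 * W0) * s := by
    rw [hNn, map_add, RingHom.map_mul (algebraMap F[X] L), RingHom.map_mul (algebraMap F[X] L),
      RingHom.map_pow (algebraMap F[X] L), hιC, hιC]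
  have hden : (1 - ι a0 * s ^ 2) ≠ 0 := by rw [← hDnL']; exact hDnL
  let U : L := ι U0 + (ι (2 * a0 * U0) * s ^ 2 + ι (2 * a0 * W0) * s) / (1 - ι a0 * s ^ 2)
  let W : L := (ι W0 * (1 + ι a0 * s ^ 2) + 2 * ι U0 * s) / (1 - ι a0 * s ^ 2)
  have hUW' : U ^ 2 - ι a0 * W ^ 2 = ι δ0 := by
    rw [← hUW]
    simp only [U, W, map_mul, map_sub, map_pow, map_ofNat]
    exact param_identity _ _ _ _ hden
  refine ⟨U, W, hUW', ?_⟩
  intro halg
  have h3 : IsAlgebraic F (algebraMap F[X] L Nn / algebraMap F[X] L Dn) := by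
    have : algebraMap F[X] L Nn / algebraMap F[X] L Dn = U - ι U0 := by
      rw [hDnL', hNnL']; simp only [U]; ring
    rw [this]
    exact halg.sub (isAlgebraic_algebraMap _)
  obtain ⟨p, hp⟩ := dvd_of_isAlgebraic Nn Dn hDn0 h3
  have hNndeg : Nn.natDegree ≤ 2 := by
    rw [hNn]; compute_degree
  have hpc : ∃ x : F, p = C x := by
    by_cases hp0 : p = 0
    · exact ⟨0, by rw [hp0, C_0]⟩
    · have : Nn.natDegree = Dn.natDegree + p.natDegree := by rw [hp, natDegree_mul hDn0 hp0]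
      exact ⟨p.coeff 0, eq_C_of_natDegree_eq_zero (by omega)⟩
  obtain ⟨x, rfl⟩ := hpc
  have e0 : Nn.coeff 0 = x * Dn.coeff 0 := by rw [hp, mul_comm, coeff_C_mul]
  have e1 : Nn.coeff 1 = x * Dn.coeff 1 := by rw [hp, mul_comm, coeff_C_mul]
  have e2 : Nn.coeff 2 = x * Dn.coeff 2 := by rw [hp, mul_comm, coeff_C_mul]
  have f0 : Nn.coeff 0 = 0 := by rw [hNn]; simp
  have f1 : Nn.coeff 1 = 2 * a0 * W0 := by
    rw [hNn, coeff_add, coeff_C_mul, coeff_C_mul, coeff_X_pow, coeff_X]; norm_num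
  have f2 : Nn.coeff 2 = 2 * a0 * U0 := by
    rw [hNn, coeff_add, coeff_C_mul, coeff_C_mul, coeff_X_pow, coeff_X]; norm_num
  have g0 : Dn.coeff 0 = 1 := by rw [hDn]; simp
  have g1 : Dn.coeff 1 = 0 := by rw [hDn]; simp [coeff_one]
  rw [f0, g0, mul_one] at e0
  rw [f1, g1, mul_zero] at e1
  rw [f2, ← e0, zero_mul] at e2
  have hne : (2 * a0 : F) ≠ 0 := mul_ne_zero h2 ha0
  have hU0 : U0 = 0 := (mul_eq_zero.mp e2).resolve_left hne
  have hW0 : W0 = 0 := (mul_eq_zero.mp e1).resolve_left hne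
  apply hδ0
  rw [← hUW, hU0, hW0]; ring

theorem Iso.scale {L : Type*} [Field L] {a b a' b' r s : L} (hr : r ≠ 0) (hs : s ≠ 0)
    (ha : a' = a * r ^ 2) (hb : b' = b * s ^ 2) (h : Iso a' b') : Iso a b := by
  obtain ⟨x, y, z, hne, h⟩ := h
  refine ⟨r * x, s * y, z, ?_, ?_⟩
  · rintro ⟨h1, h2, h3⟩
    exact hne ⟨(mul_eq_zero.mp h1).resolve_left hr, (mul_eq_zero.mp h2).resolve_left hs, h3⟩
  · rw [ha, hb] at h
    linear_combination h

/-- separated variables: `a = p(x) r(y)`, `b = q(x) t(y)` -/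
theorem main_separated (p q r t : ℂ[X]) (hp : p ≠ 0) (hq : q ≠ 0) (hr : r ≠ 0) (ht : t ≠ 0)
    (a b : FractionRing (MvPolynomial (Fin 2) ℂ))
    (ha : a = algebraMap _ _ (Polynomial.aeval (MvPolynomial.X 0 : MvPolynomial (Fin 2) ℂ) p *
      Polynomial.aeval (MvPolynomial.X 1 : MvPolynomial (Fin 2) ℂ) r))
    (hb : b = algebraMap _ _ (Polynomial.aeval (MvPolynomial.X 0 : MvPolynomial (Fin 2) ℂ) q *
      Polynomial.aeval (MvPolynomial.X 1 : MvPolynomial (Fin 2) ℂ) t)) :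
    Nonempty
        (FractionRing
            (MvPolynomial (Fin 2) (FractionRing (MvPolynomial (Fin 2) ℂ)) ⧸
              Ideal.span
                {(MvPolynomial.C a * MvPolynomial.X 0 ^ 2 +
                    MvPolynomial.C b * MvPolynomial.X 1 ^ 2 - 1 :
                  MvPolynomial (Fin 2) (FractionRing (MvPolynomial (Fin 2) ℂ)))})
          →ₐ[ℂ] FractionRing (MvPolynomial (Fin 3) ℂ)) := by
  classical
  set F := FractionRing (MvPolynomial (Fin 1) ℂ) with hF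
  have _ : CharZero F := charZero_of_injective_algebraMap (algebraMap ℂ F).injective
  set L := FractionRing F[X] with hL
  have h2F : (2 : F) ≠ 0 := two_ne_zero
  have h2L : (2 : L) ≠ 0 := by
    have := (map_ne_zero (algebraMap ℂ L)).mpr (two_ne_zero : (2 : ℂ) ≠ 0)
    rwa [map_ofNat] at this
  -- the variable y
  let y : F := algebraMap (MvPolynomial (Fin 1) ℂ) F (MvPolynomial.X 0)
  have hyinj : ∀ f : ℂ[X], Polynomial.aeval y f = 0 → f = 0 := by
    intro f hf
    have h1 : Polynomial.aeval y f = algebraMap (MvPolynomial (Fin 1) ℂ) F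
        (Polynomial.aeval (MvPolynomial.X 0 : MvPolynomial (Fin 1) ℂ) f) := by
      rw [Polynomial.aeval_algebraMap_apply]
    rw [h1] at hf
    have h2 : Polynomial.aeval (MvPolynomial.X 0 : MvPolynomial (Fin 1) ℂ) f = 0 :=
      IsFractionRing.injective (MvPolynomial (Fin 1) ℂ) F (by rw [hf, map_zero])
    have h3 : Transcendental ℂ (MvPolynomial.X 0 : MvPolynomial (Fin 1) ℂ) :=
      MvPolynomial.transcendental_X ℂ 0
    exact (transcendental_iff.mp h3) f h2
  set c : F := Polynomial.aeval y r with hc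
  set d : F := Polynomial.aeval y t with hd
  have hc0 : c ≠ 0 := fun h => hr (hyinj r h)
  have hd0 : d ≠ 0 := fun h => ht (hyinj t h)
  obtain ⟨U, W, hUW, hU⟩ := norm_param h2F (c * d) d (mul_ne_zero hc0 hd0) hd0
    (tsen_one _ _ (mul_ne_zero hc0 hd0) hd0)
  set ι := algebraMap F L with hι
  have hιc : ι c ≠ 0 := (map_ne_zero ι).mpr hc0
  have hιd : ι d ≠ 0 := (map_ne_zero ι).mpr hd0
  have hU0 : U ≠ 0 := by
    rintro rfl
    exact hU (isAlgebraic_zero)
  let x : L := U ^ 2 / ι d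
  have hxU : ι d * x = U ^ 2 := by
    show ι d * (U ^ 2 / ι d) = U ^ 2
    rw [mul_comm, div_mul_cancel₀ _ hιd]
  have hx : ¬ IsAlgebraic F x := by
    intro halg
    apply hU
    have h1 : IsAlgebraic F (U ^ 2) := by
      rw [← hxU]
      exact (isAlgebraic_algebraMap d).mul halg
    exact h1.of_pow (by norm_num)
  have hxT : Transc (F := F) x := transc_of_not_isAlgebraic hx
  have hx1 : x - 1 = ι c * W ^ 2 := by
    apply mul_left_cancel₀ hιd
    rw [map_mul] at hUW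
    linear_combination hxU + hUW
  have hx10 : x - 1 ≠ 0 := by
    intro h0
    apply hx
    have : x = algebraMap F L 1 := by rw [map_one]; linear_combination h0
    rw [this]; exact isAlgebraic_algebraMap 1
  have hW0 : W ≠ 0 := by
    rintro rfl
    apply hx10; rw [hx1]; ring
  -- Tsen over ℂ(x)
  have hxC : ∀ f : ℂ[X], Polynomial.aeval x f = 0 → f = 0 := by
    intro f hf
    have h1 : Polynomial.aeval x (f.map (algebraMap ℂ F)) = 0 := by
      rw [Polynomial.aeval_map_algebraMap]; exact hf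
    have h2 := hxT _ h1
    exact (Polynomial.map_eq_zero (algebraMap ℂ F)).mp h2
  have hX1 : (X - C 1 : ℂ[X]) ≠ 0 := X_sub_C_ne_zero 1
  obtain ⟨x1, y1, z1, hne, hxyz⟩ := conic_poly (k := ℂ) two_ne_zero (p * (X - C 1)) (q * X)
    (mul_ne_zero hp hX1) (mul_ne_zero hq X_ne_zero)
  have hiso1 : Iso (Polynomial.aeval x p * (x - 1)) (Polynomial.aeval x q * x) := by
    refine ⟨Polynomial.aeval x x1, Polynomial.aeval x y1, Polynomial.aeval x z1, ?_, ?_⟩
    · rintro ⟨h1, h2, h3⟩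
      exact hne ⟨hxC _ h1, hxC _ h2, hxC _ h3⟩
    · have h4 := congrArg (Polynomial.aeval x) hxyz
      simpa only [map_add, map_mul, map_pow, map_sub, Polynomial.aeval_X, Polynomial.aeval_C, map_one]
        using h4
  have hiso2 : Iso (Polynomial.aeval x p * ι c) (Polynomial.aeval x q * ι d) := by
    refine Iso.scale (r := W) (s := U / ι d) hW0 (div_ne_zero hU0 hιd) ?_ ?_ hiso1
    · rw [hx1]; ring
    · have h5 : ι d * (U / ι d) ^ 2 = x := by
        have h6 : ι d * (U / ι d) = U := by rw [mul_comm, div_mul_cancel₀ _ hιd]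
        apply mul_left_cancel₀ hιd
        rw [hxU]
        calc ι d * (ι d * (U / ι d) ^ 2) = (ι d * (U / ι d)) ^ 2 := by ring
          _ = U ^ 2 := by rw [h6]
      rw [mul_assoc, h5]
  obtain ⟨σ, hσ⟩ := subst_embed 1 x hxT
  let τ : MvPolynomial (Fin 2) ℂ →ₐ[ℂ] L :=
    σ.comp (IsScalarTower.toAlgHom ℂ (MvPolynomial (Fin 2) ℂ) (FractionRing (MvPolynomial (Fin 2) ℂ)))
  have hτ : ∀ f, τ f = σ (algebraMap _ _ f) := fun f => rfl
  have hτ0 : τ (MvPolynomial.X 0) = x := by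
    refine (hσ (MvPolynomial.X 0)).trans ?_
    rw [MvPolynomial.finSuccEquiv_X_zero, Polynomial.map_X, Polynomial.aeval_X]
  have hτ1 : τ (MvPolynomial.X 1) = ι y := by
    refine (hσ (MvPolynomial.X 1)).trans ?_
    have h4 : (MvPolynomial.finSuccEquiv ℂ 1) (MvPolynomial.X 1 : MvPolynomial (Fin 2) ℂ) =
        C (MvPolynomial.X 0 : MvPolynomial (Fin 1) ℂ) :=
      MvPolynomial.finSuccEquiv_X_succ (j := (0 : Fin 1))
    rw [h4, Polynomial.map_C, Polynomial.aeval_C]
  have hmapA : ∀ f g : ℂ[X], σ (algebraMap _ _ (Polynomial.aeval (MvPolynomial.X 0 : MvPolynomial (Fin 2) ℂ) f *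
      Polynomial.aeval (MvPolynomial.X 1 : MvPolynomial (Fin 2) ℂ) g)) =
      Polynomial.aeval x f * ι (Polynomial.aeval y g) := by
    intro f g
    rw [← hτ, map_mul, ← Polynomial.aeval_algHom_apply, ← Polynomial.aeval_algHom_apply, hτ0, hτ1]
    congr 1
    exact Polynomial.aeval_algebraMap_apply L y g
  have hσa : σ a = Polynomial.aeval x p * ι c := by rw [ha]; exact hmapA p r
  have hσb : σ b = Polynomial.aeval x q * ι d := by rw [hb]; exact hmapA q t
  rw [← hσa, ← hσb] at hiso2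
  have hσa0 : σ a ≠ 0 := by
    rw [hσa]; exact mul_ne_zero (fun h => hp (hxC p h)) hιc
  have hσb0 : σ b ≠ 0 := by
    rw [hσb]; exact mul_ne_zero (fun h => hq (hxC q h)) hιd
  have ha0 : a ≠ 0 := by
    rintro rfl; exact hσa0 (map_zero σ)
  have hb0 : b ≠ 0 := by
    rintro rfl; exact hσb0 (map_zero σ)
  obtain ⟨u, v, huv⟩ := hiso2.affine h2L hσa0 hσb0
  have h2K : (2 : FractionRing (MvPolynomial (Fin 2) ℂ)) ≠ 0 := by
    have := (map_ne_zero (algebraMap ℂ (FractionRing (MvPolynomial (Fin 2) ℂ)))).mpr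
      (two_ne_zero : (2 : ℂ) ≠ 0)
    rwa [map_ofNat] at this
  obtain ⟨Ψ⟩ := conic_embed h2K a b ha0 hb0 σ u v huv
  obtain ⟨s2⟩ := rational_step 1 (AlgHom.id ℂ F)
  obtain ⟨s3⟩ := rational_step 2 s2
  exact ⟨s3.comp Ψ⟩

end Pool.Agent.Lib.MP_2095a9_ag
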