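import Pool.Agent.Lib.MP_2095a9_ag.Main
import Pool.Agent.Lib.MP_2095a9_ag.Sep

set_option autoImplicit false

namespace Pool.Agent.Lib.MP_2095a9_ag

open Polynomial

section FlagPrime

variable {F : Type*} [Field F]

/-- a quadratic polynomial with nonzero discriminant that does not divide `q₁` has a prime
factor not dividing `q₁` -/
theorem flag_prime_factor (h2 : (2 : F) ≠ 0) (α β γ : F) (hα : α ≠ 0)
    (hδ : β ^ 2 + α * γ ≠ 0) (q1 : F[X])
    (hnd : ¬ (C α * X ^ 2 + C (2 * β) * X - C γ) ∣ q1) :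
    ∃ π : F[X], Prime π ∧ π ∣ (C α * X ^ 2 + C (2 * β) * X - C γ) ∧ ¬ π ∣ q1 := by
  classical
  set q0 : F[X] := C α * X ^ 2 + C (2 * β) * X - C γ with hq0
  have hq0deg : q0.natDegree = 2 := by
    rw [hq0]; compute_degree!
  have hq00 : q0 ≠ 0 := by
    intro h; rw [h] at hq0deg; simp at hq0deg
  have hsep : q0.Separable := by
    have e2 : (C 2 : F[X]) = 2 := map_ofNat C 2
    have hx2 : derivative (X ^ 2 : F[X]) = 2 * X := by
      rw [derivative_X_pow, Nat.cast_ofNat, e2, show 2 - 1 = 1 from rfl, pow_one]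
    have hd : derivative q0 = C (2 * α) * X + C (2 * β) := by
      rw [hq0, derivative_sub, derivative_add, derivative_C_mul, derivative_C_mul, hx2,
        derivative_X, derivative_C]
      simp only [C_mul, e2]
      ring
    have eδ : C (β ^ 2 + α * γ) * C (1 / (β ^ 2 + α * γ)) = (1 : F[X]) := by
      rw [← C_mul, mul_one_div_cancel hδ, C_1]
    have e3 : (2 : F[X]) * C (1 / 2) = 1 := by
      rw [← e2, ← C_mul, mul_one_div_cancel h2, C_1]
    refine ⟨- C α * C (1 / (β ^ 2 + α * γ)),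
      (C α * X + C β) * C (1 / 2) * C (1 / (β ^ 2 + α * γ)), ?_⟩
    rw [hd, hq0]
    simp only [C_mul, C_add, C_pow, e2] at eδ ⊢
    linear_combination eδ + ((C α * X + C β) ^ 2 * C (1 / (β ^ 2 + α * γ))) * e3
  have hsf := hsep.squarefree
  set g := gcd q0 q1 with hg
  obtain ⟨r, hr⟩ := gcd_dvd_left q0 q1
  have hru : ¬ IsUnit r := by
    intro hu
    apply hnd
    have : q0 ∣ g := by
      obtain ⟨v, hv⟩ := hu
      exact ⟨(↑v⁻¹ : F[X]), by rw [hr, ← hv, mul_assoc, Units.mul_inv, mul_one]⟩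
    exact this.trans (gcd_dvd_right q0 q1)
  have hr0 : r ≠ 0 := by
    rintro rfl
    apply hq00; rw [hr, mul_zero]
  obtain ⟨π, hπ, hπr⟩ := WfDvdMonoid.exists_irreducible_factor hru hr0
  refine ⟨π, hπ.prime, ?_, ?_⟩
  · rw [hr]; exact hπr.mul_left _
  · intro h1
    have h0 : π ∣ q0 := by rw [hr]; exact hπr.mul_left _
    have hgπ : π ∣ gcd q0 q1 := dvd_gcd h0 h1
    have : π * π ∣ q0 := by
      rw [hr]; exact mul_dvd_mul hgπ hπr
    exact hπ.not_isUnit (hsf π this)

end FlagPrime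

section FlagCore

variable {F : Type*} [Field F]

/-- tripling a point on `w² = q₀ + q₁ h + q₂ h² + q₃ h³ + q₄ h⁴` when `q₀` is a quadratic
polynomial in the parameter -/
theorem flag_core [CharZero F] (hT : ∀ a b : F, a ≠ 0 → b ≠ 0 → Iso a b)
    (α β γ : F) (hα : α ≠ 0) (hδ : β ^ 2 + α * γ ≠ 0) (q0 q1 q2 q3 q4 : F[X])
    (hq0 : q0 = C α * X ^ 2 + C (2 * β) * X - C γ) (hnd : ¬ q0 ∣ q1) :
    ∃ (N D π : F[X]) (ψ : FractionRing F[X] →ₐ[F] FractionRing F[X]) (w : FractionRing F[X]),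
      Prime π ∧ π ∣ N ∧ ¬ π ∣ D ∧ N ≠ 0 ∧ D ≠ 0 ∧
      aeval (ψ (algebraMap F[X] _ X)) q0 +
        aeval (ψ (algebraMap F[X] _ X)) q1 *
          ψ (algebraMap F[X] (FractionRing F[X]) N / algebraMap F[X] (FractionRing F[X]) D) +
        aeval (ψ (algebraMap F[X] _ X)) q2 *
          ψ (algebraMap F[X] (FractionRing F[X]) N / algebraMap F[X] (FractionRing F[X]) D) ^ 2 +
        aeval (ψ (algebraMap F[X] _ X)) q3 *
          ψ (algebraMap F[X] (FractionRing F[X]) N / algebraMap F[X] (FractionRing F[X]) D) ^ 3 +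
        aeval (ψ (algebraMap F[X] _ X)) q4 *
          ψ (algebraMap F[X] (FractionRing F[X]) N / algebraMap F[X] (FractionRing F[X]) D) ^ 4
        = w ^ 2 := by
  classical
  set L := FractionRing F[X] with hL
  have h2 : (2 : F) ≠ 0 := two_ne_zero
  have h2L : (2 : L) ≠ 0 := by
    have := (map_ne_zero (algebraMap F L)).mpr h2
    rwa [map_ofNat] at this
  have hinj : Function.Injective (algebraMap F[X] L) := IsFractionRing.injective F[X] L
  obtain ⟨π, hπ, hπ0, hπ1⟩ := flag_prime_factor h2 α β γ hα hδ q1 (by rw [← hq0]; exact hnd)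
  rw [← hq0] at hπ0
  have hq00 : q0 ≠ 0 := by
    intro h0
    have : q0.coeff 2 = α := by rw [hq0]; simp
    rw [h0, coeff_zero] at this
    exact hα this.symm
  set D : F[X] := 64 * q0 ^ 3 * q4 - (4 * q0 * q2 - q1 ^ 2) ^ 2 with hD
  set N : F[X] := 8 * q0 * (4 * q0 * q1 * q2 - q1 ^ 3 - 8 * q0 ^ 2 * q3) with hN
  have hπD : ¬ π ∣ D := by
    intro h
    apply hπ1
    obtain ⟨z, hz⟩ := hπ0
    obtain ⟨d, hd⟩ := h
    have h1 : π ∣ q1 ^ 4 := by
      refine ⟨64 * z * q0 ^ 2 * q4 - 16 * z * q0 * q2 ^ 2 + 8 * z * q2 * q1 ^ 2 - d, ?_⟩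
      have h5 : q1 ^ 4 = 64 * q0 ^ 3 * q4 - 16 * q0 ^ 2 * q2 ^ 2 + 8 * q0 * q2 * q1 ^ 2 - D := by
        rw [hD]; ring
      rw [h5, hd]
      linear_combination (64 * q0 ^ 2 * q4 - 16 * q0 * q2 ^ 2 + 8 * q2 * q1 ^ 2) * hz
    exact hπ.dvd_of_dvd_pow h1
  have hD0 : D ≠ 0 := by
    intro h0; apply hπD; rw [h0]; exact dvd_zero _
  have hπN : π ∣ N := by
    rw [hN]; exact (hπ0.mul_left 8).mul_right _
  have hN0 : N ≠ 0 := by
    intro h0
    rcases mul_eq_zero.mp h0 with h3 | h3
    · rcases mul_eq_zero.mp h3 with h4 | h4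
      · exact absurd h4 (by norm_num)
      · exact hq00 h4
    · apply hπ1
      obtain ⟨z, hz⟩ := hπ0
      have h1 : π ∣ q1 ^ 3 := by
        refine ⟨4 * z * q1 * q2 - 8 * z * q0 * q3, ?_⟩
        linear_combination (4 * q1 * q2 - 8 * q0 * q3) * hz - h3
      exact hπ.dvd_of_dvd_pow h1
  -- the conic over the base point
  obtain ⟨U, W, hUW, hUtr⟩ := norm_param h2 α (β ^ 2 + α * γ) hα hδ (hT α (β ^ 2 + α * γ) hα hδ)
  set ι := algebraMap F L with hι
  have hιa : ι α ≠ 0 := (map_ne_zero ι).mpr hα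
  let t : L := (U - ι β) / ι α
  have htU : ι α * t + ι β = U := by
    have h9 : ι α * ((U - ι β) / ι α) = U - ι β := by
      rw [mul_comm, div_mul_cancel₀ _ hιa]
    show ι α * ((U - ι β) / ι α) + ι β = U
    rw [h9]; ring
  have httr : ¬ IsAlgebraic F t := by
    intro halg
    apply hUtr
    rw [← htU]
    exact ((isAlgebraic_algebraMap α).mul halg).add (isAlgebraic_algebraMap β)
  have hTt : Transc (F := F) t := transc_of_not_isAlgebraic httr
  have hinjt : Function.Injective (aeval t : F[X] →ₐ[F] L) := by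
    rw [injective_iff_map_eq_zero]
    intro p hp
    exact hTt p hp
  let ψ : FractionRing F[X] →ₐ[F] L := IsFractionRing.liftAlgHom (K := FractionRing F[X]) hinjt
  have hψ : ∀ p : F[X], ψ (algebraMap F[X] (FractionRing F[X]) p) = aeval t p := fun p =>
    IsFractionRing.lift_algebraMap hinjt p
  have hψX : ψ (algebraMap F[X] (FractionRing F[X]) X) = t := by rw [hψ, aeval_X]
  let h : L := ψ (algebraMap F[X] L N / algebraMap F[X] L D)
  have hhD : h * aeval t D = aeval t N := by
    have hDL : algebraMap F[X] L D ≠ 0 := by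
      intro h0; exact hD0 (hinj (by rw [h0, map_zero]))
    rw [← hψ D, ← hψ N, ← map_mul, div_mul_cancel₀ _ hDL]
  have hqt : aeval t q0 = ι α * t ^ 2 + 2 * ι β * t - ι γ := by
    rw [hq0]
    simp only [map_sub, map_add, map_mul, map_pow, aeval_X, aeval_C, map_ofNat]
    rfl
  have hw : W ^ 2 = aeval t q0 := by
    apply mul_left_cancel₀ hιa
    rw [hqt]
    have h5 : U ^ 2 - ι α * W ^ 2 = ι β ^ 2 + ι α * ι γ := by
      rw [hUW, map_add, map_pow, map_mul]
    rw [← htU] at h5
    linear_combination -h5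
  have hq0t : aeval t q0 ≠ 0 := fun h0 => hq00 (hTt _ h0)
  have hhe : h * (64 * aeval t q0 ^ 3 * aeval t q4 - (4 * aeval t q0 * aeval t q2 - aeval t q1 ^ 2) ^ 2) =
      8 * aeval t q0 * (4 * aeval t q0 * aeval t q1 * aeval t q2 - aeval t q1 ^ 3 - 8 * aeval t q0 ^ 2 * aeval t q3) := by
    have e1 : aeval t D = 64 * aeval t q0 ^ 3 * aeval t q4 - (4 * aeval t q0 * aeval t q2 - aeval t q1 ^ 2) ^ 2 := by
      rw [hD]; simp only [map_sub, map_mul, map_pow, map_ofNat]
    have e2 : aeval t N = 8 * aeval t q0 * (4 * aeval t q0 * aeval t q1 * aeval t q2 - aeval t q1 ^ 3 - 8 * aeval t q0 ^ 2 * aeval t q3) := by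
      rw [hN]; simp only [map_sub, map_mul, map_pow, map_ofNat]
    rw [← e1, ← e2, hhD]
  have htrip := triple_identity _ _ _ _ _ W h hw hq0t h2L hhe
  generalize (W * _) = w1 at htrip
  refine ⟨N, D, π, ψ, w1, hπ, hπN, hπD, hN0, hD0, ?_⟩
  rw [hψX]
  exact htrip

end FlagCore

section FlagIndep

/-- `X 1 - e` divides a polynomial vanishing on the line `X 1 = e` -/
theorem flag_dvd_of_eval (e : ℂ) (Φ : MvPolynomial (Fin 2) ℂ)
    (h : MvPolynomial.aeval ![(MvPolynomial.X 0 : MvPolynomial (Fin 1) ℂ), MvPolynomial.C e] Φ = 0) :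
    (MvPolynomial.X 1 - MvPolynomial.C e : MvPolynomial (Fin 2) ℂ) ∣ Φ := by
  classical
  set I := Ideal.span {(MvPolynomial.X 1 - MvPolynomial.C e : MvPolynomial (Fin 2) ℂ)} with hI
  let j : MvPolynomial (Fin 1) ℂ →ₐ[ℂ] MvPolynomial (Fin 2) ℂ := MvPolynomial.aeval ![MvPolynomial.X 0]
  let m : MvPolynomial (Fin 2) ℂ →ₐ[ℂ] (MvPolynomial (Fin 2) ℂ ⧸ I) := Ideal.Quotient.mkₐ ℂ I
  have h1 : (m.comp j).comp (MvPolynomial.aeval
      ![(MvPolynomial.X 0 : MvPolynomial (Fin 1) ℂ), MvPolynomial.C e]) = m := by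
    apply MvPolynomial.algHom_ext
    intro i
    fin_cases i
    · simp [j]
    · have h2 : m (MvPolynomial.X 1) = m (MvPolynomial.C e) := by
        apply Ideal.Quotient.eq.mpr
        exact Ideal.mem_span_singleton_self _
      simp only [AlgHom.comp_apply, MvPolynomial.aeval_X]
      refine Eq.trans ?_ h2.symm
      show m (j (MvPolynomial.C e)) = m (MvPolynomial.C e)
      congr 1
      exact MvPolynomial.aeval_C _ _
  have h3 : m Φ = 0 := by
    rw [← h1, AlgHom.comp_apply, h, map_zero]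
  exact Ideal.mem_span_singleton.mp (Ideal.Quotient.eq_zero_iff_mem.mp h3)

/-- the two coordinates are algebraically independent -/
theorem flag_indep (e : ℂ)
    (N D π : (FractionRing (MvPolynomial (Fin 1) ℂ))[X]) (hπ : Prime π) (hπN : π ∣ N)
    (hπD : ¬ π ∣ D) (hN : N ≠ 0) (hD : D ≠ 0)
    (Φ : MvPolynomial (Fin 2) ℂ)
    (hΦ : MvPolynomial.aeval
      ![algebraMap _ (FractionRing (FractionRing (MvPolynomial (Fin 1) ℂ))[X])
          (algebraMap (MvPolynomial (Fin 1) ℂ) (FractionRing (MvPolynomial (Fin 1) ℂ))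
            (MvPolynomial.X 0)) +
          algebraMap (FractionRing (MvPolynomial (Fin 1) ℂ))[X] _ X *
          (algebraMap (FractionRing (MvPolynomial (Fin 1) ℂ))[X] _ N /
            algebraMap (FractionRing (MvPolynomial (Fin 1) ℂ))[X] _ D),
        algebraMap ℂ (FractionRing (FractionRing (MvPolynomial (Fin 1) ℂ))[X]) e +
          (algebraMap (FractionRing (MvPolynomial (Fin 1) ℂ))[X] _ N /
            algebraMap (FractionRing (MvPolynomial (Fin 1) ℂ))[X] _ D)] Φ = 0) :
    Φ = 0 := by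
  classical
  set F := FractionRing (MvPolynomial (Fin 1) ℂ) with hF
  set K := FractionRing F[X] with hK
  set c' : F := algebraMap (MvPolynomial (Fin 1) ℂ) F (MvPolynomial.X 0) with hc'
  set h : K := algebraMap F[X] K N / algebraMap F[X] K D with hh
  set g : MvPolynomial (Fin 2) ℂ →ₐ[ℂ] K := MvPolynomial.aeval
    ![algebraMap F K c' + algebraMap F[X] K X * h, algebraMap ℂ K e + h] with hg
  have hinj : Function.Injective (algebraMap F[X] K) := IsFractionRing.injective F[X] K
  have hDK : algebraMap F[X] K D ≠ 0 := fun h0 => hD (hinj (by rw [h0, map_zero]))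
  have hNK : algebraMap F[X] K N ≠ 0 := fun h0 => hN (hinj (by rw [h0, map_zero]))
  have hh0 : h ≠ 0 := div_ne_zero hNK hDK
  -- key: vanishing of `g Ψ` forces divisibility by `X 1 - e`
  have key : ∀ Ψ : MvPolynomial (Fin 2) ℂ, g Ψ = 0 →
      (MvPolynomial.X 1 - MvPolynomial.C e : MvPolynomial (Fin 2) ℂ) ∣ Ψ := by
    intro Ψ hΨ
    let G : MvPolynomial (Fin 2) ℂ →ₐ[ℂ] (F[X])[X] := MvPolynomial.aeval
      ![C (C c') + C X * X, algebraMap ℂ _ e + X]
    have hG : ∀ f, aeval h (G f) = g f := by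
      intro f
      have h1 : ((aeval h : (F[X])[X] →ₐ[F[X]] K).restrictScalars ℂ).comp G = g := by
        apply MvPolynomial.algHom_ext
        intro i
        fin_cases i
        · simp only [AlgHom.comp_apply, G, hg, MvPolynomial.aeval_X, AlgHom.restrictScalars_apply]
          show aeval h (C (C c') + C X * X) = algebraMap F K c' + algebraMap F[X] K X * h
          rw [map_add, map_mul, aeval_C, aeval_C, aeval_X]
          rfl
        · simp only [AlgHom.comp_apply, G, hg, MvPolynomial.aeval_X, AlgHom.restrictScalars_apply]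
          show aeval h (algebraMap ℂ _ e + X) = algebraMap ℂ K e + h
          rw [map_add, aeval_X]
          congr 1
          exact (((aeval h : (F[X])[X] →ₐ[F[X]] K).restrictScalars ℂ).commutes e)
      rw [← h1]; rfl
    have hroot : aeval h (G Ψ) = 0 := by rw [hG]; exact hΨ
    have h2 := num_dvd_of_is_root hroot
    have h3 : π ∣ IsFractionRing.num F[X] h := by
      have h4 : IsFractionRing.num F[X] h * D = N * (IsFractionRing.den F[X] h : F[X]) := by
        apply hinj
        rw [map_mul, map_mul]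
        have h5 : algebraMap F[X] K (IsFractionRing.num F[X] h) =
            h * algebraMap F[X] K (IsFractionRing.den F[X] h : F[X]) := by
          have h6 := IsFractionRing.mk'_num_den' F[X] h
          have h7 : algebraMap F[X] K (IsFractionRing.den F[X] h : F[X]) ≠ 0 :=
            IsFractionRing.to_map_ne_zero_of_mem_nonZeroDivisors (IsFractionRing.den F[X] h).2
          exact (div_eq_iff h7).mp h6
        have h8 : h * algebraMap F[X] K D = algebraMap F[X] K N := div_mul_cancel₀ _ hDK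
        rw [h5]
        linear_combination (algebraMap F[X] K (IsFractionRing.den F[X] h : F[X])) * h8
      have h5 : π ∣ IsFractionRing.num F[X] h * D := by
        rw [h4]; exact hπN.mul_right _
      exact (hπ.dvd_or_dvd h5).resolve_right hπD
    have h4 : π ∣ (G Ψ).coeff 0 := h3.trans h2
    have h5 : (G Ψ).coeff 0 = C (algebraMap (MvPolynomial (Fin 1) ℂ) F
        (MvPolynomial.aeval ![(MvPolynomial.X 0 : MvPolynomial (Fin 1) ℂ), MvPolynomial.C e] Ψ)) := by
      have h6 : ((aeval (0 : F[X]) : (F[X])[X] →ₐ[F[X]] F[X]).restrictScalars ℂ).comp G =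
          ((IsScalarTower.toAlgHom ℂ F F[X]).comp (IsScalarTower.toAlgHom ℂ (MvPolynomial (Fin 1) ℂ) F)).comp
            (MvPolynomial.aeval ![(MvPolynomial.X 0 : MvPolynomial (Fin 1) ℂ), MvPolynomial.C e]) := by
        apply MvPolynomial.algHom_ext
        intro i
        fin_cases i
        · simp only [AlgHom.comp_apply, G, MvPolynomial.aeval_X, AlgHom.restrictScalars_apply]
          show aeval (0 : F[X]) (C (C c') + C X * X) = C (algebraMap _ F (MvPolynomial.X 0))
          rw [map_add, map_mul, aeval_C, aeval_C, aeval_X, mul_zero, add_zero]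
          rfl
        · simp only [AlgHom.comp_apply, G, MvPolynomial.aeval_X, AlgHom.restrictScalars_apply]
          show aeval (0 : F[X]) (algebraMap ℂ _ e + X) = C (algebraMap _ F (MvPolynomial.C e))
          rw [map_add, aeval_X, add_zero]
          refine (((aeval (0 : F[X]) : (F[X])[X] →ₐ[F[X]] F[X]).restrictScalars ℂ).commutes e).trans ?_
          rfl
      have h7 := congrArg (fun f => f Ψ) h6
      simp only [AlgHom.comp_apply, AlgHom.restrictScalars_apply] at h7
      rw [coeff_zero_eq_aeval_zero]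
      exact h7
    rw [h5] at h4
    have h6 : algebraMap (MvPolynomial (Fin 1) ℂ) F
        (MvPolynomial.aeval ![(MvPolynomial.X 0 : MvPolynomial (Fin 1) ℂ), MvPolynomial.C e] Ψ) = 0 := by
      by_contra hne
      exact hπ.not_isUnit (isUnit_of_dvd_unit h4 (isUnit_C.mpr (isUnit_iff_ne_zero.mpr hne)))
    apply flag_dvd_of_eval
    exact IsFractionRing.injective (MvPolynomial (Fin 1) ℂ) F (by rw [h6, map_zero])
  by_contra hΦ0
  have hnu : ¬ IsUnit (MvPolynomial.X 1 - MvPolynomial.C e : MvPolynomial (Fin 2) ℂ) := by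
    intro hu
    have h1 := hu.map (MvPolynomial.aeval ![(0 : ℂ), e] : MvPolynomial (Fin 2) ℂ →ₐ[ℂ] ℂ)
    have h2 : (MvPolynomial.aeval ![(0 : ℂ), e] : MvPolynomial (Fin 2) ℂ →ₐ[ℂ] ℂ)
        (MvPolynomial.X 1 - MvPolynomial.C e) = 0 := by
      rw [map_sub, MvPolynomial.aeval_X, MvPolynomial.aeval_C]
      simp
    rw [h2] at h1
    exact not_isUnit_zero h1
  obtain ⟨n, Ψ, hΨ, hΦΨ⟩ := WfDvdMonoid.max_power_factor' hΦ0 hnu
  apply hΨ
  apply key
  have h1 : g Φ = 0 := hΦ
  rw [hΦΨ, map_mul, map_pow] at h1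
  have h2 : g (MvPolynomial.X 1 - MvPolynomial.C e) = h := by
    rw [map_sub, hg, MvPolynomial.aeval_X, MvPolynomial.aeval_C]
    simp
  rw [h2] at h1
  exact (mul_eq_zero.mp h1).resolve_left (pow_ne_zero _ hh0)

end FlagIndep

end Pool.Agent.Lib.MP_2095a9_ag
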