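import Mathlib

set_option autoImplicit false

namespace Pool.Agent.Lib.MP_2095a9_ag

open Polynomial

section Step

/-- if `F` embeds into a rational function field in `n` variables then `F(X)` embeds into one in
`n + 1` variables -/
theorem rational_step {k : Type*} [Field k] {F : Type*} [Field F] [Algebra k F] (n : ℕ)
    (φ : F →ₐ[k] FractionRing (MvPolynomial (Fin n) k)) :
    Nonempty (FractionRing F[X] →ₐ[k] FractionRing (MvPolynomial (Fin (n + 1)) k)) := by
  classical
  set A := MvPolynomial (Fin n) k with hA
  set A' := MvPolynomial (Fin (n + 1)) k with hA'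
  set Mn := FractionRing A with hMn
  set M' := FractionRing A' with hM'
  let e : A' ≃ₐ[k] A[X] := MvPolynomial.finSuccEquiv k n
  let j : A →ₐ[k] A' := (e.symm : A[X] →ₐ[k] A').comp (IsScalarTower.toAlgHom k A A[X])
  have hjinj : Function.Injective j := by
    intro x y hxy
    have : (Polynomial.C x : A[X]) = Polynomial.C y := e.symm.injective hxy
    exact C_injective this
  have hA'inj : Function.Injective (algebraMap A' M') := IsFractionRing.injective A' M'
  let g : A →ₐ[k] M' := (IsScalarTower.toAlgHom k A' M').comp j
  have hginj : Function.Injective g := by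
    intro x y hxy
    exact hjinj (hA'inj hxy)
  let J : Mn →ₐ[k] M' := IsFractionRing.liftAlgHom (K := Mn) hginj
  have hJ : ∀ x : A, J (algebraMap A Mn x) = algebraMap A' M' (j x) := fun x =>
    IsFractionRing.lift_algebraMap hginj x
  let x0 : M' := algebraMap A' M' (e.symm X)
  have key : ∀ p : Mn[X], p.eval₂ (J : Mn →+* M') x0 = 0 → p = 0 := by
    intro p hp
    set P := IsLocalization.integerNormalization (nonZeroDivisors A) p with hP
    obtain ⟨b, hbm, hb⟩ := IsLocalization.integerNormalization_spec (nonZeroDivisors A) p
    have hb' : P.map (algebraMap A Mn) = b • p := hb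
    have hb0 : algebraMap A Mn b ≠ 0 := by
      intro h0
      have : (b : A) = 0 := IsFractionRing.injective A Mn (by rw [h0, map_zero])
      exact nonZeroDivisors.ne_zero hbm this
    have h1 : (P.map (algebraMap A Mn)).eval₂ (J : Mn →+* M') x0 = 0 := by
      rw [hb', Algebra.smul_def]
      have : (algebraMap A Mn[X]) (b : A) = C (algebraMap A Mn b) := rfl
      rw [this, eval₂_mul, hp, mul_zero]
    have h2 : algebraMap A' M' (e.symm P) = 0 := by
      rw [← h1, eval₂_map]
      have h3 : ((J : Mn →+* M').comp (algebraMap A Mn)) = (algebraMap A' M').comp (j : A →+* A') := by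
        refine RingHom.ext (fun x => ?_)
        exact hJ x
      rw [h3, ← hom_eval₂]
      congr 1
      have h4 : (e.symm : A[X] →ₐ[k] A') P = P.eval₂ (j : A →+* A') (e.symm X) := by
        conv_lhs => rw [← Polynomial.eval₂_C_X (p := P)]
        exact Polynomial.hom_eval₂ P C ((e.symm : A[X] →ₐ[k] A') : A[X] →+* A') X
      exact h4
    have h5 : e.symm P = 0 := hA'inj (by rw [h2, map_zero])
    have h6 : P = 0 := by
      have := e.symm.injective (h5.trans (map_zero e.symm).symm)
      exact this
    have h7 : (b : A) • p = 0 := by rw [← hb', h6, Polynomial.map_zero]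
    rw [Algebra.smul_def] at h7
    have h8 : (algebraMap A Mn[X]) (b : A) = C (algebraMap A Mn b) := rfl
    rw [h8] at h7
    exact (mul_eq_zero.mp h7).resolve_left (fun h => hb0 (C_eq_zero.mp h))
  let ψ : F[X] →ₐ[k] M' :=
    { Polynomial.eval₂RingHom ((J : Mn →+* M').comp (φ : F →+* Mn)) x0 with
      commutes' := fun r => by
        show Polynomial.eval₂ ((J : Mn →+* M').comp (φ : F →+* Mn)) x0 (algebraMap k F[X] r) = _
        have : algebraMap k F[X] r = C (algebraMap k F r) := rfl
        rw [this, eval₂_C]
        show J (φ (algebraMap k F r)) = _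
        rw [AlgHom.commutes, AlgHom.commutes] }
  have hψ : Function.Injective ψ := by
    rw [injective_iff_map_eq_zero]
    intro p hp
    have h1 : (p.map (φ : F →+* Mn)).eval₂ (J : Mn →+* M') x0 = 0 := by
      rw [eval₂_map]; exact hp
    have h2 := key _ h1
    exact (Polynomial.map_eq_zero (φ : F →+* Mn)).mp h2
  exact ⟨IsFractionRing.liftAlgHom (K := FractionRing F[X]) hψ⟩

end Step

end Pool.Agent.Lib.MP_2095a9_ag
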