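import Pool.Agent.Lib.MP_2095a9_ag.Core
import Pool.Agent.Lib.MP_2095a9_ag.Step

set_option autoImplicit false

namespace Pool.Agent.Lib.MP_2095a9_ag

open Polynomial

section Full

variable {F : Type*} [Field F]

/-- two polynomials with vanishing Wronskian are proportional (characteristic zero) -/
theorem proportional_of_wronskian [CharZero F] (A B : F[X]) (hA : A ≠ 0)
    (h : derivative A * B - A * derivative B = 0) : ∃ κ : F, B = C κ * A := by
  classical
  by_cases hB : B = 0
  · exact ⟨0, by rw [hB, C_0, zero_mul]⟩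
  -- pass to coprime parts
  set g := gcd A B with hg
  obtain ⟨A', hA'⟩ := gcd_dvd_left A B
  obtain ⟨B', hB'⟩ := gcd_dvd_right A B
  have hg0 : gcd A B ≠ 0 := by
    intro h0; apply hA; rw [hA', h0, zero_mul]
  have hcop : IsCoprime A' B' := by
    have h1 : EuclideanDomain.gcd A B ≠ 0 := by
      intro h0
      exact hA (EuclideanDomain.gcd_eq_zero_iff.mp h0).1
    rw [← isRelPrime_iff_isCoprime]
    intro d hdA hdB
    have h2 : gcd A B * d ∣ gcd A B := by
      apply dvd_gcd
      · calc gcd A B * d ∣ gcd A B * A' := mul_dvd_mul_left _ hdA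
          _ = A := hA'.symm
      · calc gcd A B * d ∣ gcd A B * B' := mul_dvd_mul_left _ hdB
          _ = B := hB'.symm
    obtain ⟨e, he⟩ := h2
    have h3 : d * e = 1 := by
      apply mul_left_cancel₀ hg0
      rw [mul_one, ← mul_assoc, ← he]
    exact IsUnit.of_mul_eq_one e h3
  have hw : wronskian A' B' = 0 := by
    have h4 : (gcd A B) ^ 2 * (A' * derivative B' - derivative A' * B') = 0 := by
      have e1 : derivative A = derivative (gcd A B) * A' + gcd A B * derivative A' := by
        conv_lhs => rw [hA']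
        rw [derivative_mul]
      have e2 : derivative B = derivative (gcd A B) * B' + gcd A B * derivative B' := by
        conv_lhs => rw [hB']
        rw [derivative_mul]
      rw [e1, e2] at h
      have h5 := h
      rw [show (derivative (gcd A B) * A' + gcd A B * derivative A') * B -
          A * (derivative (gcd A B) * B' + gcd A B * derivative B') =
          (derivative (gcd A B) * A' + gcd A B * derivative A') * (gcd A B * B') -
          (gcd A B * A') * (derivative (gcd A B) * B' + gcd A B * derivative B') by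
            rw [← hA', ← hB']] at h5
      linear_combination -h5
    exact (mul_eq_zero.mp h4).resolve_left (pow_ne_zero _ hg0)
  obtain ⟨h6, h7⟩ := hcop.wronskian_eq_zero_iff.mp hw
  have h8 := Polynomial.derivative_eq_zero.mp h6
  have h9 := Polynomial.derivative_eq_zero.mp h7
  have hA'c := eq_C_of_natDegree_eq_zero h8
  have hB'c := eq_C_of_natDegree_eq_zero h9
  have hA'0 : A'.coeff 0 ≠ 0 := by
    intro h0
    apply hA
    rw [hA', hA'c, h0, C_0, mul_zero]
  refine ⟨B'.coeff 0 / A'.coeff 0, ?_⟩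
  have h10 : C (B'.coeff 0 / A'.coeff 0) * A' = B' := by
    conv_lhs => rw [hA'c]
    conv_rhs => rw [hB'c]
    rw [coeff_C_zero, ← C_mul, div_mul_cancel₀ _ hA'0]
  calc B = gcd A B * B' := hB'
    _ = gcd A B * (C (B'.coeff 0 / A'.coeff 0) * A') := by rw [h10]
    _ = C (B'.coeff 0 / A'.coeff 0) * (gcd A B * A') := by ring
    _ = C (B'.coeff 0 / A'.coeff 0) * A := by rw [← hA']

theorem exists_eval_ne_zero [Infinite F] (G : F[X]) (hG : G ≠ 0) : ∃ y : F, G.eval y ≠ 0 := by
  by_contra hcon
  push Not at hcon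
  exact hG (Polynomial.funext (fun y => by rw [hcon y, eval_zero]))

/-- the main splitting theorem over a field all of whose ternary forms are isotropic -/
theorem split_quartic [CharZero F] (hT : ∀ a b : F, a ≠ 0 → b ≠ 0 → Iso a b)
    (A B C0 : F[X]) (hA : A.natDegree ≤ 4) (hB : B.natDegree ≤ 4) (hC : C0.natDegree ≤ 4)
    (hA0 : A ≠ 0) (hδ0 : B ^ 2 + A * C0 ≠ 0) :
    ∃ y1 : FractionRing F[X], Transc (F := F) y1 ∧
      Iso (aeval y1 A) (aeval y1 (B ^ 2 + A * C0)) := by
  have case1 : ∀ A B C0 : F[X], A.natDegree ≤ 4 → B.natDegree ≤ 4 → C0.natDegree ≤ 4 →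
      A ≠ 0 → B ^ 2 + A * C0 ≠ 0 →
      (derivative A * B - A * derivative B ≠ 0 ∨ derivative A * C0 - A * derivative C0 ≠ 0) →
      ∃ y1 : FractionRing F[X], Transc (F := F) y1 ∧
        Iso (aeval y1 A) (aeval y1 (B ^ 2 + A * C0)) := by
    intro A B C0 hA hB hC hA0 hδ0 hW
    rcases hW with h | h
    · obtain ⟨y0, hy0⟩ := exists_eval_ne_zero
        (A * (B ^ 2 + A * C0) * (derivative A * B - A * derivative B))
        (mul_ne_zero (mul_ne_zero hA0 hδ0) h)
      rw [eval_mul, eval_mul] at hy0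
      have h1 := left_ne_zero_of_mul hy0
      exact core_point hT A B C0 hA hB hC y0 (left_ne_zero_of_mul h1) (right_ne_zero_of_mul h1)
        (Or.inl (right_ne_zero_of_mul hy0))
    · obtain ⟨y0, hy0⟩ := exists_eval_ne_zero
        (A * (B ^ 2 + A * C0) * (derivative A * C0 - A * derivative C0))
        (mul_ne_zero (mul_ne_zero hA0 hδ0) h)
      rw [eval_mul, eval_mul] at hy0
      have h1 := left_ne_zero_of_mul hy0
      exact core_point hT A B C0 hA hB hC y0 (left_ne_zero_of_mul h1) (right_ne_zero_of_mul h1)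
        (Or.inr (right_ne_zero_of_mul hy0))
  by_cases hW : (derivative A * B - A * derivative B ≠ 0 ∨ derivative A * C0 - A * derivative C0 ≠ 0)
  · exact case1 A B C0 hA hB hC hA0 hδ0 hW
  push Not at hW
  obtain ⟨κ1, hκ1⟩ := proportional_of_wronskian A B hA0 hW.1
  obtain ⟨κ2, hκ2⟩ := proportional_of_wronskian A C0 hA0 hW.2
  set κ := κ1 ^ 2 + κ2 with hκ
  have hδ : B ^ 2 + A * C0 = C κ * A ^ 2 := by
    rw [hκ1, hκ2, hκ, C_add, C_pow]; ring
  have hκ0 : κ ≠ 0 := by
    intro h0
    apply hδ0; rw [hδ, h0, C_0, zero_mul]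
  rw [hδ]
  by_cases hdA : derivative A = 0
  · have hAc := eq_C_of_natDegree_eq_zero (Polynomial.derivative_eq_zero.mp hdA)
    have ha0 : A.coeff 0 ≠ 0 := by
      intro h0; apply hA0; rw [hAc, h0, C_0]
    refine ⟨algebraMap F[X] (FractionRing F[X]) X, ?_, ?_⟩
    · intro p hp
      have h1 : aeval (algebraMap F[X] (FractionRing F[X]) X) p =
          algebraMap F[X] (FractionRing F[X]) p := by
        rw [aeval_algebraMap_apply, aeval_X_left_apply]
      rw [h1] at hp
      exact IsFractionRing.injective F[X] (FractionRing F[X]) (by rw [hp, map_zero])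
    · have h1 := (hT (A.coeff 0) (κ * A.coeff 0 ^ 2) ha0 (mul_ne_zero hκ0 (pow_ne_zero _ ha0))).map
        (algebraMap F (FractionRing F[X]))
      have e1 : aeval (algebraMap F[X] (FractionRing F[X]) X) A =
          algebraMap F (FractionRing F[X]) (A.coeff 0) := by
        rw [hAc, aeval_C, coeff_C_zero]
      rw [map_mul, map_pow, e1, aeval_C]
      rw [map_mul, map_pow] at h1
      exact h1
  · have hC' : (C κ⁻¹ * A).natDegree ≤ 4 := (natDegree_C_mul_le _ _).trans hA
    have e0 : (0 : F[X]) ^ 2 + C κ * (C κ⁻¹ * A) = A := by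
      rw [← mul_assoc, ← C_mul, mul_inv_cancel₀ hκ0, C_1]; ring
    have hCκ : (C κ : F[X]) ≠ 0 := C_ne_zero.mpr hκ0
    obtain ⟨y1, hy1, hiso⟩ := case1 (C κ) 0 (C κ⁻¹ * A) (by rw [natDegree_C]; omega)
      (by rw [natDegree_zero]; omega) hC' hCκ (by rw [e0]; exact hA0)
      (Or.inr (by
        rw [derivative_C, zero_mul, zero_sub, derivative_C_mul, ← mul_assoc, ← C_mul,
          mul_inv_cancel₀ hκ0, C_1, one_mul]
        exact neg_ne_zero.mpr hdA))
    rw [e0, aeval_C] at hiso
    refine ⟨y1, hy1, ?_⟩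
    rw [map_mul, map_pow, aeval_C]
    refine Iso.of_const_mul_sq ?_ hiso
    intro h0
    exact hA0 (hy1 A h0)

end Full

section Tsen1

/-- ternary forms over `ℂ(x)` are isotropic (Tsen) -/
theorem tsen_one : ∀ (a b : FractionRing (MvPolynomial (Fin 1) ℂ)), a ≠ 0 → b ≠ 0 →
    Iso a b := by
  classical
  set R := MvPolynomial (Fin 1) ℂ with hR
  set F := FractionRing R with hF
  let e : R ≃+* ℂ[X] := (MvPolynomial.finSuccEquiv ℂ 0).toRingEquiv.trans
    (Polynomial.mapEquiv (MvPolynomial.isEmptyAlgEquiv ℂ (Fin 0)).toRingEquiv)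
  have hpoly : ∀ p q : R, p ≠ 0 → q ≠ 0 → Iso (algebraMap R F p) (algebraMap R F q) := by
    intro p q hp hq
    obtain ⟨x, y, z, hne, h⟩ := conic_poly (k := ℂ) two_ne_zero (e p) (e q)
      ((map_ne_zero_iff e e.injective).mpr hp) ((map_ne_zero_iff e e.injective).mpr hq)
    have h1 : p * e.symm x ^ 2 + q * e.symm y ^ 2 = e.symm z ^ 2 := by
      apply e.injective
      simp only [map_add, map_mul, map_pow, RingEquiv.apply_symm_apply]
      exact h
    refine ⟨algebraMap R F (e.symm x), algebraMap R F (e.symm y), algebraMap R F (e.symm z), ?_, ?_⟩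
    · rintro ⟨hx, hy, hz⟩
      have hinj := IsFractionRing.injective R F
      apply hne
      refine ⟨?_, ?_, ?_⟩
      · have := hinj (hx.trans (map_zero _).symm)
        exact e.symm.injective (this.trans (map_zero _).symm)
      · have := hinj (hy.trans (map_zero _).symm)
        exact e.symm.injective (this.trans (map_zero _).symm)
      · have := hinj (hz.trans (map_zero _).symm)
        exact e.symm.injective (this.trans (map_zero _).symm)
    · have h3 := congrArg (algebraMap R F) h1
      simpa only [map_add, map_mul, map_pow] using h3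
  intro a b ha hb
  obtain ⟨p, s, hs, hae⟩ := IsFractionRing.div_surjective (A := R) a
  obtain ⟨q, t, ht, hbe⟩ := IsFractionRing.div_surjective (A := R) b
  have hs0 : s ≠ 0 := nonZeroDivisors.ne_zero hs
  have ht0 : t ≠ 0 := nonZeroDivisors.ne_zero ht
  have hinj := IsFractionRing.injective R F
  have hs' : algebraMap R F s ≠ 0 := fun h => hs0 (hinj (h.trans (map_zero _).symm))
  have ht' : algebraMap R F t ≠ 0 := fun h => ht0 (hinj (h.trans (map_zero _).symm))
  have hp0 : p ≠ 0 := by
    rintro rfl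
    apply ha; rw [← hae, map_zero, zero_div]
  have hq0 : q ≠ 0 := by
    rintro rfl
    apply hb; rw [← hbe, map_zero, zero_div]
  obtain ⟨x, y, z, hne, h⟩ := hpoly (p * s) (q * t) (mul_ne_zero hp0 hs0) (mul_ne_zero hq0 ht0)
  refine ⟨algebraMap R F s * x, algebraMap R F t * y, z, ?_, ?_⟩
  · rintro ⟨hx, hy, hz⟩
    exact hne ⟨(mul_eq_zero.mp hx).resolve_left hs', (mul_eq_zero.mp hy).resolve_left ht', hz⟩
  · rw [map_mul, map_mul] at h
    have hae' : a * algebraMap R F s = algebraMap R F p := by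
      rw [← hae]; exact div_mul_cancel₀ _ hs'
    have hbe' : b * algebraMap R F t = algebraMap R F q := by
      rw [← hbe]; exact div_mul_cancel₀ _ ht'
    linear_combination h + (algebraMap R F s * x ^ 2) * hae' + (algebraMap R F t * y ^ 2) * hbe'

end Tsen1

section Subst

/-- substitution of a transcendental element for the variable `X 0` -/
theorem subst_embed {k : Type*} [Field k] (n : ℕ) {L : Type*} [Field L] [Algebra k L]
    [Algebra (FractionRing (MvPolynomial (Fin n) k)) L]
    [IsScalarTower k (FractionRing (MvPolynomial (Fin n) k)) L]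
    (y1 : L) (hy1 : Transc (F := FractionRing (MvPolynomial (Fin n) k)) y1) :
    ∃ σ : FractionRing (MvPolynomial (Fin (n + 1)) k) →ₐ[k] L,
      ∀ f : MvPolynomial (Fin (n + 1)) k,
        σ (algebraMap _ (FractionRing (MvPolynomial (Fin (n + 1)) k)) f) =
          aeval y1 ((MvPolynomial.finSuccEquiv k n f).map
            (algebraMap (MvPolynomial (Fin n) k) (FractionRing (MvPolynomial (Fin n) k)))) := by
  classical
  set A := MvPolynomial (Fin n) k with hA
  set F := FractionRing A with hF
  set A' := MvPolynomial (Fin (n + 1)) k with hA'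
  let e : A' ≃ₐ[k] A[X] := MvPolynomial.finSuccEquiv k n
  let g : A' →ₐ[k] L := ((aeval y1 : F[X] →ₐ[F] L).restrictScalars k).comp
    ((Polynomial.mapAlgHom (IsScalarTower.toAlgHom k A F)).comp (e : A' →ₐ[k] A[X]))
  have hg : ∀ f, g f = aeval y1 ((e f).map (algebraMap A F)) := fun f => rfl
  have hinj : Function.Injective g := by
    rw [injective_iff_map_eq_zero]
    intro f hf
    rw [hg] at hf
    have h1 := hy1 _ hf
    have h2 : e f = 0 := by
      have := (Polynomial.map_injective (algebraMap A F) (IsFractionRing.injective A F))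
      exact this (by rw [h1, Polynomial.map_zero])
    exact e.injective (by rw [h2, map_zero])
  refine ⟨IsFractionRing.liftAlgHom (K := FractionRing A') hinj, fun f => ?_⟩
  exact IsFractionRing.lift_algebraMap hinj f

end Subst

/-- the conic bundle `a u² + b v² = 1` with `a = A`, `b = B² + A C`, where `A, B, C` have
degree at most four in the first variable -/
theorem main_quartic (A B D : MvPolynomial (Fin 2) ℂ)
    (hA : A.degreeOf 0 ≤ 4) (hB : B.degreeOf 0 ≤ 4) (hD : D.degreeOf 0 ≤ 4)
    (a b : FractionRing (MvPolynomial (Fin 2) ℂ))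
    (ha : a = algebraMap _ _ A) (hb : b = algebraMap _ _ (B ^ 2 + A * D))
    (ha0 : a ≠ 0) (hb0 : b ≠ 0) :
    Nonempty
        (FractionRing
            (MvPolynomial (Fin 2) (FractionRing (MvPolynomial (Fin 2) ℂ)) ⧸
              Ideal.span
                {(MvPolynomial.C a * MvPolynomial.X 0 ^ 2 +
                    MvPolynomial.C b * MvPolynomial.X 1 ^ 2 - 1 :
                  MvPolynomial (Fin 2) (FractionRing (MvPolynomial (Fin 2) ℂ)))})
          →ₐ[ℂ] FractionRing (MvPolynomial (Fin 3) ℂ)) := by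
  classical
  set F := FractionRing (MvPolynomial (Fin 1) ℂ) with hF
  let Φ : MvPolynomial (Fin 2) ℂ → F[X] := fun f =>
    (MvPolynomial.finSuccEquiv ℂ 1 f).map (algebraMap (MvPolynomial (Fin 1) ℂ) F)
  have hΦdeg : ∀ f : MvPolynomial (Fin 2) ℂ, f.degreeOf 0 ≤ 4 → (Φ f).natDegree ≤ 4 := by
    intro f hf
    refine (Polynomial.natDegree_map_le).trans ?_
    rw [MvPolynomial.natDegree_finSuccEquiv]
    exact hf
  have hΦinj : ∀ f : MvPolynomial (Fin 2) ℂ, f ≠ 0 → Φ f ≠ 0 := by
    intro f hf h0
    apply hf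
    have h1 : MvPolynomial.finSuccEquiv ℂ 1 f = 0 :=
      (Polynomial.map_injective (algebraMap (MvPolynomial (Fin 1) ℂ) F)
        (IsFractionRing.injective _ F)) (by rw [Polynomial.map_zero]; exact h0)
    exact (MvPolynomial.finSuccEquiv ℂ 1).injective (by rw [h1, map_zero])
  have hA0 : A ≠ 0 := by
    rintro rfl
    apply ha0; rw [ha, map_zero]
  have hδ0 : B ^ 2 + A * D ≠ 0 := by
    intro h0
    apply hb0; rw [hb, h0, map_zero]
  have hΦδ : Φ (B ^ 2 + A * D) = Φ B ^ 2 + Φ A * Φ D := by
    simp only [Φ, map_add, map_mul, map_pow, Polynomial.map_add, Polynomial.map_mul, Polynomial.map_pow]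
  have _ : CharZero F := charZero_of_injective_algebraMap (algebraMap ℂ F).injective
  set L := FractionRing F[X] with hL
  obtain ⟨y1, hy1, hiso⟩ := split_quartic tsen_one (Φ A) (Φ B) (Φ D) (hΦdeg A hA) (hΦdeg B hB)
    (hΦdeg D hD) (hΦinj A hA0) (by rw [← hΦδ]; exact hΦinj _ hδ0)
  rw [← hΦδ] at hiso
  obtain ⟨σ, hσ⟩ := subst_embed 1 y1 hy1
  have hσa : σ a = Polynomial.aeval y1 (Φ A) := by rw [ha]; exact hσ A
  have hσb : σ b = Polynomial.aeval y1 (Φ (B ^ 2 + A * D)) := by rw [hb]; exact hσ _
  rw [← hσa, ← hσb] at hiso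
  have h2L : (2 : L) ≠ 0 := by
    have := (map_ne_zero (algebraMap ℂ L)).mpr (two_ne_zero : (2 : ℂ) ≠ 0)
    rwa [map_ofNat] at this
  obtain ⟨u, v, huv⟩ := hiso.affine h2L ((map_ne_zero σ).mpr ha0) ((map_ne_zero σ).mpr hb0)
  have h2K : (2 : FractionRing (MvPolynomial (Fin 2) ℂ)) ≠ 0 := by
    have := (map_ne_zero (algebraMap ℂ (FractionRing (MvPolynomial (Fin 2) ℂ)))).mpr
      (two_ne_zero : (2 : ℂ) ≠ 0)
    rwa [map_ofNat] at this
  obtain ⟨Ψ⟩ := conic_embed h2K a b ha0 hb0 σ u v huv
  obtain ⟨s2⟩ := rational_step 1 (AlgHom.id ℂ F)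
  obtain ⟨s3⟩ := rational_step 2 s2
  exact ⟨s3.comp Ψ⟩

end Pool.Agent.Lib.MP_2095a9_ag
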