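import Pool.Agent.Lib.MP_2095a9_ag.Sep

set_option autoImplicit false

namespace Pool.Agent.Lib.MP_2095a9_ag

open Polynomial

section Param

variable {F : Type*} [Field F]

/-- rational parametrisation of `U² - a W² = δ` by polynomials of degree two -/
theorem norm_poly (h2 : (2 : F) ≠ 0) (a0 δ0 : F) (ha0 : a0 ≠ 0)
    (hδ0 : δ0 ≠ 0) (hiso : Iso a0 δ0) :
    ∃ Un Wn Dn : F[X], Un.natDegree ≤ 2 ∧ Wn.natDegree ≤ 2 ∧ Dn.natDegree ≤ 2 ∧ Dn ≠ 0 ∧
      Un ^ 2 - C a0 * Wn ^ 2 = C δ0 * Dn ^ 2 ∧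
      ¬ IsAlgebraic F (algebraMap F[X] (FractionRing F[X]) Un /
        algebraMap F[X] (FractionRing F[X]) Dn) := by
  classical
  obtain ⟨U0, W0, hUW⟩ := hiso.norm_form h2 ha0 hδ0
  set Dn : F[X] := 1 - C a0 * X ^ 2 with hDn
  set Un : F[X] := C U0 * (1 + C a0 * X ^ 2) + C (2 * a0 * W0) * X with hUn
  set Wn : F[X] := C W0 * (1 + C a0 * X ^ 2) + C (2 * U0) * X with hWn
  have hDndeg : Dn.natDegree = 2 := by
    rw [hDn]; compute_degree!
  have hDn0 : Dn ≠ 0 := by
    intro h; rw [h] at hDndeg; simp at hDndeg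
  have hUndeg : Un.natDegree ≤ 2 := by
    rw [hUn]; compute_degree
  have hWndeg : Wn.natDegree ≤ 2 := by
    rw [hWn]; compute_degree
  have e2 : (C 2 : F[X]) = 2 := map_ofNat C 2
  refine ⟨Un, Wn, Dn, hUndeg, hWndeg, hDndeg.le, hDn0, ?_, ?_⟩
  · rw [← hUW, hUn, hWn, hDn]
    simp only [C_mul, C_sub, C_pow, e2]
    ring
  · intro halg
    obtain ⟨p, hp⟩ := dvd_of_isAlgebraic Un Dn hDn0 halg
    have hpc : ∃ x : F, p = C x := by
      by_cases hp0 : p = 0
      · exact ⟨0, by rw [hp0, C_0]⟩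
      · have : Un.natDegree = Dn.natDegree + p.natDegree := by rw [hp, natDegree_mul hDn0 hp0]
        exact ⟨p.coeff 0, eq_C_of_natDegree_eq_zero (by omega)⟩
    obtain ⟨x, rfl⟩ := hpc
    have e0 : Un.coeff 0 = x * Dn.coeff 0 := by rw [hp, mul_comm, coeff_C_mul]
    have e1 : Un.coeff 1 = x * Dn.coeff 1 := by rw [hp, mul_comm, coeff_C_mul]
    have e2' : Un.coeff 2 = x * Dn.coeff 2 := by rw [hp, mul_comm, coeff_C_mul]
    have f0 : Un.coeff 0 = U0 := by
      rw [hUn, coeff_add, coeff_C_mul, coeff_C_mul, coeff_add, coeff_C_mul, coeff_X_pow, coeff_X,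
        coeff_one]; norm_num
    have f1 : Un.coeff 1 = 2 * a0 * W0 := by
      rw [hUn, coeff_add, coeff_C_mul, coeff_C_mul, coeff_add, coeff_C_mul, coeff_X_pow, coeff_X,
        coeff_one]; norm_num
    have f2 : Un.coeff 2 = U0 * a0 := by
      rw [hUn, coeff_add, coeff_C_mul, coeff_C_mul, coeff_add, coeff_C_mul, coeff_X_pow, coeff_X,
        coeff_one]; norm_num
    have g0 : Dn.coeff 0 = 1 := by rw [hDn]; simp
    have g1 : Dn.coeff 1 = 0 := by rw [hDn]; simp [coeff_one]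
    have g2 : Dn.coeff 2 = - a0 := by
      rw [hDn, coeff_sub, coeff_C_mul, coeff_X_pow, coeff_one]; norm_num
    rw [f0, g0, mul_one] at e0
    rw [f1, g1, mul_zero] at e1
    rw [f2, g2, ← e0] at e2'
    have hW0 : W0 = 0 := (mul_eq_zero.mp e1).resolve_left (mul_ne_zero h2 ha0)
    have hU0 : U0 = 0 := by
      have h3 : (2 * a0) * U0 = 0 := by linear_combination e2'
      exact (mul_eq_zero.mp h3).resolve_left (mul_ne_zero h2 ha0)
    apply hδ0
    rw [← hUW, hU0, hW0]; ring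

/-- substitution `X ↦ y2` as an embedding of `F(X)` -/
theorem subst_frac {L : Type*} [Field L] [Algebra F L] (y2 : L) (hy2 : Transc (F := F) y2) :
    ∃ τ : FractionRing F[X] →ₐ[F] L,
      ∀ p : F[X], τ (algebraMap F[X] (FractionRing F[X]) p) = aeval y2 p := by
  have hinj : Function.Injective (aeval y2 : F[X] →ₐ[F] L) := by
    rw [injective_iff_map_eq_zero]; exact hy2
  exact ⟨IsFractionRing.liftAlgHom (K := FractionRing F[X]) hinj,
    fun p => IsFractionRing.lift_algebraMap hinj p⟩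

/-- two linear slots and a linear conic: after a suitable substitution both linear polynomials
become squares and the conic gets a point -/
theorem core_slots [CharZero F] (hT : ∀ a b : F, a ≠ 0 → b ≠ 0 → Iso a b)
    (p1 p0 q1 q0 : F) (hp1 : p1 ≠ 0) (hq1 : q1 ≠ 0) (hΔ : p1 * q0 ≠ p0 * q1)
    (A B D : F[X]) (hA : A.natDegree ≤ 1) (hB : B.natDegree ≤ 1) (hD : D.natDegree ≤ 1)
    (hA0 : A ≠ 0) (hδ0 : B ^ 2 + A * D ≠ 0) :
    ∃ y1 : FractionRing F[X], Transc (F := F) y1 ∧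
      IsSquare (algebraMap F (FractionRing F[X]) p1 * y1 + algebraMap F (FractionRing F[X]) p0) ∧
      IsSquare (algebraMap F (FractionRing F[X]) q1 * y1 + algebraMap F (FractionRing F[X]) q0) ∧
      Iso (aeval y1 A) (aeval y1 (B ^ 2 + A * D)) := by
  classical
  set L := FractionRing F[X] with hL
  have h2F : (2 : F) ≠ 0 := two_ne_zero
  set a0 : F := p1 / q1 with ha0
  set d0 : F := (p0 * q1 - p1 * q0) / q1 with hd0
  have ha0' : a0 ≠ 0 := div_ne_zero hp1 hq1
  have hd0' : d0 ≠ 0 := div_ne_zero (fun h => hΔ (by linear_combination -h)) hq1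
  obtain ⟨Un, Wn, Dn, hUdeg, hWdeg, hDdeg, hDn0, hid, htr⟩ :=
    norm_poly h2F a0 d0 ha0' hd0' (hT _ _ ha0' hd0')
  have hinj : Function.Injective (algebraMap F[X] L) := IsFractionRing.injective F[X] L
  have hDL : algebraMap F[X] L Dn ≠ 0 := fun h => hDn0 (hinj (h.trans (map_zero _).symm))
  set ι := algebraMap F L with hι
  have hιC : ∀ x : F, algebraMap F[X] L (C x) = ι x := fun x =>
    (IsScalarTower.algebraMap_apply F F[X] L x).symm
  have hιp1 : ι p1 ≠ 0 := (map_ne_zero ι).mpr hp1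
  have hιq1 : ι q1 ≠ 0 := (map_ne_zero ι).mpr hq1
  obtain ⟨N, hN⟩ : ∃ N : F[X], N = C p1⁻¹ * (Un ^ 2 - C p0 * Dn ^ 2) := ⟨_, rfl⟩
  have hNdeg : N.natDegree ≤ 4 := by
    have h1 : (Un ^ 2).natDegree ≤ 4 := natDegree_pow_le.trans (by omega)
    have h2 : (C p0 * Dn ^ 2).natDegree ≤ 4 :=
      (natDegree_C_mul_le _ _).trans (natDegree_pow_le.trans (by omega))
    rw [hN]
    exact (natDegree_C_mul_le _ _).trans ((natDegree_sub_le _ _).trans (max_le h1 h2))
  have hNid : algebraMap F[X] L N * ι p1 =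
      algebraMap F[X] L Un ^ 2 - ι p0 * algebraMap F[X] L Dn ^ 2 := by
    rw [hN, map_mul, map_sub, map_mul, map_pow, map_pow, hιC, hιC, map_inv₀, mul_comm,
      mul_inv_cancel_left₀ hιp1]
  obtain ⟨u, hu⟩ : ∃ u : L, u = algebraMap F[X] L Un / algebraMap F[X] L Dn := ⟨_, rfl⟩
  obtain ⟨w, hw⟩ : ∃ w : L, w = algebraMap F[X] L Wn / algebraMap F[X] L Dn := ⟨_, rfl⟩
  obtain ⟨z, hz⟩ : ∃ z : L, z = algebraMap F[X] L N / algebraMap F[X] L Dn ^ 2 := ⟨_, rfl⟩
  have hzD : z * algebraMap F[X] L Dn ^ 2 = algebraMap F[X] L N := by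
    rw [hz]; exact div_mul_cancel₀ _ (pow_ne_zero _ hDL)
  have huD : u * algebraMap F[X] L Dn = algebraMap F[X] L Un := by
    rw [hu]; exact div_mul_cancel₀ _ hDL
  have hwD : w * algebraMap F[X] L Dn = algebraMap F[X] L Wn := by
    rw [hw]; exact div_mul_cancel₀ _ hDL
  have hpz : ι p1 * z + ι p0 = u * u := by
    apply mul_right_cancel₀ (pow_ne_zero 2 hDL)
    linear_combination ι p1 * hzD + hNid -
      (u * algebraMap F[X] L Dn + algebraMap F[X] L Un) * huD
  have hidL : algebraMap F[X] L Un ^ 2 - ι a0 * algebraMap F[X] L Wn ^ 2 =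
      ι d0 * algebraMap F[X] L Dn ^ 2 := by
    have h3 := congrArg (algebraMap F[X] L) hid
    rw [map_sub, map_mul, map_mul, map_pow, map_pow, map_pow, hιC, hιC] at h3
    exact h3
  have huw : u ^ 2 - ι a0 * w ^ 2 = ι d0 := by
    apply mul_right_cancel₀ (pow_ne_zero 2 hDL)
    linear_combination (u * algebraMap F[X] L Dn + algebraMap F[X] L Un) * huD -
      ι a0 * (w * algebraMap F[X] L Dn + algebraMap F[X] L Wn) * hwD + hidL
  have ea0 : ι a0 * ι q1 = ι p1 := by
    rw [← map_mul, ha0, div_mul_cancel₀ _ hq1]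
  have ed0 : ι d0 * ι q1 = ι p0 * ι q1 - ι p1 * ι q0 := by
    rw [← map_mul, hd0, div_mul_cancel₀ _ hq1, map_sub, map_mul, map_mul]
  have hqz : ι q1 * z + ι q0 = w * w := by
    apply mul_left_cancel₀ hιp1
    linear_combination ι q1 * hpz + ι q1 * huw + w ^ 2 * ea0 + ed0
  have hzT : Transc (F := F) z := by
    apply transc_of_not_isAlgebraic
    intro halg
    have htr' : ¬ IsAlgebraic F u := by rw [hu]; exact htr
    apply htr'
    have h1 : IsAlgebraic F (u ^ 2) := by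
      rw [sq, ← hpz]
      exact ((isAlgebraic_algebraMap p1).mul halg).add (isAlgebraic_algebraMap p0)
    exact h1.of_pow (by norm_num)
  -- lifting linear polynomials
  let lift : F[X] → F[X] := fun G => C (G.coeff 1) * N + C (G.coeff 0) * Dn ^ 2
  have hlift_deg : ∀ G, (lift G).natDegree ≤ 4 := by
    intro G
    have h1 : (C (G.coeff 1) * N).natDegree ≤ 4 := (natDegree_C_mul_le _ _).trans hNdeg
    have h2 : (C (G.coeff 0) * Dn ^ 2).natDegree ≤ 4 :=
      (natDegree_C_mul_le _ _).trans (natDegree_pow_le.trans (by omega))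
    exact (natDegree_add_le _ _).trans (max_le h1 h2)
  have hlift : ∀ G : F[X], G.natDegree ≤ 1 →
      algebraMap F[X] L (lift G) = aeval z G * algebraMap F[X] L Dn ^ 2 := by
    intro G hG
    have h1 : aeval z G = ι (G.coeff 1) * z + ι (G.coeff 0) := by
      conv_lhs => rw [eq_X_add_C_of_natDegree_le_one hG]
      rw [map_add, map_mul, aeval_C, aeval_C, aeval_X]
    rw [h1]
    simp only [lift]
    rw [map_add, map_mul, map_mul, map_pow, hιC, hιC]
    linear_combination (-ι (G.coeff 1)) * hzD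
  have hA' : lift A ≠ 0 := by
    intro h0
    have h1 := hlift A hA
    rw [h0, map_zero] at h1
    rcases mul_eq_zero.mp h1.symm with h3 | h3
    · exact hA0 (hzT A h3)
    · exact pow_ne_zero _ hDL h3
  have hδid : algebraMap F[X] L (lift B ^ 2 + lift A * lift D) =
      aeval z (B ^ 2 + A * D) * (algebraMap F[X] L Dn ^ 2) ^ 2 := by
    rw [map_add, map_mul, map_pow, hlift A hA, hlift B hB, hlift D hD, map_add, map_mul, map_pow]
    ring
  have hδ' : lift B ^ 2 + lift A * lift D ≠ 0 := by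
    intro h0
    rw [h0, map_zero] at hδid
    rcases mul_eq_zero.mp hδid.symm with h3 | h3
    · exact hδ0 (hzT _ h3)
    · exact pow_ne_zero _ (pow_ne_zero _ hDL) h3
  obtain ⟨y2, hy2, hiso⟩ := split_quartic hT (lift A) (lift B) (lift D) (hlift_deg A)
    (hlift_deg B) (hlift_deg D) hA' hδ'
  obtain ⟨τ, hτ⟩ := subst_frac y2 hy2
  have hτinj : Function.Injective τ := τ.toRingHom.injective
  have hτι : ∀ x : F, τ (ι x) = ι x := fun x => τ.commutes x
  have hd : τ (algebraMap F[X] L Dn) ≠ 0 := (map_ne_zero τ).mpr hDL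
  have hae : ∀ G : F[X], aeval (τ z) G = τ (aeval z G) := fun G =>
    aeval_algHom_apply τ z G
  refine ⟨τ z, ?_, ⟨τ u, ?_⟩, ⟨τ w, ?_⟩, ?_⟩
  · intro p hp
    rw [hae] at hp
    exact hzT p (hτinj (hp.trans (map_zero τ).symm))
  · rw [← map_mul, ← hpz, map_add, map_mul, hτι, hτι]
  · rw [← map_mul, ← hqz, map_add, map_mul, hτι, hτι]
  · refine Iso.scale (r := τ (algebraMap F[X] L Dn)) (s := τ (algebraMap F[X] L Dn) ^ 2) hd
      (pow_ne_zero _ hd) ?_ ?_ hiso
    · rw [← hτ, hlift A hA, map_mul, map_pow, hae]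
    · rw [← hτ, hδid, map_mul, map_pow, map_pow, hae]

end Param

section Subst

/-- substitution of a transcendental element for `X 0`, with a coefficient embedding -/
theorem subst_embed_gen {k : Type*} [Field k] (n : ℕ) {F : Type*} [Field F] [Algebra k F]
    {L : Type*} [Field L] [Algebra k L] [Algebra F L] [IsScalarTower k F L]
    (j : MvPolynomial (Fin n) k →ₐ[k] F) (hj : Function.Injective j)
    (y1 : L) (hy1 : Transc (F := F) y1) :
    ∃ σ : FractionRing (MvPolynomial (Fin (n + 1)) k) →ₐ[k] L,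
      ∀ f : MvPolynomial (Fin (n + 1)) k,
        σ (algebraMap _ (FractionRing (MvPolynomial (Fin (n + 1)) k)) f) =
          aeval y1 ((MvPolynomial.finSuccEquiv k n f).map (j : MvPolynomial (Fin n) k →+* F)) := by
  classical
  set A := MvPolynomial (Fin n) k with hA
  set A' := MvPolynomial (Fin (n + 1)) k with hA'
  let e : A' ≃ₐ[k] A[X] := MvPolynomial.finSuccEquiv k n
  let g : A' →ₐ[k] L := ((aeval y1 : F[X] →ₐ[F] L).restrictScalars k).comp
    ((Polynomial.mapAlgHom j).comp (e : A' →ₐ[k] A[X]))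
  have hg : ∀ f, g f = aeval y1 ((e f).map (j : A →+* F)) := fun f => rfl
  have hinj : Function.Injective g := by
    rw [injective_iff_map_eq_zero]
    intro f hf
    rw [hg] at hf
    have h1 := hy1 _ hf
    have h2 : e f = 0 :=
      (Polynomial.map_injective (j : A →+* F) hj) (by rw [h1, Polynomial.map_zero])
    exact e.injective (by rw [h2, map_zero])
  refine ⟨IsFractionRing.liftAlgHom (K := FractionRing A') hinj, fun f => ?_⟩
  exact IsFractionRing.lift_algebraMap hinj f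

end Subst

section Base

/-- the field `ℂ(s)` -/
abbrev FOne : Type := FractionRing (MvPolynomial (Fin 1) ℂ)

/-- the variable `s` of `ℂ(s)` -/
noncomputable def sv : FOne := algebraMap (MvPolynomial (Fin 1) ℂ) FOne (MvPolynomial.X 0)

/-- the element `x = ((s² + 1) / (2 s))²`; both `x` and `x - 1` are squares -/
noncomputable def xs : FOne := ((sv ^ 2 + 1) / (2 * sv)) ^ 2

theorem sv_transc : ¬ IsAlgebraic ℂ sv := by
  intro h
  have h3 : Transcendental ℂ (MvPolynomial.X 0 : MvPolynomial (Fin 1) ℂ) :=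
    MvPolynomial.transcendental_X ℂ 0
  apply h3
  exact (isAlgebraic_algebraMap_iff (R := ℂ) (A := FOne)
    (IsFractionRing.injective (MvPolynomial (Fin 1) ℂ) FOne)).mp h

theorem sv_ne_zero : sv ≠ 0 := fun h => sv_transc (by rw [h]; exact isAlgebraic_zero)

theorem xs_transc : ¬ IsAlgebraic ℂ xs := by
  intro h
  have h1 : IsAlgebraic ℂ ((sv ^ 2 + 1) / (2 * sv)) := h.of_pow (by norm_num)
  have h2 : IsIntegral ℂ ((sv ^ 2 + 1) / (2 * sv)) := h1.isIntegral
  obtain ⟨c, hc⟩ := h2.mem_range_algebraMap_of_minpoly_splits (K := ℂ)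
    (IsAlgClosed.splits (k := ℂ) _)
  apply sv_transc
  have hs : sv ≠ 0 := sv_ne_zero
  have h2F : (2 : FOne) ≠ 0 := two_ne_zero
  refine ⟨X ^ 2 - C (2 * c) * X + 1, ?_, ?_⟩
  · intro h0
    have h4 := congrArg (fun p : ℂ[X] => p.coeff 0) h0
    simp at h4
  · have h5 : algebraMap ℂ FOne c * (2 * sv) = sv ^ 2 + 1 := by
      rw [hc]; exact div_mul_cancel₀ _ (mul_ne_zero h2F hs)
    rw [map_add, map_sub, map_mul, map_pow, aeval_X, aeval_C, map_one, map_mul, map_ofNat]
    linear_combination -h5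

theorem xs_isSquare : IsSquare xs := ⟨(sv ^ 2 + 1) / (2 * sv), by rw [xs, sq]⟩

theorem xs_sub_one_isSquare : IsSquare (xs - 1) := by
  have hs : sv ≠ 0 := sv_ne_zero
  have h2F : (2 : FOne) ≠ 0 := two_ne_zero
  refine ⟨(sv ^ 2 - 1) / (2 * sv), ?_⟩
  rw [xs]
  have h : (2 * sv) ≠ 0 := mul_ne_zero h2F hs
  have h1 : (sv ^ 2 + 1) / (2 * sv) * (2 * sv) = sv ^ 2 + 1 := div_mul_cancel₀ _ h
  have h2 : (sv ^ 2 - 1) / (2 * sv) * (2 * sv) = sv ^ 2 - 1 := div_mul_cancel₀ _ h
  apply mul_right_cancel₀ (pow_ne_zero 2 h)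
  generalize (sv ^ 2 + 1) / (2 * sv) = A1 at *
  generalize (sv ^ 2 - 1) / (2 * sv) = A2 at *
  linear_combination (A1 * (2 * sv) + (sv ^ 2 + 1)) * h1 - (A2 * (2 * sv) + (sv ^ 2 - 1)) * h2

end Base

end Pool.Agent.Lib.MP_2095a9_ag
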