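import Pool.Agent.Lib.MP_2095a9_ag.SlotsMain

set_option autoImplicit false

namespace Pool.Agent.Lib.MP_2095a9_ag

open Polynomial

/-- coefficient embedding `ℂ[x] → ℂ(s)`, `x ↦ ξ` -/
noncomputable def jr (ξ : FOne) : MvPolynomial (Fin 1) ℂ →ₐ[ℂ] FOne :=
  MvPolynomial.aeval (fun _ => ξ)

theorem jr_inj {ξ : FOne} (hξ : ¬ IsAlgebraic ℂ ξ) : Function.Injective (jr ξ) :=
  (algebraicIndependent_unique_type_iff (R := ℂ) (x := fun _ : Fin 1 => ξ)).mpr hξ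

/-- a polynomial in `x, y` as a polynomial in `y` over `ℂ(s)`, with `x ↦ ξ` -/
noncomputable def Pr (ξ : FOne) : MvPolynomial (Fin 2) ℂ →ₐ[ℂ] FOne[X] :=
  (Polynomial.mapAlgHom (jr ξ)).comp
    (MvPolynomial.finSuccEquiv ℂ 1 : MvPolynomial (Fin 2) ℂ →ₐ[ℂ] (MvPolynomial (Fin 1) ℂ)[X])

theorem Pr_apply (ξ : FOne) (f : MvPolynomial (Fin 2) ℂ) :
    Pr ξ f = (MvPolynomial.finSuccEquiv ℂ 1 f).map (jr ξ : MvPolynomial (Fin 1) ℂ →+* FOne) := rfl

theorem Pr_natDegree (ξ : FOne) (f : MvPolynomial (Fin 2) ℂ) :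
    (Pr ξ f).natDegree ≤ f.degreeOf 0 := by
  rw [Pr_apply]
  refine (Polynomial.natDegree_map_le).trans ?_
  rw [MvPolynomial.natDegree_finSuccEquiv]

theorem Pr_inj {ξ : FOne} (hξ : ¬ IsAlgebraic ℂ ξ) : Function.Injective (Pr ξ) := by
  rw [injective_iff_map_eq_zero]
  intro f h0
  have h1 : MvPolynomial.finSuccEquiv ℂ 1 f = 0 :=
    (Polynomial.map_injective (jr ξ : MvPolynomial (Fin 1) ℂ →+* FOne) (jr_inj hξ))
      (by rw [Polynomial.map_zero]; exact h0)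
  exact (MvPolynomial.finSuccEquiv ℂ 1).injective (by rw [h1, map_zero])

theorem Pr_ne_zero {ξ : FOne} (hξ : ¬ IsAlgebraic ℂ ξ) {f : MvPolynomial (Fin 2) ℂ} (hf : f ≠ 0) :
    Pr ξ f ≠ 0 :=
  (map_ne_zero_iff (Pr ξ) (Pr_inj hξ)).mpr hf

theorem Pr_X0 (ξ : FOne) : Pr ξ (MvPolynomial.X 0) = X := by
  rw [Pr_apply, MvPolynomial.finSuccEquiv_X_zero, Polynomial.map_X]

theorem Pr_X1 (ξ : FOne) : Pr ξ (MvPolynomial.X 1) = C ξ := by
  rw [Pr_apply]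
  have h4 : (MvPolynomial.finSuccEquiv ℂ 1) (MvPolynomial.X 1 : MvPolynomial (Fin 2) ℂ) =
      C (MvPolynomial.X 0 : MvPolynomial (Fin 1) ℂ) :=
    MvPolynomial.finSuccEquiv_X_succ (j := (0 : Fin 1))
  rw [h4, Polynomial.map_C]
  congr 1
  exact MvPolynomial.aeval_X _ _

theorem Pr_base (ξ : FOne) (p : ℂ[X]) :
    Pr ξ (Polynomial.aeval (MvPolynomial.X 1 : MvPolynomial (Fin 2) ℂ) p) = C (aeval ξ p) := by
  rw [← Polynomial.aeval_algHom_apply, Pr_X1]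
  exact Polynomial.aeval_algebraMap_apply FOne[X] ξ p

theorem Pr_linY (ξ : FOne) (p q : ℂ[X]) :
    Pr ξ (linY p q) = C (aeval ξ p) * X + C (aeval ξ q) := by
  rw [linY, map_add, map_mul, Pr_base, Pr_base, Pr_X0]

theorem aeval_sv_ne_zero {p : ℂ[X]} (hp : p ≠ 0) : aeval sv p ≠ 0 := fun h =>
  sv_transc ⟨p, hp, h⟩

/-- a nonconstant rational function of `s` is transcendental over `ℂ` -/
theorem ratio_transc {p q : ℂ[X]} (hq : q ≠ 0) (hpq : ∀ c : ℂ, p ≠ C c * q) :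
    ¬ IsAlgebraic ℂ (aeval sv p / aeval sv q : FOne) := by
  intro h
  obtain ⟨c, hc⟩ := h.isIntegral.mem_range_algebraMap_of_minpoly_splits (K := ℂ)
    (IsAlgClosed.splits (k := ℂ) _)
  have h1 : aeval sv p = algebraMap ℂ FOne c * aeval sv q := by
    rw [hc, div_mul_cancel₀ _ (aeval_sv_ne_zero hq)]
  apply sv_transc
  refine ⟨p - C c * q, sub_ne_zero.mpr (hpq c), ?_⟩
  rw [map_sub, map_mul, aeval_C, h1, sub_self]

/-- the end of the argument: a transcendental substitution after which the conic has a point -/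
theorem finish_base {ξ : FOne} (hξ : ¬ IsAlgebraic ℂ ξ)
    (y1 : LTwo) (hy1 : Transc (F := FOne) y1) (a b : KTwo) (ha0 : a ≠ 0) (hb0 : b ≠ 0)
    (h : ∀ σ : KTwo →ₐ[ℂ] LTwo,
      (∀ f, σ (algebraMap (MvPolynomial (Fin 2) ℂ) KTwo f) = aeval y1 (Pr ξ f)) →
      ∃ u v : LTwo, σ a * u ^ 2 + σ b * v ^ 2 = 1) :
    Nonempty
        (FractionRing
            (MvPolynomial (Fin 2) (FractionRing (MvPolynomial (Fin 2) ℂ)) ⧸
              Ideal.span
                {(MvPolynomial.C a * MvPolynomial.X 0 ^ 2 +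
                    MvPolynomial.C b * MvPolynomial.X 1 ^ 2 - 1 :
                  MvPolynomial (Fin 2) (FractionRing (MvPolynomial (Fin 2) ℂ)))})
          →ₐ[ℂ] FractionRing (MvPolynomial (Fin 3) ℂ)) := by
  classical
  obtain ⟨σ, hσ⟩ := subst_embed_gen 1 (jr ξ) (jr_inj hξ) y1 hy1
  obtain ⟨u, v, huv⟩ := h σ hσ
  have h2K : (2 : KTwo) ≠ 0 := by
    have := (map_ne_zero (algebraMap ℂ KTwo)).mpr (two_ne_zero : (2 : ℂ) ≠ 0)
    rwa [map_ofNat] at this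
  obtain ⟨Ψ⟩ := conic_embed h2K a b ha0 hb0 σ u v huv
  obtain ⟨s2⟩ := rational_step 1 (AlgHom.id ℂ FOne)
  obtain ⟨s3⟩ := rational_step 2 s2
  exact ⟨s3.comp Ψ⟩

/-- the evaluation of polynomials in `s, y` at `s` and `y1` -/
noncomputable def evL (y1 : LTwo) : MvPolynomial (Fin 2) ℂ →ₐ[ℂ] LTwo :=
  ((aeval y1 : FOne[X] →ₐ[FOne] LTwo).restrictScalars ℂ).comp (Pr sv)

theorem evL_apply (y1 : LTwo) (f : MvPolynomial (Fin 2) ℂ) : evL y1 f = aeval y1 (Pr sv f) := rfl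

theorem evL_base (y1 : LTwo) (p : ℂ[X]) :
    evL y1 (Polynomial.aeval (MvPolynomial.X 1 : MvPolynomial (Fin 2) ℂ) p) =
      algebraMap FOne LTwo (aeval sv p) := by
  rw [evL_apply, Pr_base, aeval_C]

/-- what is used about the base change `x = p(s) / q(s)` -/
theorem evL_spec {p q : ℂ[X]} (hq : q ≠ 0) (y1 : LTwo) (σ : KTwo →ₐ[ℂ] LTwo)
    (hσ : ∀ f, σ (algebraMap (MvPolynomial (Fin 2) ℂ) KTwo f) =
      aeval y1 (Pr (aeval sv p / aeval sv q) f)) :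
    (∀ c : ℂ, (evL y1 : MvPolynomial (Fin 2) ℂ →+* LTwo) (MvPolynomial.C c) =
      (σ : KTwo →+* LTwo) (algebraMap ℂ KTwo c)) ∧
    (evL y1 : MvPolynomial (Fin 2) ℂ →+* LTwo) (MvPolynomial.X 0) =
      (σ : KTwo →+* LTwo) (algebraMap (MvPolynomial (Fin 2) ℂ) KTwo (MvPolynomial.X 0)) ∧
    (evL y1 : MvPolynomial (Fin 2) ℂ →+* LTwo)
      (Polynomial.aeval (MvPolynomial.X 1 : MvPolynomial (Fin 2) ℂ) q) ≠ 0 ∧
    (σ : KTwo →+* LTwo) (algebraMap (MvPolynomial (Fin 2) ℂ) KTwo (MvPolynomial.X 1)) *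
      (evL y1 : MvPolynomial (Fin 2) ℂ →+* LTwo)
        (Polynomial.aeval (MvPolynomial.X 1 : MvPolynomial (Fin 2) ℂ) q) =
      (evL y1 : MvPolynomial (Fin 2) ℂ →+* LTwo)
        (Polynomial.aeval (MvPolynomial.X 1 : MvPolynomial (Fin 2) ℂ) p) := by
  have hq1 : (aeval sv q : FOne) ≠ 0 := aeval_sv_ne_zero hq
  refine ⟨fun c => ?_, ?_, ?_, ?_⟩
  · show evL y1 (MvPolynomial.C c) = σ (algebraMap ℂ KTwo c)
    rw [σ.commutes, ← MvPolynomial.algebraMap_eq, (evL y1).commutes]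
  · show evL y1 (MvPolynomial.X 0) =
      σ (algebraMap (MvPolynomial (Fin 2) ℂ) KTwo (MvPolynomial.X 0))
    rw [hσ, evL_apply, Pr_X0, Pr_X0]
  · show evL y1 (Polynomial.aeval (MvPolynomial.X 1 : MvPolynomial (Fin 2) ℂ) q) ≠ 0
    rw [evL_base]
    exact (map_ne_zero (algebraMap FOne LTwo)).mpr hq1
  · show σ (algebraMap (MvPolynomial (Fin 2) ℂ) KTwo (MvPolynomial.X 1)) *
      evL y1 (Polynomial.aeval (MvPolynomial.X 1 : MvPolynomial (Fin 2) ℂ) q) =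
      evL y1 (Polynomial.aeval (MvPolynomial.X 1 : MvPolynomial (Fin 2) ℂ) p)
    rw [hσ, Pr_X1, aeval_C, evL_base, evL_base, ← map_mul, div_mul_cancel₀ _ hq1]

/-- a conic over `ℂ(x, y)` that gets a point over every field `M` containing `ℂ(x, y)` and an
element `s` with `x = p(s) / q(s)`, in which the conic `A u² + (B² + A D) v² = 1` (`A, B, D`
polynomials in `s, y` of degree at most four in `y`) has a point -/
theorem main_base_quartic (p q : ℂ[X]) (hq : q ≠ 0) (hpq : ∀ c : ℂ, p ≠ C c * q)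
    (A B D : MvPolynomial (Fin 2) ℂ)
    (hA : A.degreeOf 0 ≤ 4) (hB : B.degreeOf 0 ≤ 4) (hD : D.degreeOf 0 ≤ 4)
    (hA0 : A ≠ 0) (hδ0 : B ^ 2 + A * D ≠ 0) (a b : KTwo) (ha0 : a ≠ 0) (hb0 : b ≠ 0)
    (h : ∀ (M : Type) [Field M] (φ : KTwo →+* M) (ε : MvPolynomial (Fin 2) ℂ →+* M),
      (∀ c : ℂ, ε (MvPolynomial.C c) = φ (algebraMap ℂ KTwo c)) →
      ε (MvPolynomial.X 0) =
        φ (algebraMap (MvPolynomial (Fin 2) ℂ) KTwo (MvPolynomial.X 0)) →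
      ε (Polynomial.aeval (MvPolynomial.X 1) q) ≠ 0 →
      φ (algebraMap (MvPolynomial (Fin 2) ℂ) KTwo (MvPolynomial.X 1)) *
        ε (Polynomial.aeval (MvPolynomial.X 1) q) = ε (Polynomial.aeval (MvPolynomial.X 1) p) →
      (∃ u v : M, ε A * u ^ 2 + ε (B ^ 2 + A * D) * v ^ 2 = 1) →
      ∃ u v : M, φ a * u ^ 2 + φ b * v ^ 2 = 1) :
    Nonempty
        (FractionRing
            (MvPolynomial (Fin 2) (FractionRing (MvPolynomial (Fin 2) ℂ)) ⧸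
              Ideal.span
                {(MvPolynomial.C a * MvPolynomial.X 0 ^ 2 +
                    MvPolynomial.C b * MvPolynomial.X 1 ^ 2 - 1 :
                  MvPolynomial (Fin 2) (FractionRing (MvPolynomial (Fin 2) ℂ)))})
          →ₐ[ℂ] FractionRing (MvPolynomial (Fin 3) ℂ)) := by
  classical
  have _ : CharZero FOne := charZero_of_injective_algebraMap (algebraMap ℂ FOne).injective
  have hΦδ : Pr sv (B ^ 2 + A * D) = Pr sv B ^ 2 + Pr sv A * Pr sv D := by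
    rw [map_add, map_mul, map_pow]
  obtain ⟨y1, hy1, hiso⟩ := split_quartic tsen_one (Pr sv A) (Pr sv B) (Pr sv D)
    ((Pr_natDegree sv A).trans hA) ((Pr_natDegree sv B).trans hB) ((Pr_natDegree sv D).trans hD)
    (Pr_ne_zero sv_transc hA0) (by rw [← hΦδ]; exact Pr_ne_zero sv_transc hδ0)
  rw [← hΦδ] at hiso
  refine finish_base (ratio_transc hq hpq) y1 hy1 a b ha0 hb0 (fun σ hσ => ?_)
  obtain ⟨g1, g2, g3, g4⟩ := evL_spec hq y1 σ hσ
  refine h LTwo (σ : KTwo →+* LTwo) (evL y1 : MvPolynomial (Fin 2) ℂ →+* LTwo) g1 g2 g3 g4 ?_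
  have e1 : aeval y1 (Pr sv A) ≠ 0 := fun h0 => Pr_ne_zero sv_transc hA0 (hy1 _ h0)
  have e2 : aeval y1 (Pr sv (B ^ 2 + A * D)) ≠ 0 :=
    fun h0 => Pr_ne_zero sv_transc hδ0 (hy1 _ h0)
  exact hiso.affine two_ne_zero_L e1 e2

/-- a conic over `ℂ(x, y)` that gets a point over every field `M` containing `ℂ(x, y)` and an
element `s` with `x = p(s) / q(s)`, in which `α = α₁(s) y + α₀(s)`, `β = β₁(s) y + β₀(s)` are
squares and the conic `A u² + (B² + A D) v² = 1` (`A, B, D` polynomials in `s, y` of degree at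
most one in `y`) has a point -/
theorem main_base_linear (p q : ℂ[X]) (hq : q ≠ 0) (hpq : ∀ c : ℂ, p ≠ C c * q)
    (α1 α0 β1 β0 : ℂ[X]) (hα1 : α1 ≠ 0) (hβ1 : β1 ≠ 0)
    (hΔ : α1 * β0 ≠ α0 * β1) (A B D : MvPolynomial (Fin 2) ℂ)
    (hA : A.degreeOf 0 ≤ 1) (hB : B.degreeOf 0 ≤ 1) (hD : D.degreeOf 0 ≤ 1)
    (hA0 : A ≠ 0) (hδ0 : B ^ 2 + A * D ≠ 0) (a b : KTwo) (ha0 : a ≠ 0) (hb0 : b ≠ 0)
    (h : ∀ (M : Type) [Field M] (φ : KTwo →+* M) (ε : MvPolynomial (Fin 2) ℂ →+* M),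
      (∀ c : ℂ, ε (MvPolynomial.C c) = φ (algebraMap ℂ KTwo c)) →
      ε (MvPolynomial.X 0) =
        φ (algebraMap (MvPolynomial (Fin 2) ℂ) KTwo (MvPolynomial.X 0)) →
      ε (Polynomial.aeval (MvPolynomial.X 1) q) ≠ 0 →
      φ (algebraMap (MvPolynomial (Fin 2) ℂ) KTwo (MvPolynomial.X 1)) *
        ε (Polynomial.aeval (MvPolynomial.X 1) q) = ε (Polynomial.aeval (MvPolynomial.X 1) p) →
      IsSquare (ε (linY α1 α0)) → IsSquare (ε (linY β1 β0)) →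
      (∃ u v : M, ε A * u ^ 2 + ε (B ^ 2 + A * D) * v ^ 2 = 1) →
      ∃ u v : M, φ a * u ^ 2 + φ b * v ^ 2 = 1) :
    Nonempty
        (FractionRing
            (MvPolynomial (Fin 2) (FractionRing (MvPolynomial (Fin 2) ℂ)) ⧸
              Ideal.span
                {(MvPolynomial.C a * MvPolynomial.X 0 ^ 2 +
                    MvPolynomial.C b * MvPolynomial.X 1 ^ 2 - 1 :
                  MvPolynomial (Fin 2) (FractionRing (MvPolynomial (Fin 2) ℂ)))})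
          →ₐ[ℂ] FractionRing (MvPolynomial (Fin 3) ℂ)) := by
  classical
  have _ : CharZero FOne := charZero_of_injective_algebraMap (algebraMap ℂ FOne).injective
  have hΦδ : Pr sv (B ^ 2 + A * D) = Pr sv B ^ 2 + Pr sv A * Pr sv D := by
    rw [map_add, map_mul, map_pow]
  have hΔ' : (aeval sv α1 * aeval sv β0 : FOne) ≠ aeval sv α0 * aeval sv β1 := by
    intro h0
    have h1 : (aeval sv (α1 * β0 - α0 * β1) : FOne) = 0 := by
      rw [map_sub, map_mul, map_mul, h0, sub_self]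
    exact aeval_sv_ne_zero (sub_ne_zero.mpr hΔ) h1
  obtain ⟨y1, hy1, hsα, hsβ, hiso⟩ := core_slots tsen_one (aeval sv α1) (aeval sv α0)
    (aeval sv β1) (aeval sv β0) (aeval_sv_ne_zero hα1) (aeval_sv_ne_zero hβ1) hΔ'
    (Pr sv A) (Pr sv B) (Pr sv D)
    ((Pr_natDegree sv A).trans hA) ((Pr_natDegree sv B).trans hB) ((Pr_natDegree sv D).trans hD)
    (Pr_ne_zero sv_transc hA0) (by rw [← hΦδ]; exact Pr_ne_zero sv_transc hδ0)
  rw [← hΦδ] at hiso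
  refine finish_base (ratio_transc hq hpq) y1 hy1 a b ha0 hb0 (fun σ hσ => ?_)
  obtain ⟨g1, g2, g3, g4⟩ := evL_spec hq y1 σ hσ
  refine h LTwo (σ : KTwo →+* LTwo) (evL y1 : MvPolynomial (Fin 2) ℂ →+* LTwo) g1 g2 g3 g4 ?_ ?_ ?_
  · show IsSquare (evL y1 (linY α1 α0))
    rw [evL_apply, Pr_linY, map_add, map_mul, aeval_C, aeval_C, aeval_X]
    exact hsα
  · show IsSquare (evL y1 (linY β1 β0))
    rw [evL_apply, Pr_linY, map_add, map_mul, aeval_C, aeval_C, aeval_X]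
    exact hsβ
  · have e1 : aeval y1 (Pr sv A) ≠ 0 := fun h0 => Pr_ne_zero sv_transc hA0 (hy1 _ h0)
    have e2 : aeval y1 (Pr sv (B ^ 2 + A * D)) ≠ 0 :=
      fun h0 => Pr_ne_zero sv_transc hδ0 (hy1 _ h0)
    exact hiso.affine two_ne_zero_L e1 e2

end Pool.Agent.Lib.MP_2095a9_ag
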