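import Pool.Agent.Lib.MP_2095a9_ag.SlotsMain

set_option autoImplicit false

namespace Pool.Agent.Lib.MP_2095a9_ag

open Polynomial

/-- Tsen for a pencil: `g(ξ) u² + h(ξ) v² = 1` has a solution in every field `K ⊇ ℂ` and for
every `ξ ∈ K` with `g(ξ), h(ξ) ≠ 0` -/
theorem pencil_point {K : Type*} [Field K] [Algebra ℂ K] (ξ : K) (g h : ℂ[X])
    (hg : aeval ξ g ≠ 0) (hh : aeval ξ h ≠ 0) :
    ∃ u v : K, aeval ξ g * u ^ 2 + aeval ξ h * v ^ 2 = 1 := by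
  classical
  have h2 : (2 : K) ≠ 0 := by
    have := (map_ne_zero (algebraMap ℂ K)).mpr (two_ne_zero : (2 : ℂ) ≠ 0)
    rwa [map_ofNat] at this
  by_cases hξ : IsAlgebraic ℂ ξ
  · obtain ⟨c, hc⟩ := hξ.isIntegral.mem_range_algebraMap_of_minpoly_splits (K := ℂ)
      (IsAlgClosed.splits (k := ℂ) _)
    have h1 : aeval ξ g = algebraMap ℂ K (g.eval c) := by
      rw [← hc, Polynomial.aeval_algebraMap_apply, Polynomial.coe_aeval_eq_eval]
    obtain ⟨r, hr⟩ := IsAlgClosed.exists_pow_nat_eq (g.eval c) (n := 2) (by norm_num)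
    have hr0 : algebraMap ℂ K r ≠ 0 := by
      intro h0
      apply hg
      rw [h1, ← hr, map_pow, h0]; ring
    refine ⟨(algebraMap ℂ K r)⁻¹, 0, ?_⟩
    rw [h1, ← hr, map_pow, ← mul_pow, mul_inv_cancel₀ hr0]
    ring
  · have hg0 : g ≠ 0 := by
      rintro rfl; exact hg (map_zero _)
    have hh0 : h ≠ 0 := by
      rintro rfl; exact hh (map_zero _)
    have hξ' : ∀ f : ℂ[X], aeval ξ f = 0 → f = 0 := by
      intro f hf
      by_contra hf0
      exact hξ ⟨f, hf0, hf⟩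
    obtain ⟨x1, y1, z1, hne, hxyz⟩ := conic_poly (k := ℂ) two_ne_zero g h hg0 hh0
    have hiso : Iso (aeval ξ g) (aeval ξ h) := by
      refine ⟨aeval ξ x1, aeval ξ y1, aeval ξ z1, ?_, ?_⟩
      · rintro ⟨h1, h2, h3⟩
        exact hne ⟨hξ' _ h1, hξ' _ h2, hξ' _ h3⟩
      · have h4 := congrArg (aeval ξ) hxyz
        simpa only [map_add, map_mul, map_pow] using h4
    exact hiso.affine h2 hg hh

/-- the explicit family `a = m₁ g(ξ)`, `b = m₂ h(ξ)`: `m₁, m₂` monomials in `x`, `x - 1`,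
`α = α₁(x) y + α₀(x)`, `β = β₁(x) y + β₀(x)`, any rational function `ξ(x, y)` and any
polynomials `g`, `h` in one variable -/
theorem cor_pencil (α1 α0 β1 β0 : ℂ[X]) (hα1 : α1 ≠ 0) (hβ1 : β1 ≠ 0)
    (hΔ : α1 * β0 ≠ α0 * β1) (ξ : FractionRing (MvPolynomial (Fin 2) ℂ)) (g h : ℂ[X])
    (i1 i2 i3 i4 j1 j2 j3 j4 : ℕ) (a b : FractionRing (MvPolynomial (Fin 2) ℂ))
    (ha : a = algebraMap (MvPolynomial (Fin 2) ℂ) (FractionRing (MvPolynomial (Fin 2) ℂ))
      (MvPolynomial.X 1 ^ i1 * (MvPolynomial.X 1 - 1) ^ i2 * linY α1 α0 ^ i3 * linY β1 β0 ^ i4) *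
        aeval ξ g)
    (hb : b = algebraMap (MvPolynomial (Fin 2) ℂ) (FractionRing (MvPolynomial (Fin 2) ℂ))
      (MvPolynomial.X 1 ^ j1 * (MvPolynomial.X 1 - 1) ^ j2 * linY α1 α0 ^ j3 * linY β1 β0 ^ j4) *
        aeval ξ h)
    (ha0 : a ≠ 0) (hb0 : b ≠ 0) :
    Nonempty
        (FractionRing
            (MvPolynomial (Fin 2) (FractionRing (MvPolynomial (Fin 2) ℂ)) ⧸
              Ideal.span
                {(MvPolynomial.C a * MvPolynomial.X 0 ^ 2 +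
                    MvPolynomial.C b * MvPolynomial.X 1 ^ 2 - 1 :
                  MvPolynomial (Fin 2) (FractionRing (MvPolynomial (Fin 2) ℂ)))})
          →ₐ[ℂ] FractionRing (MvPolynomial (Fin 3) ℂ)) := by
  classical
  have hg : aeval ξ g ≠ 0 := fun h0 => ha0 (by rw [ha, h0, mul_zero])
  have hh : aeval ξ h ≠ 0 := fun h0 => hb0 (by rw [hb, h0, mul_zero])
  obtain ⟨u0, v0, huv⟩ := pencil_point ξ g h hg hh
  have hd1 : (1 : MvPolynomial (Fin 2) ℂ).degreeOf 0 ≤ 1 := by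
    rw [← MvPolynomial.C_1, MvPolynomial.degreeOf_C]; omega
  have hd0 : (0 : MvPolynomial (Fin 2) ℂ).degreeOf 0 ≤ 1 := by
    rw [MvPolynomial.degreeOf_zero]; omega
  refine main_slots_linear α1 α0 β1 β0 hα1 hβ1 hΔ 1 0 1 hd1 hd0 hd1 one_ne_zero
    (by simp) a b ha0 hb0 ?_
  intro M _ φ hs1 hs2 hs3 hs4 _
  have hsq : ∀ k1 k2 k3 k4 : ℕ, ∃ r : M, φ (algebraMap (MvPolynomial (Fin 2) ℂ)
      (FractionRing (MvPolynomial (Fin 2) ℂ))
      (MvPolynomial.X 1 ^ k1 * (MvPolynomial.X 1 - 1) ^ k2 * linY α1 α0 ^ k3 *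
        linY β1 β0 ^ k4)) = r * r := by
    intro k1 k2 k3 k4
    rw [map_mul, map_mul, map_mul, map_mul, map_mul, map_mul, map_pow, map_pow, map_pow, map_pow,
      map_pow, map_pow, map_pow, map_pow]
    exact ((hs1.pow k1).mul (hs2.pow k2)).mul (hs3.pow k3) |>.mul (hs4.pow k4)
  obtain ⟨r, hr⟩ := hsq i1 i2 i3 i4
  obtain ⟨t, ht⟩ := hsq j1 j2 j3 j4
  have hφa : φ a = r * r * φ (aeval ξ g) := by rw [ha, map_mul, hr]
  have hφb : φ b = t * t * φ (aeval ξ h) := by rw [hb, map_mul, ht]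
  have hr0 : r ≠ 0 := by
    rintro rfl
    exact ((map_ne_zero φ).mpr ha0) (by rw [hφa]; ring)
  have ht0 : t ≠ 0 := by
    rintro rfl
    exact ((map_ne_zero φ).mpr hb0) (by rw [hφb]; ring)
  refine ⟨φ u0 * r⁻¹, φ v0 * t⁻¹, ?_⟩
  have h1 : φ (aeval ξ g) * φ u0 ^ 2 + φ (aeval ξ h) * φ v0 ^ 2 = 1 := by
    rw [← map_pow, ← map_pow, ← map_mul, ← map_mul, ← map_add, huv, map_one]
  have e1 : r * r⁻¹ = 1 := mul_inv_cancel₀ hr0
  have e2 : t * t⁻¹ = 1 := mul_inv_cancel₀ ht0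
  rw [hφa, hφb]
  linear_combination h1 + (φ (aeval ξ g) * φ u0 ^ 2 * (r * r⁻¹ + 1)) * e1 +
    (φ (aeval ξ h) * φ v0 ^ 2 * (t * t⁻¹ + 1)) * e2

/-- separated variables again, `a = p(y) r(x)`, `b = q(y) t(x)`, as a special case of
`main_slots_linear` (`α = r(x) y`, `β = t(x) (y - 1)`) -/
theorem cor_separated (p q r t : Polynomial ℂ) (hp : p ≠ 0) (hq : q ≠ 0) (hr : r ≠ 0) (ht : t ≠ 0)
    (a b : FractionRing (MvPolynomial (Fin 2) ℂ))
    (ha : a = algebraMap (MvPolynomial (Fin 2) ℂ) (FractionRing (MvPolynomial (Fin 2) ℂ))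
      (Polynomial.aeval (MvPolynomial.X 0 : MvPolynomial (Fin 2) ℂ) p *
        Polynomial.aeval (MvPolynomial.X 1 : MvPolynomial (Fin 2) ℂ) r))
    (hb : b = algebraMap (MvPolynomial (Fin 2) ℂ) (FractionRing (MvPolynomial (Fin 2) ℂ))
      (Polynomial.aeval (MvPolynomial.X 0 : MvPolynomial (Fin 2) ℂ) q *
        Polynomial.aeval (MvPolynomial.X 1 : MvPolynomial (Fin 2) ℂ) t)) :
    Nonempty
        (FractionRing
            (MvPolynomial (Fin 2) (FractionRing (MvPolynomial (Fin 2) ℂ)) ⧸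
              Ideal.span
                {(MvPolynomial.C a * MvPolynomial.X 0 ^ 2 +
                    MvPolynomial.C b * MvPolynomial.X 1 ^ 2 - 1 :
                  MvPolynomial (Fin 2) (FractionRing (MvPolynomial (Fin 2) ℂ)))})
          →ₐ[ℂ] FractionRing (MvPolynomial (Fin 3) ℂ)) := by
  classical
  set ι := algebraMap (MvPolynomial (Fin 2) ℂ) (FractionRing (MvPolynomial (Fin 2) ℂ)) with hι
  have hιinj : Function.Injective ι := IsFractionRing.injective _ _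
  have htr : ∀ (i : Fin 2) (f : ℂ[X]), f ≠ 0 →
      Polynomial.aeval (MvPolynomial.X i : MvPolynomial (Fin 2) ℂ) f ≠ 0 := by
    intro i f hf h0
    have h3 : Transcendental ℂ (MvPolynomial.X i : MvPolynomial (Fin 2) ℂ) :=
      MvPolynomial.transcendental_X ℂ i
    exact hf ((transcendental_iff.mp h3) f h0)
  have hne : ∀ f : MvPolynomial (Fin 2) ℂ, f ≠ 0 → ι f ≠ 0 := fun f hf h0 =>
    hf (hιinj (h0.trans (map_zero ι).symm))
  have ha0 : a ≠ 0 := by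
    rw [ha]; exact hne _ (mul_ne_zero (htr 0 p hp) (htr 1 r hr))
  have hb0 : b ≠ 0 := by
    rw [hb]; exact hne _ (mul_ne_zero (htr 0 q hq) (htr 1 t ht))
  set y : FractionRing (MvPolynomial (Fin 2) ℂ) := ι (MvPolynomial.X 0) with hy
  have hy0 : y ≠ 0 := hne _ (MvPolynomial.X_ne_zero 0)
  have hX1 : (X - C 1 : ℂ[X]) ≠ 0 := X_sub_C_ne_zero 1
  have hy1 : y - 1 ≠ 0 := by
    have h1 : ι (Polynomial.aeval (MvPolynomial.X 0 : MvPolynomial (Fin 2) ℂ)
        (X - C 1 : ℂ[X])) ≠ 0 := hne _ (htr 0 _ hX1)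
    rwa [map_sub, map_sub, aeval_X, aeval_C, map_one, map_one] at h1
  have hev : ∀ f : ℂ[X], aeval y f = ι (Polynomial.aeval (MvPolynomial.X 0 : MvPolynomial (Fin 2) ℂ) f) :=
    fun f => Polynomial.aeval_algebraMap_apply _ _ f
  obtain ⟨u0, v0, huv⟩ := pencil_point y (p * X) (q * (X - C 1))
    (by rw [hev]; exact hne _ (htr 0 _ (mul_ne_zero hp X_ne_zero)))
    (by rw [hev]; exact hne _ (htr 0 _ (mul_ne_zero hq hX1)))
  have hd1 : (1 : MvPolynomial (Fin 2) ℂ).degreeOf 0 ≤ 1 := by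
    rw [← MvPolynomial.C_1, MvPolynomial.degreeOf_C]; omega
  have hd0 : (0 : MvPolynomial (Fin 2) ℂ).degreeOf 0 ≤ 1 := by
    rw [MvPolynomial.degreeOf_zero]; omega
  refine main_slots_linear r 0 t (-t) hr ht (by
      intro h0
      have h1 : r * t = 0 := by linear_combination -h0
      exact mul_ne_zero hr ht h1) 1 0 1 hd1 hd0 hd1 one_ne_zero
    (by simp) a b ha0 hb0 ?_
  intro M _ φ _ _ hs3 hs4 _
  obtain ⟨m, hm⟩ := hs3
  obtain ⟨n, hn⟩ := hs4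
  rw [← hι] at hm hn
  have e1 : ι (linY r 0) = ι (Polynomial.aeval (MvPolynomial.X 1 : MvPolynomial (Fin 2) ℂ) r) * y := by
    rw [linY, map_add, map_mul, map_zero, map_zero, add_zero]
  have e2 : ι (linY t (-t)) =
      ι (Polynomial.aeval (MvPolynomial.X 1 : MvPolynomial (Fin 2) ℂ) t) * (y - 1) := by
    rw [linY, map_add, map_mul, map_neg, map_neg]
    ring
  have hpy : aeval y (p * X) = ι (Polynomial.aeval (MvPolynomial.X 0 : MvPolynomial (Fin 2) ℂ) p) * y := by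
    rw [map_mul, aeval_X, hev]
  have hqy : aeval y (q * (X - C 1)) =
      ι (Polynomial.aeval (MvPolynomial.X 0 : MvPolynomial (Fin 2) ℂ) q) * (y - 1) := by
    rw [map_mul, map_sub, aeval_X, aeval_C, map_one, hev]
  rw [hpy, hqy] at huv
  have hφy : φ y ≠ 0 := (map_ne_zero φ).mpr hy0
  have hφy1 : φ y - 1 ≠ 0 := by
    have := (map_ne_zero φ).mpr hy1
    rwa [map_sub, map_one] at this
  rw [e1, map_mul] at hm
  rw [e2, map_mul, map_sub, map_one] at hn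
  have hφr : φ (ι (Polynomial.aeval (MvPolynomial.X 1 : MvPolynomial (Fin 2) ℂ) r)) ≠ 0 :=
    (map_ne_zero φ).mpr (hne _ (htr 1 r hr))
  have hφt : φ (ι (Polynomial.aeval (MvPolynomial.X 1 : MvPolynomial (Fin 2) ℂ) t)) ≠ 0 :=
    (map_ne_zero φ).mpr (hne _ (htr 1 t ht))
  have hm0 : m ≠ 0 := by
    rintro rfl
    exact (mul_ne_zero hφr hφy) (by rw [hm]; ring)
  have hn0 : n ≠ 0 := by
    rintro rfl
    exact (mul_ne_zero hφt hφy1) (by rw [hn]; ring)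
  have h1 := congrArg φ huv
  rw [map_add, map_mul, map_mul, map_mul, map_mul, map_pow, map_pow, map_sub, map_one] at h1
  refine ⟨φ u0 * φ y * m⁻¹, φ v0 * (φ y - 1) * n⁻¹, ?_⟩
  have k1 : m * m⁻¹ = 1 := mul_inv_cancel₀ hm0
  have k2 : n * n⁻¹ = 1 := mul_inv_cancel₀ hn0
  rw [ha, hb, map_mul, map_mul, map_mul, map_mul]
  generalize φ (ι (Polynomial.aeval (MvPolynomial.X 1 : MvPolynomial (Fin 2) ℂ) r)) = R at *
  generalize φ (ι (Polynomial.aeval (MvPolynomial.X 1 : MvPolynomial (Fin 2) ℂ) t)) = T at *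
  generalize φ (ι (Polynomial.aeval (MvPolynomial.X 0 : MvPolynomial (Fin 2) ℂ) p)) = P at *
  generalize φ (ι (Polynomial.aeval (MvPolynomial.X 0 : MvPolynomial (Fin 2) ℂ) q)) = Q at *
  generalize φ y = Y at *
  generalize φ u0 = U at *
  generalize φ v0 = V at *
  have e3 : P * R * (U * Y * m⁻¹) ^ 2 = P * Y * U ^ 2 := by
    have : P * R * (U * Y * m⁻¹) ^ 2 = P * Y * U ^ 2 * (m * m⁻¹) ^ 2 := by
      linear_combination (P * U ^ 2 * Y * m⁻¹ ^ 2) * hm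
    rw [this, k1]; ring
  have e4 : Q * T * (V * (Y - 1) * n⁻¹) ^ 2 = Q * (Y - 1) * V ^ 2 := by
    have : Q * T * (V * (Y - 1) * n⁻¹) ^ 2 = Q * (Y - 1) * V ^ 2 * (n * n⁻¹) ^ 2 := by
      linear_combination (Q * V ^ 2 * (Y - 1) * n⁻¹ ^ 2) * hn
    rw [this, k2]; ring
  rw [e3, e4]
  exact h1

end Pool.Agent.Lib.MP_2095a9_ag
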