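import Pool.Agent.Lib.MP_2095a9_ag.Slots

set_option autoImplicit false

namespace Pool.Agent.Lib.MP_2095a9_ag

open Polynomial

/-- the field `ℂ(x, y)`, with `y = X 0` and `x = X 1` -/
abbrev KTwo : Type := FractionRing (MvPolynomial (Fin 2) ℂ)

/-- the field `ℂ(s)(w)` -/
abbrev LTwo : Type := FractionRing (Polynomial FOne)

/-- coefficient embedding `ℂ[x] → ℂ(s)`, `x ↦ ((s² + 1) / (2 s))²` -/
noncomputable def jx : MvPolynomial (Fin 1) ℂ →ₐ[ℂ] FOne := MvPolynomial.aeval (fun _ => xs)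

theorem jx_inj : Function.Injective jx :=
  (algebraicIndependent_unique_type_iff (R := ℂ) (x := fun _ : Fin 1 => xs)).mpr xs_transc

/-- a polynomial in `x, y` as a polynomial in `y` over `ℂ(s)` -/
noncomputable def Ph : MvPolynomial (Fin 2) ℂ →ₐ[ℂ] FOne[X] :=
  (Polynomial.mapAlgHom jx).comp
    (MvPolynomial.finSuccEquiv ℂ 1 : MvPolynomial (Fin 2) ℂ →ₐ[ℂ] (MvPolynomial (Fin 1) ℂ)[X])

theorem Ph_apply (f : MvPolynomial (Fin 2) ℂ) :
    Ph f = (MvPolynomial.finSuccEquiv ℂ 1 f).map (jx : MvPolynomial (Fin 1) ℂ →+* FOne) := rfl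

theorem Ph_natDegree (f : MvPolynomial (Fin 2) ℂ) : (Ph f).natDegree ≤ f.degreeOf 0 := by
  rw [Ph_apply]
  refine (Polynomial.natDegree_map_le).trans ?_
  rw [MvPolynomial.natDegree_finSuccEquiv]

theorem Ph_inj : Function.Injective Ph := by
  rw [injective_iff_map_eq_zero]
  intro f h0
  have h1 : MvPolynomial.finSuccEquiv ℂ 1 f = 0 :=
    (Polynomial.map_injective (jx : MvPolynomial (Fin 1) ℂ →+* FOne) jx_inj)
      (by rw [Polynomial.map_zero]; exact h0)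
  exact (MvPolynomial.finSuccEquiv ℂ 1).injective (by rw [h1, map_zero])

theorem Ph_ne_zero {f : MvPolynomial (Fin 2) ℂ} (hf : f ≠ 0) : Ph f ≠ 0 :=
  (map_ne_zero_iff Ph Ph_inj).mpr hf

theorem Ph_X0 : Ph (MvPolynomial.X 0) = X := by
  rw [Ph_apply, MvPolynomial.finSuccEquiv_X_zero, Polynomial.map_X]

theorem Ph_X1 : Ph (MvPolynomial.X 1) = C xs := by
  rw [Ph_apply]
  have h4 : (MvPolynomial.finSuccEquiv ℂ 1) (MvPolynomial.X 1 : MvPolynomial (Fin 2) ℂ) =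
      C (MvPolynomial.X 0 : MvPolynomial (Fin 1) ℂ) :=
    MvPolynomial.finSuccEquiv_X_succ (j := (0 : Fin 1))
  rw [h4, Polynomial.map_C]
  congr 1
  exact MvPolynomial.aeval_X _ _

theorem Ph_base (p : ℂ[X]) :
    Ph (Polynomial.aeval (MvPolynomial.X 1 : MvPolynomial (Fin 2) ℂ) p) = C (aeval xs p) := by
  rw [← Polynomial.aeval_algHom_apply, Ph_X1]
  exact Polynomial.aeval_algebraMap_apply FOne[X] xs p

theorem xs_aeval_ne_zero {p : ℂ[X]} (hp : p ≠ 0) : aeval xs p ≠ 0 := fun h =>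
  xs_transc ⟨p, hp, h⟩

/-- the end of the argument: a transcendental substitution after which the conic has a point -/
theorem finish_slots (y1 : LTwo) (hy1 : Transc (F := FOne) y1) (a b : KTwo) (ha0 : a ≠ 0) (hb0 : b ≠ 0)
    (h : ∀ σ : KTwo →ₐ[ℂ] LTwo, (∀ f, σ (algebraMap (MvPolynomial (Fin 2) ℂ) KTwo f) = aeval y1 (Ph f)) →
      ∃ u v : LTwo, σ a * u ^ 2 + σ b * v ^ 2 = 1) :
    Nonempty
        (FractionRing
            (MvPolynomial (Fin 2) (FractionRing (MvPolynomial (Fin 2) ℂ)) ⧸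
              Ideal.span
                {(MvPolynomial.C a * MvPolynomial.X 0 ^ 2 +
                    MvPolynomial.C b * MvPolynomial.X 1 ^ 2 - 1 :
                  MvPolynomial (Fin 2) (FractionRing (MvPolynomial (Fin 2) ℂ)))})
          →ₐ[ℂ] FractionRing (MvPolynomial (Fin 3) ℂ)) := by
  classical
  obtain ⟨σ, hσ⟩ := subst_embed_gen 1 jx jx_inj y1 hy1
  obtain ⟨u, v, huv⟩ := h σ hσ
  have h2K : (2 : KTwo) ≠ 0 := by
    have := (map_ne_zero (algebraMap ℂ KTwo)).mpr (two_ne_zero : (2 : ℂ) ≠ 0)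
    rwa [map_ofNat] at this
  obtain ⟨Ψ⟩ := conic_embed h2K a b ha0 hb0 σ u v huv
  obtain ⟨s2⟩ := rational_step 1 (AlgHom.id ℂ FOne)
  obtain ⟨s3⟩ := rational_step 2 s2
  exact ⟨s3.comp Ψ⟩

theorem two_ne_zero_L : (2 : LTwo) ≠ 0 := by
  have := (map_ne_zero (algebraMap ℂ LTwo)).mpr (two_ne_zero : (2 : ℂ) ≠ 0)
  rwa [map_ofNat] at this

/-- a square of `ℂ(s)` stays a square -/
theorem base_isSquare {c : FOne} (hc : IsSquare c) (y1 : LTwo) : IsSquare (aeval y1 (C c) : LTwo) := by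
  rw [aeval_C]
  obtain ⟨r, rfl⟩ := hc
  exact ⟨algebraMap FOne LTwo r, map_mul _ _ _⟩

/-- a conic over `ℂ(x, y)` that gets a point over every field in which `x`, `x - 1` are squares
and in which the conic `A u² + (B² + A D) v² = 1` (`A, B, D` of degree at most four in `y`) has a
point -/
theorem main_slots_quartic (A B D : MvPolynomial (Fin 2) ℂ)
    (hA : A.degreeOf 0 ≤ 4) (hB : B.degreeOf 0 ≤ 4) (hD : D.degreeOf 0 ≤ 4)
    (hA0 : A ≠ 0) (hδ0 : B ^ 2 + A * D ≠ 0) (a b : KTwo) (ha0 : a ≠ 0) (hb0 : b ≠ 0)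
    (h : ∀ (M : Type) [Field M] (φ : KTwo →+* M),
      IsSquare (φ (algebraMap (MvPolynomial (Fin 2) ℂ) KTwo (MvPolynomial.X 1))) →
      IsSquare (φ (algebraMap (MvPolynomial (Fin 2) ℂ) KTwo (MvPolynomial.X 1 - 1))) →
      (∃ u v : M, φ (algebraMap (MvPolynomial (Fin 2) ℂ) KTwo A) * u ^ 2 +
        φ (algebraMap (MvPolynomial (Fin 2) ℂ) KTwo (B ^ 2 + A * D)) * v ^ 2 = 1) →
      ∃ u v : M, φ a * u ^ 2 + φ b * v ^ 2 = 1) :
    Nonempty
        (FractionRing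
            (MvPolynomial (Fin 2) (FractionRing (MvPolynomial (Fin 2) ℂ)) ⧸
              Ideal.span
                {(MvPolynomial.C a * MvPolynomial.X 0 ^ 2 +
                    MvPolynomial.C b * MvPolynomial.X 1 ^ 2 - 1 :
                  MvPolynomial (Fin 2) (FractionRing (MvPolynomial (Fin 2) ℂ)))})
          →ₐ[ℂ] FractionRing (MvPolynomial (Fin 3) ℂ)) := by
  classical
  have _ : CharZero FOne := charZero_of_injective_algebraMap (algebraMap ℂ FOne).injective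
  have hΦδ : Ph (B ^ 2 + A * D) = Ph B ^ 2 + Ph A * Ph D := by
    rw [map_add, map_mul, map_pow]
  obtain ⟨y1, hy1, hiso⟩ := split_quartic tsen_one (Ph A) (Ph B) (Ph D)
    ((Ph_natDegree A).trans hA) ((Ph_natDegree B).trans hB) ((Ph_natDegree D).trans hD)
    (Ph_ne_zero hA0) (by rw [← hΦδ]; exact Ph_ne_zero hδ0)
  rw [← hΦδ] at hiso
  refine finish_slots y1 hy1 a b ha0 hb0 (fun σ hσ => ?_)
  refine h LTwo (σ : KTwo →+* LTwo) ?_ ?_ ?_
  · show IsSquare (σ (algebraMap (MvPolynomial (Fin 2) ℂ) KTwo (MvPolynomial.X 1)))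
    rw [hσ, Ph_X1]
    exact base_isSquare xs_isSquare y1
  · show IsSquare (σ (algebraMap (MvPolynomial (Fin 2) ℂ) KTwo (MvPolynomial.X 1 - 1)))
    rw [hσ, map_sub, Ph_X1, map_one, ← C_1, ← C_sub]
    exact base_isSquare xs_sub_one_isSquare y1
  · have e1 : aeval y1 (Ph A) ≠ 0 := fun h0 => Ph_ne_zero hA0 (hy1 _ h0)
    have e2 : aeval y1 (Ph (B ^ 2 + A * D)) ≠ 0 := fun h0 => Ph_ne_zero hδ0 (hy1 _ h0)
    obtain ⟨u, v, huv⟩ := hiso.affine two_ne_zero_L e1 e2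
    refine ⟨u, v, ?_⟩
    show σ (algebraMap (MvPolynomial (Fin 2) ℂ) KTwo A) * u ^ 2 +
      σ (algebraMap (MvPolynomial (Fin 2) ℂ) KTwo (B ^ 2 + A * D)) * v ^ 2 = 1
    rw [hσ, hσ]
    exact huv

/-- the polynomial `p(x) y + q(x)` -/
noncomputable def linY (p q : ℂ[X]) : MvPolynomial (Fin 2) ℂ :=
  Polynomial.aeval (MvPolynomial.X 1 : MvPolynomial (Fin 2) ℂ) p * MvPolynomial.X 0 +
    Polynomial.aeval (MvPolynomial.X 1 : MvPolynomial (Fin 2) ℂ) q

theorem Ph_linY (p q : ℂ[X]) : Ph (linY p q) = C (aeval xs p) * X + C (aeval xs q) := by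
  rw [linY, map_add, map_mul, Ph_base, Ph_base, Ph_X0]

/-- a conic over `ℂ(x, y)` that gets a point over every field in which `x`, `x - 1`,
`α = α₁(x) y + α₀(x)`, `β = β₁(x) y + β₀(x)` are squares and in which the conic
`A u² + (B² + A D) v² = 1` (`A, B, D` of degree at most one in `y`) has a point -/
theorem main_slots_linear (α1 α0 β1 β0 : ℂ[X]) (hα1 : α1 ≠ 0) (hβ1 : β1 ≠ 0)
    (hΔ : α1 * β0 ≠ α0 * β1) (A B D : MvPolynomial (Fin 2) ℂ)
    (hA : A.degreeOf 0 ≤ 1) (hB : B.degreeOf 0 ≤ 1) (hD : D.degreeOf 0 ≤ 1)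
    (hA0 : A ≠ 0) (hδ0 : B ^ 2 + A * D ≠ 0) (a b : KTwo) (ha0 : a ≠ 0) (hb0 : b ≠ 0)
    (h : ∀ (M : Type) [Field M] (φ : KTwo →+* M),
      IsSquare (φ (algebraMap (MvPolynomial (Fin 2) ℂ) KTwo (MvPolynomial.X 1))) →
      IsSquare (φ (algebraMap (MvPolynomial (Fin 2) ℂ) KTwo (MvPolynomial.X 1 - 1))) →
      IsSquare (φ (algebraMap (MvPolynomial (Fin 2) ℂ) KTwo (linY α1 α0))) →
      IsSquare (φ (algebraMap (MvPolynomial (Fin 2) ℂ) KTwo (linY β1 β0))) →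
      (∃ u v : M, φ (algebraMap (MvPolynomial (Fin 2) ℂ) KTwo A) * u ^ 2 +
        φ (algebraMap (MvPolynomial (Fin 2) ℂ) KTwo (B ^ 2 + A * D)) * v ^ 2 = 1) →
      ∃ u v : M, φ a * u ^ 2 + φ b * v ^ 2 = 1) :
    Nonempty
        (FractionRing
            (MvPolynomial (Fin 2) (FractionRing (MvPolynomial (Fin 2) ℂ)) ⧸
              Ideal.span
                {(MvPolynomial.C a * MvPolynomial.X 0 ^ 2 +
                    MvPolynomial.C b * MvPolynomial.X 1 ^ 2 - 1 :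
                  MvPolynomial (Fin 2) (FractionRing (MvPolynomial (Fin 2) ℂ)))})
          →ₐ[ℂ] FractionRing (MvPolynomial (Fin 3) ℂ)) := by
  classical
  have _ : CharZero FOne := charZero_of_injective_algebraMap (algebraMap ℂ FOne).injective
  have hΦδ : Ph (B ^ 2 + A * D) = Ph B ^ 2 + Ph A * Ph D := by
    rw [map_add, map_mul, map_pow]
  have hΔ' : aeval xs α1 * aeval xs β0 ≠ aeval xs α0 * aeval xs β1 := by
    intro h0
    have h1 : aeval xs (α1 * β0 - α0 * β1) = 0 := by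
      rw [map_sub, map_mul, map_mul, h0, sub_self]
    exact xs_aeval_ne_zero (sub_ne_zero.mpr hΔ) h1
  obtain ⟨y1, hy1, hsα, hsβ, hiso⟩ := core_slots tsen_one (aeval xs α1) (aeval xs α0)
    (aeval xs β1) (aeval xs β0) (xs_aeval_ne_zero hα1) (xs_aeval_ne_zero hβ1) hΔ'
    (Ph A) (Ph B) (Ph D)
    ((Ph_natDegree A).trans hA) ((Ph_natDegree B).trans hB) ((Ph_natDegree D).trans hD)
    (Ph_ne_zero hA0) (by rw [← hΦδ]; exact Ph_ne_zero hδ0)
  rw [← hΦδ] at hiso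
  refine finish_slots y1 hy1 a b ha0 hb0 (fun σ hσ => ?_)
  refine h LTwo (σ : KTwo →+* LTwo) ?_ ?_ ?_ ?_ ?_
  · show IsSquare (σ (algebraMap (MvPolynomial (Fin 2) ℂ) KTwo (MvPolynomial.X 1)))
    rw [hσ, Ph_X1]
    exact base_isSquare xs_isSquare y1
  · show IsSquare (σ (algebraMap (MvPolynomial (Fin 2) ℂ) KTwo (MvPolynomial.X 1 - 1)))
    rw [hσ, map_sub, Ph_X1, map_one, ← C_1, ← C_sub]
    exact base_isSquare xs_sub_one_isSquare y1
  · show IsSquare (σ (algebraMap (MvPolynomial (Fin 2) ℂ) KTwo (linY α1 α0)))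
    rw [hσ, Ph_linY, map_add, map_mul, aeval_C, aeval_C, aeval_X]
    exact hsα
  · show IsSquare (σ (algebraMap (MvPolynomial (Fin 2) ℂ) KTwo (linY β1 β0)))
    rw [hσ, Ph_linY, map_add, map_mul, aeval_C, aeval_C, aeval_X]
    exact hsβ
  · have e1 : aeval y1 (Ph A) ≠ 0 := fun h0 => Ph_ne_zero hA0 (hy1 _ h0)
    have e2 : aeval y1 (Ph (B ^ 2 + A * D)) ≠ 0 := fun h0 => Ph_ne_zero hδ0 (hy1 _ h0)
    obtain ⟨u, v, huv⟩ := hiso.affine two_ne_zero_L e1 e2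
    refine ⟨u, v, ?_⟩
    show σ (algebraMap (MvPolynomial (Fin 2) ℂ) KTwo A) * u ^ 2 +
      σ (algebraMap (MvPolynomial (Fin 2) ℂ) KTwo (B ^ 2 + A * D)) * v ^ 2 = 1
    rw [hσ, hσ]
    exact huv

end Pool.Agent.Lib.MP_2095a9_ag
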