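import Pool.Agent.Lib.MP_2095a9_ag.SlotsCor

set_option autoImplicit false

namespace Pool.Agent.Lib.MP_2095a9_ag

open Polynomial

/-- `b` is a value of `c² - a d²` -/
def IsNm {M : Type*} [Field M] (a b : M) : Prop := ∃ c d : M, b = c ^ 2 - a * d ^ 2

theorem IsNm.mul {M : Type*} [Field M] {a b b' : M} (h : IsNm a b) (h' : IsNm a b') :
    IsNm a (b * b') := by
  obtain ⟨c, d, rfl⟩ := h
  obtain ⟨c', d', rfl⟩ := h'
  exact ⟨c * c' + a * d * d', c * d' + c' * d, by ring⟩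

theorem IsNm.one {M : Type*} [Field M] (a : M) : IsNm a (1 : M) := ⟨1, 0, by ring⟩

theorem IsNm.sq {M : Type*} [Field M] (a q : M) : IsNm a (q ^ 2) := ⟨q, 0, by ring⟩

theorem IsNm.factor {M : Type*} [Field M] {a γ p : M} (j : M) (hj : j ^ 2 = -1)
    (hγ : IsSquare γ) : IsNm a (γ * (a - γ * p ^ 2)) := by
  obtain ⟨r, rfl⟩ := hγ
  refine ⟨j * r * (r * p), j * r, ?_⟩
  linear_combination (-(r ^ 2 * (r * p) ^ 2 - a * r ^ 2)) * hj

theorem IsNm.prod {M : Type*} [Field M] {a : M} {n : ℕ} (f : Fin n → M)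
    (h : ∀ i, IsNm a (f i)) : IsNm a (∏ i, f i) :=
  Finset.prod_induction f (IsNm a) (fun _ _ => IsNm.mul) (IsNm.one a) (fun i _ => h i)

theorem IsNm.point {M : Type*} [Field M] (h2 : (2 : M) ≠ 0) {a b : M} (ha : a ≠ 0) (hb : b ≠ 0)
    (h : IsNm a b) : ∃ u v : M, a * u ^ 2 + b * v ^ 2 = 1 := by
  obtain ⟨c, d, h⟩ := h
  exact (Iso.of_norm_form (a := a) (U := c) (W := d) h.symm).affine h2 ha hb

theorem IsNm.of_point {M : Type*} [Field M] (h2 : (2 : M) ≠ 0) {a b : M} (ha : a ≠ 0)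
    (hb : b ≠ 0) (h : ∃ u v : M, a * u ^ 2 + b * v ^ 2 = 1) : IsNm a b := by
  obtain ⟨u, v, h⟩ := h
  have h1 : Iso a b := ⟨u, v, 1, fun h => one_ne_zero h.2.2, by rw [h]; ring⟩
  obtain ⟨U, W, h3⟩ := h1.norm_form h2 ha hb
  exact ⟨U, W, h3.symm⟩

/-- the point on the conic of an explicit family over a field in which the slots are squares -/
theorem family_point {K : Type*} [Field K] [Algebra ℂ K] {M : Type} [Field M] (φ : K →+* M)
    (a b b0 q : K) (ha0 : a ≠ 0) (hb0 : b ≠ 0) {n : ℕ} (γ p : Fin n → K)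
    (hb : b = b0 * q ^ 2 * ∏ i, γ i * (a - γ i * p i ^ 2))
    (hγ : ∀ i, IsSquare (φ (γ i)))
    (hp : ∃ u v : M, φ a * u ^ 2 + φ b0 * v ^ 2 = 1) :
    ∃ u v : M, φ a * u ^ 2 + φ b * v ^ 2 = 1 := by
  have h2K : (2 : K) ≠ 0 := by
    have := (map_ne_zero (algebraMap ℂ K)).mpr (two_ne_zero : (2 : ℂ) ≠ 0)
    rwa [map_ofNat] at this
  have h2M : (2 : M) ≠ 0 := by
    have := (map_ne_zero φ).mpr h2K
    rwa [map_ofNat] at this
  have hb00 : b0 ≠ 0 := by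
    rintro rfl
    exact hb0 (by rw [hb, zero_mul, zero_mul])
  have hφa : φ a ≠ 0 := (map_ne_zero φ).mpr ha0
  set j : M := φ (algebraMap ℂ K Complex.I) with hj
  have hj2 : j ^ 2 = -1 := by
    rw [hj, ← map_pow, ← map_pow, Complex.I_sq, map_neg, map_neg, map_one, map_one]
  refine IsNm.point h2M hφa ((map_ne_zero φ).mpr hb0) ?_
  rw [hb, map_mul, map_mul, map_pow, map_prod]
  refine ((IsNm.of_point h2M hφa ((map_ne_zero φ).mpr hb00) hp).mul (IsNm.sq _ _)).mul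
    (IsNm.prod _ (fun i => ?_))
  rw [map_mul, map_sub, map_mul, map_pow]
  exact IsNm.factor j hj2 (hγ i)

/-- Explicit family of FourSlots: `a` any nonzero rational function, `q` and `p_i` any rational
functions, `γ_i` monomials in `x`, `x - 1`, `α`, `β` and `b = q² ∏ γ_i (a - γ_i p_i²)`. -/
theorem cor_norms (α1 α0 β1 β0 : ℂ[X]) (hα1 : α1 ≠ 0) (hβ1 : β1 ≠ 0)
    (hΔ : α1 * β0 ≠ α0 * β1) (a b q : FractionRing (MvPolynomial (Fin 2) ℂ))
    (n : ℕ) (e1 e2 e3 e4 : Fin n → ℕ) (γ p : Fin n → FractionRing (MvPolynomial (Fin 2) ℂ))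
    (hγ : ∀ i, γ i = algebraMap (MvPolynomial (Fin 2) ℂ) (FractionRing (MvPolynomial (Fin 2) ℂ))
      (MvPolynomial.X 1 ^ e1 i * (MvPolynomial.X 1 - 1) ^ e2 i * linY α1 α0 ^ e3 i *
        linY β1 β0 ^ e4 i))
    (hb : b = q ^ 2 * ∏ i, γ i * (a - γ i * p i ^ 2))
    (ha0 : a ≠ 0) (hb0 : b ≠ 0) :
    Nonempty
        (FractionRing
            (MvPolynomial (Fin 2) (FractionRing (MvPolynomial (Fin 2) ℂ)) ⧸
              Ideal.span
                {(MvPolynomial.C a * MvPolynomial.X 0 ^ 2 +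
                    MvPolynomial.C b * MvPolynomial.X 1 ^ 2 - 1 :
                  MvPolynomial (Fin 2) (FractionRing (MvPolynomial (Fin 2) ℂ)))})
          →ₐ[ℂ] FractionRing (MvPolynomial (Fin 3) ℂ)) := by
  classical
  have hd1 : (1 : MvPolynomial (Fin 2) ℂ).degreeOf 0 ≤ 1 := by
    rw [← MvPolynomial.C_1, MvPolynomial.degreeOf_C]; omega
  have hd0 : (0 : MvPolynomial (Fin 2) ℂ).degreeOf 0 ≤ 1 := by
    rw [MvPolynomial.degreeOf_zero]; omega
  refine main_slots_linear α1 α0 β1 β0 hα1 hβ1 hΔ 1 0 1 hd1 hd0 hd1 one_ne_zero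
    (by simp) a b ha0 hb0 ?_
  intro M _ φ hs1 hs2 hs3 hs4 _
  refine family_point φ a b 1 q ha0 hb0 γ p (by rw [hb, one_mul]) (fun i => ?_) ?_
  · rw [hγ, map_mul, map_mul, map_mul, map_mul, map_mul, map_mul, map_pow, map_pow, map_pow,
      map_pow, map_pow, map_pow, map_pow, map_pow]
    exact ((hs1.pow _).mul (hs2.pow _)).mul (hs3.pow _) |>.mul (hs4.pow _)
  · exact ⟨0, 1, by rw [map_one]; ring⟩

/-- Explicit family of FourSlots with the fifth symbol: `a = A`,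
`b = (B² + A D) q² ∏ γ_i (A - γ_i p_i²)`. -/
theorem cor_norms_linear (α1 α0 β1 β0 : ℂ[X]) (hα1 : α1 ≠ 0) (hβ1 : β1 ≠ 0)
    (hΔ : α1 * β0 ≠ α0 * β1) (A B D : MvPolynomial (Fin 2) ℂ)
    (hA : A.degreeOf 0 ≤ 1) (hB : B.degreeOf 0 ≤ 1) (hD : D.degreeOf 0 ≤ 1)
    (a b q : FractionRing (MvPolynomial (Fin 2) ℂ))
    (n : ℕ) (e1 e2 e3 e4 : Fin n → ℕ) (γ p : Fin n → FractionRing (MvPolynomial (Fin 2) ℂ))
    (hγ : ∀ i, γ i = algebraMap (MvPolynomial (Fin 2) ℂ) (FractionRing (MvPolynomial (Fin 2) ℂ))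
      (MvPolynomial.X 1 ^ e1 i * (MvPolynomial.X 1 - 1) ^ e2 i * linY α1 α0 ^ e3 i *
        linY β1 β0 ^ e4 i))
    (ha : a = algebraMap (MvPolynomial (Fin 2) ℂ) (FractionRing (MvPolynomial (Fin 2) ℂ)) A)
    (hb : b = algebraMap (MvPolynomial (Fin 2) ℂ) (FractionRing (MvPolynomial (Fin 2) ℂ))
      (B ^ 2 + A * D) * q ^ 2 * ∏ i, γ i * (a - γ i * p i ^ 2))
    (ha0 : a ≠ 0) (hb0 : b ≠ 0) :
    Nonempty
        (FractionRing
            (MvPolynomial (Fin 2) (FractionRing (MvPolynomial (Fin 2) ℂ)) ⧸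
              Ideal.span
                {(MvPolynomial.C a * MvPolynomial.X 0 ^ 2 +
                    MvPolynomial.C b * MvPolynomial.X 1 ^ 2 - 1 :
                  MvPolynomial (Fin 2) (FractionRing (MvPolynomial (Fin 2) ℂ)))})
          →ₐ[ℂ] FractionRing (MvPolynomial (Fin 3) ℂ)) := by
  classical
  have hA0 : A ≠ 0 := by
    rintro rfl; exact ha0 (by rw [ha, map_zero])
  have hδ0 : B ^ 2 + A * D ≠ 0 := by
    intro h0; exact hb0 (by rw [hb, h0, map_zero, zero_mul, zero_mul])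
  refine main_slots_linear α1 α0 β1 β0 hα1 hβ1 hΔ A B D hA hB hD hA0 hδ0 a b ha0 hb0 ?_
  intro M _ φ hs1 hs2 hs3 hs4 hp
  refine family_point φ a b _ q ha0 hb0 γ p hb (fun i => ?_) (by rw [ha]; exact hp)
  rw [hγ, map_mul, map_mul, map_mul, map_mul, map_mul, map_mul, map_pow, map_pow, map_pow,
    map_pow, map_pow, map_pow, map_pow, map_pow]
  exact ((hs1.pow _).mul (hs2.pow _)).mul (hs3.pow _) |>.mul (hs4.pow _)

/-- Explicit family of QuarticSlots: `a = A`, `b = (B² + A D) q² ∏ γ_i (A - γ_i p_i²)`, `A, B, D`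
of degree at most four in `y`, `γ_i` monomials in `x`, `x - 1`, and `q`, `p_i` any rational
functions of `x` and `y`. -/
theorem cor_norms_quartic (A B D : MvPolynomial (Fin 2) ℂ)
    (hA : A.degreeOf 0 ≤ 4) (hB : B.degreeOf 0 ≤ 4) (hD : D.degreeOf 0 ≤ 4)
    (a b q : FractionRing (MvPolynomial (Fin 2) ℂ))
    (n : ℕ) (e1 e2 : Fin n → ℕ) (γ p : Fin n → FractionRing (MvPolynomial (Fin 2) ℂ))
    (hγ : ∀ i, γ i = algebraMap (MvPolynomial (Fin 2) ℂ) (FractionRing (MvPolynomial (Fin 2) ℂ))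
      (MvPolynomial.X 1 ^ e1 i * (MvPolynomial.X 1 - 1) ^ e2 i))
    (ha : a = algebraMap (MvPolynomial (Fin 2) ℂ) (FractionRing (MvPolynomial (Fin 2) ℂ)) A)
    (hb : b = algebraMap (MvPolynomial (Fin 2) ℂ) (FractionRing (MvPolynomial (Fin 2) ℂ))
      (B ^ 2 + A * D) * q ^ 2 * ∏ i, γ i * (a - γ i * p i ^ 2))
    (ha0 : a ≠ 0) (hb0 : b ≠ 0) :
    Nonempty
        (FractionRing
            (MvPolynomial (Fin 2) (FractionRing (MvPolynomial (Fin 2) ℂ)) ⧸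
              Ideal.span
                {(MvPolynomial.C a * MvPolynomial.X 0 ^ 2 +
                    MvPolynomial.C b * MvPolynomial.X 1 ^ 2 - 1 :
                  MvPolynomial (Fin 2) (FractionRing (MvPolynomial (Fin 2) ℂ)))})
          →ₐ[ℂ] FractionRing (MvPolynomial (Fin 3) ℂ)) := by
  classical
  have hA0 : A ≠ 0 := by
    rintro rfl; exact ha0 (by rw [ha, map_zero])
  have hδ0 : B ^ 2 + A * D ≠ 0 := by
    intro h0; exact hb0 (by rw [hb, h0, map_zero, zero_mul, zero_mul])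
  refine main_slots_quartic A B D hA hB hD hA0 hδ0 a b ha0 hb0 ?_
  intro M _ φ hs1 hs2 hp
  refine family_point φ a b _ q ha0 hb0 γ p hb (fun i => ?_) (by rw [ha]; exact hp)
  rw [hγ, map_mul, map_mul, map_pow, map_pow, map_pow, map_pow]
  exact (hs1.pow _).mul (hs2.pow _)

end Pool.Agent.Lib.MP_2095a9_ag
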