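import Pool.Agent.Lib.MP_2095a9_ag.SlotsBase

set_option autoImplicit false

namespace Pool.Agent.Lib.MP_2095a9_ag

open Polynomial

section Homog

variable {R S : Type*} [CommRing R] [CommRing S]

/-- `Σ gᵢ pⁱ q^(K - i)` for a polynomial `g = Σ gᵢ Xⁱ` -/
noncomputable def hg (p q : ℂ[X]) (K : ℕ) (g : ℂ[X]) : ℂ[X] :=
  ∑ i ∈ Finset.range (K + 1), C (g.coeff i) * p ^ i * q ^ (K - i)

/-- evaluation of the homogenised polynomial -/
theorem hg_eval (c : ℂ →+* S) (s x : S) (p q : ℂ[X]) (K : ℕ) (g : ℂ[X]) (hK : g.natDegree ≤ K)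
    (hx : x * eval₂ c s q = eval₂ c s p) :
    eval₂ c s (hg p q K g) = eval₂ c s q ^ K * eval₂ c x g := by
  rw [hg, eval₂_finsetSum, Polynomial.eval₂_eq_sum_range' c (Nat.lt_succ_of_le hK) x,
    Finset.mul_sum]
  refine Finset.sum_congr rfl fun i hi => ?_
  have hiK : i ≤ K := Nat.lt_succ_iff.mp (Finset.mem_range.mp hi)
  rw [eval₂_mul, eval₂_mul, eval₂_C, eval₂_pow, eval₂_pow, ← hx, mul_pow]
  have e1 : eval₂ c s q ^ K = eval₂ c s q ^ i * eval₂ c s q ^ (K - i) := by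
    rw [← pow_add, Nat.add_sub_cancel' hiK]
  rw [e1]
  ring

/-- the same for a polynomial in `x, y`: `Σ coeff y^(d 0) p^(d 1) q^(K - d 1)` -/
noncomputable def hm (p q : ℂ[X]) (K : ℕ) (f : MvPolynomial (Fin 2) ℂ) : MvPolynomial (Fin 2) ℂ :=
  ∑ d ∈ f.support, MvPolynomial.C (f.coeff d) * (MvPolynomial.X 0 ^ d 0 *
    Polynomial.aeval (MvPolynomial.X 1) (p ^ d 1 * q ^ (K - d 1)))

theorem degreeOf_base (g : ℂ[X]) :
    (Polynomial.aeval (MvPolynomial.X 1 : MvPolynomial (Fin 2) ℂ) g).degreeOf 0 = 0 := by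
  classical
  rw [Polynomial.aeval_eq_sum_range]
  refine Nat.eq_zero_of_le_zero ((MvPolynomial.degreeOf_sum_le _ _ _).trans ?_)
  refine Finset.sup_le fun i _ => ?_
  rw [MvPolynomial.smul_eq_C_mul]
  refine (MvPolynomial.degreeOf_C_mul_le _ _ _).trans ?_
  rw [MvPolynomial.degreeOf_X_pow_of_ne i (by decide)]

theorem hm_degreeOf (p q : ℂ[X]) (K : ℕ) (f : MvPolynomial (Fin 2) ℂ) :
    (hm p q K f).degreeOf 0 ≤ f.degreeOf 0 := by
  classical
  refine (MvPolynomial.degreeOf_sum_le _ _ _).trans ?_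
  refine Finset.sup_le fun d hd => ?_
  have h2 : d 0 ≤ f.degreeOf 0 := by
    rw [MvPolynomial.degreeOf_eq_sup]
    exact Finset.le_sup (f := fun m : Fin 2 →₀ ℕ => m 0) hd
  refine (MvPolynomial.degreeOf_C_mul_le _ _ _).trans ?_
  refine (MvPolynomial.degreeOf_mul_le _ _ _).trans ?_
  rw [degreeOf_base, MvPolynomial.degreeOf_X_self_pow]
  exact h2

theorem hm_eval {M : Type} [Field M] (φ : KTwo →+* M) (ε : MvPolynomial (Fin 2) ℂ →+* M)
    (p q : ℂ[X]) (hc : ∀ c : ℂ, ε (MvPolynomial.C c) = φ (algebraMap ℂ KTwo c))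
    (hy : ε (MvPolynomial.X 0) =
      φ (algebraMap (MvPolynomial (Fin 2) ℂ) KTwo (MvPolynomial.X 0)))
    (hx : φ (algebraMap (MvPolynomial (Fin 2) ℂ) KTwo (MvPolynomial.X 1)) *
      ε (Polynomial.aeval (MvPolynomial.X 1) q) = ε (Polynomial.aeval (MvPolynomial.X 1) p))
    (K : ℕ) (f : MvPolynomial (Fin 2) ℂ) (hK : f.degreeOf 1 ≤ K) :
    ε (hm p q K f) = ε (Polynomial.aeval (MvPolynomial.X 1) q) ^ K *
      φ (algebraMap (MvPolynomial (Fin 2) ℂ) KTwo f) := by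
  classical
  have h1 : f = ∑ d ∈ f.support, MvPolynomial.C (f.coeff d) *
      (MvPolynomial.X 0 ^ d 0 * MvPolynomial.X 1 ^ d 1) := by
    conv_lhs => rw [MvPolynomial.as_sum f]
    refine Finset.sum_congr rfl fun d _ => ?_
    rw [MvPolynomial.monomial_eq, Finsupp.prod_fintype _ _ (fun i => pow_zero _),
      Fin.prod_univ_two]
  conv_rhs => rw [h1]
  rw [hm, map_sum, map_sum, map_sum, Finset.mul_sum]
  refine Finset.sum_congr rfl fun d hd => ?_
  have hdK : d 1 ≤ K := by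
    refine le_trans ?_ hK
    rw [MvPolynomial.degreeOf_eq_sup]
    exact Finset.le_sup (f := fun m : Fin 2 →₀ ℕ => m 1) hd
  simp only [map_mul, map_pow, hc, hy, ← hx, mul_pow]
  have e1 : ε (Polynomial.aeval (MvPolynomial.X 1) q) ^ K =
      ε (Polynomial.aeval (MvPolynomial.X 1) q) ^ d 1 *
        ε (Polynomial.aeval (MvPolynomial.X 1) q) ^ (K - d 1) := by
    rw [← pow_add, Nat.add_sub_cancel' hdK]
  have e2 : algebraMap (MvPolynomial (Fin 2) ℂ) KTwo (MvPolynomial.C (f.coeff d)) =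
      algebraMap ℂ KTwo (f.coeff d) := rfl
  rw [e1, e2]
  ring

end Homog

/-- the numerator and the denominator of `((s² + 1) / (2 s))²` -/
noncomputable def pO : ℂ[X] := (X ^ 2 + 1) ^ 2

/-- see `pO` -/
noncomputable def qO : ℂ[X] := (C 2 * X) ^ 2

theorem qO_ne : qO ≠ 0 := by
  rw [qO]
  exact pow_ne_zero 2 (mul_ne_zero (C_ne_zero.mpr two_ne_zero) X_ne_zero)

theorem pO_ne (c : ℂ) : pO ≠ C c * qO := by
  intro h
  have h1 := congrArg (Polynomial.eval 0) h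
  rw [pO, qO] at h1
  simp at h1

theorem hg_aeval (K : ℕ) (g : ℂ[X]) (hK : g.natDegree ≤ K) :
    (aeval sv (hg pO qO K g) : FOne) =
      aeval sv qO ^ K * aeval (aeval sv pO / aeval sv qO : FOne) g :=
  hg_eval (algebraMap ℂ FOne) sv (aeval sv pO / aeval sv qO : FOne) pO qO K g hK
    (div_mul_cancel₀ _ (aeval_sv_ne_zero qO_ne))

theorem ratio_ne {g : ℂ[X]} (hg0 : g ≠ 0) :
    (aeval (aeval sv pO / aeval sv qO : FOne) g : FOne) ≠ 0 := fun h =>
  ratio_transc qO_ne pO_ne ⟨g, hg0, h⟩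

theorem hg_ne {K : ℕ} {g : ℂ[X]} (hK : g.natDegree ≤ K) (hg0 : g ≠ 0) : hg pO qO K g ≠ 0 := by
  intro h
  have h1 := hg_aeval K g hK
  rw [h, map_zero] at h1
  exact mul_ne_zero (pow_ne_zero _ (aeval_sv_ne_zero qO_ne)) (ratio_ne hg0) h1.symm

/-- a field with both evaluations, used to see that the homogenised polynomials do not vanish -/
theorem exists_eval : ∃ (φ : KTwo →+* LTwo) (ε : MvPolynomial (Fin 2) ℂ →+* LTwo),
    (∀ c : ℂ, ε (MvPolynomial.C c) = φ (algebraMap ℂ KTwo c)) ∧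
    ε (MvPolynomial.X 0) =
      φ (algebraMap (MvPolynomial (Fin 2) ℂ) KTwo (MvPolynomial.X 0)) ∧
    ε (Polynomial.aeval (MvPolynomial.X 1) qO) ≠ 0 ∧
    φ (algebraMap (MvPolynomial (Fin 2) ℂ) KTwo (MvPolynomial.X 1)) *
      ε (Polynomial.aeval (MvPolynomial.X 1) qO) =
        ε (Polynomial.aeval (MvPolynomial.X 1) pO) := by
  have hy1 : Transc (F := FOne) (algebraMap FOne[X] LTwo X) := by
    intro p hp
    have h1 : aeval (algebraMap FOne[X] LTwo X) p = algebraMap FOne[X] LTwo p := by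
      rw [Polynomial.aeval_algebraMap_apply, Polynomial.aeval_X_left_apply]
    rw [h1] at hp
    exact (map_eq_zero_iff _ (IsFractionRing.injective FOne[X] LTwo)).mp hp
  obtain ⟨σ, hσ⟩ := subst_embed_gen 1 (jr (aeval sv pO / aeval sv qO : FOne))
    (jr_inj (ratio_transc qO_ne pO_ne)) _ hy1
  obtain ⟨g1, g2, g3, g4⟩ := evL_spec qO_ne _ σ hσ
  exact ⟨_, _, g1, g2, g3, g4⟩

/-- the theorem with the slots `x`, `x - 1` and data in `ℂ[x, y]` as the special case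
`x = ((s² + 1) / (2 s))²` of the theorem with a general base change -/
theorem slots_of_base (α1 α0 β1 β0 : ℂ[X]) (hα1 : α1 ≠ 0) (hβ1 : β1 ≠ 0)
    (hΔ : α1 * β0 ≠ α0 * β1) (A B D : MvPolynomial (Fin 2) ℂ)
    (hA : A.degreeOf 0 ≤ 1) (hB : B.degreeOf 0 ≤ 1) (hD : D.degreeOf 0 ≤ 1)
    (hA0 : A ≠ 0) (hδ0 : B ^ 2 + A * D ≠ 0) (a b : KTwo) (ha0 : a ≠ 0) (hb0 : b ≠ 0)
    (h : ∀ (M : Type) [Field M] (φ : KTwo →+* M),
      IsSquare (φ (algebraMap (MvPolynomial (Fin 2) ℂ) KTwo (MvPolynomial.X 1))) →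
      IsSquare (φ (algebraMap (MvPolynomial (Fin 2) ℂ) KTwo (MvPolynomial.X 1 - 1))) →
      IsSquare (φ (algebraMap (MvPolynomial (Fin 2) ℂ) KTwo (linY α1 α0))) →
      IsSquare (φ (algebraMap (MvPolynomial (Fin 2) ℂ) KTwo (linY β1 β0))) →
      (∃ u v : M, φ (algebraMap (MvPolynomial (Fin 2) ℂ) KTwo A) * u ^ 2 +
        φ (algebraMap (MvPolynomial (Fin 2) ℂ) KTwo (B ^ 2 + A * D)) * v ^ 2 = 1) →
      ∃ u v : M, φ a * u ^ 2 + φ b * v ^ 2 = 1) :
    Nonempty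
        (FractionRing
            (MvPolynomial (Fin 2) (FractionRing (MvPolynomial (Fin 2) ℂ)) ⧸
              Ideal.span
                {(MvPolynomial.C a * MvPolynomial.X 0 ^ 2 +
                    MvPolynomial.C b * MvPolynomial.X 1 ^ 2 - 1 :
                  MvPolynomial (Fin 2) (FractionRing (MvPolynomial (Fin 2) ℂ)))})
          →ₐ[ℂ] FractionRing (MvPolynomial (Fin 3) ℂ)) := by
  classical
  set k : ℕ := α1.natDegree + α0.natDegree + β1.natDegree + β0.natDegree + A.degreeOf 1 +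
    B.degreeOf 1 + D.degreeOf 1 with hk
  have hK : ∀ i, i ≤ k → i ≤ 2 * k := fun i hi => by omega
  have kα1 := hK α1.natDegree (by omega)
  have kα0 := hK α0.natDegree (by omega)
  have kβ1 := hK β1.natDegree (by omega)
  have kβ0 := hK β0.natDegree (by omega)
  have kA := hK (A.degreeOf 1) (by omega)
  have kB := hK (B.degreeOf 1) (by omega)
  have kD := hK (D.degreeOf 1) (by omega)
  obtain ⟨φ0, ε0, g1, g2, g3, g4⟩ := exists_eval
  have hφι : ∀ f : MvPolynomial (Fin 2) ℂ, f ≠ 0 →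
      φ0 (algebraMap (MvPolynomial (Fin 2) ℂ) KTwo f) ≠ 0 := fun f hf =>
    (map_ne_zero φ0).mpr ((map_ne_zero_iff _ (IsFractionRing.injective _ _)).mpr hf)
  refine main_base_linear pO qO qO_ne pO_ne (hg pO qO (2 * k) α1) (hg pO qO (2 * k) α0)
    (hg pO qO (2 * k) β1) (hg pO qO (2 * k) β0) (hg_ne kα1 hα1) (hg_ne kβ1 hβ1) ?_
    (hm pO qO (2 * k) A) (hm pO qO (2 * k) B) (hm pO qO (2 * k) D)
    ((hm_degreeOf _ _ _ A).trans hA) ((hm_degreeOf _ _ _ B).trans hB)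
    ((hm_degreeOf _ _ _ D).trans hD) ?_ ?_ a b ha0 hb0 ?_
  · intro h0
    have h1 : (aeval sv (hg pO qO (2 * k) α1) * aeval sv (hg pO qO (2 * k) β0) : FOne) =
        aeval sv (hg pO qO (2 * k) α0) * aeval sv (hg pO qO (2 * k) β1) := by
      rw [← map_mul, ← map_mul, h0]
    rw [hg_aeval _ _ kα1, hg_aeval _ _ kβ0, hg_aeval _ _ kα0, hg_aeval _ _ kβ1] at h1
    have h2 : (aeval (aeval sv pO / aeval sv qO : FOne) (α1 * β0 - α0 * β1) : FOne) ≠ 0 :=
      ratio_ne (sub_ne_zero.mpr hΔ)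
    apply h2
    rw [map_sub, map_mul, map_mul]
    have h3 : (aeval sv qO : FOne) ^ (2 * k) ≠ 0 := pow_ne_zero _ (aeval_sv_ne_zero qO_ne)
    apply mul_left_cancel₀ (mul_ne_zero h3 h3)
    linear_combination h1
  · intro h0
    have h1 := hm_eval φ0 ε0 pO qO g1 g2 g4 (2 * k) A kA
    rw [h0, map_zero] at h1
    exact mul_ne_zero (pow_ne_zero _ g3) (hφι A hA0) h1.symm
  · intro h0
    have h1 := congrArg ε0 h0
    rw [map_add, map_mul, map_pow, hm_eval φ0 ε0 pO qO g1 g2 g4 (2 * k) A kA,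
      hm_eval φ0 ε0 pO qO g1 g2 g4 (2 * k) B kB, hm_eval φ0 ε0 pO qO g1 g2 g4 (2 * k) D kD,
      map_zero] at h1
    have h2 := hφι _ hδ0
    rw [map_add, map_mul, map_pow, map_add, map_mul, map_pow] at h2
    refine mul_ne_zero (mul_ne_zero (pow_ne_zero (2 * k) g3) (pow_ne_zero (2 * k) g3)) h2 ?_
    rw [← h1]
    ring
  intro M _ φ ε hc hy hq0 hx hsα hsβ hpt
  have hxq : ε (Polynomial.aeval (MvPolynomial.X 1) qO) = (2 * ε (MvPolynomial.X 1)) ^ 2 := by
    rw [qO, map_pow, map_pow, map_mul, map_mul, aeval_X, aeval_C, map_ofNat, map_ofNat]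
  have hxp : ε (Polynomial.aeval (MvPolynomial.X 1) pO) = (ε (MvPolynomial.X 1) ^ 2 + 1) ^ 2 := by
    rw [pO, map_pow, map_pow, map_add, map_add, map_pow, map_pow, aeval_X, map_one, map_one]
  have h2s : 2 * ε (MvPolynomial.X 1) ≠ 0 := by
    intro h0
    exact hq0 (by rw [hxq, h0]; ring)
  have hx' := hx
  rw [hxq, hxp] at hx'
  have hlin : ∀ f1 f0 : ℂ[X], f1.natDegree ≤ 2 * k → f0.natDegree ≤ 2 * k →
      ε (linY (hg pO qO (2 * k) f1) (hg pO qO (2 * k) f0)) =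
      ε (Polynomial.aeval (MvPolynomial.X 1) qO) ^ (2 * k) *
        φ (algebraMap (MvPolynomial (Fin 2) ℂ) KTwo (linY f1 f0)) := by
    intro f1 f0 h1 h0
    have h3 : ∀ g : ℂ[X], g.natDegree ≤ 2 * k →
        ε (Polynomial.aeval (MvPolynomial.X 1) (hg pO qO (2 * k) g)) =
        ε (Polynomial.aeval (MvPolynomial.X 1) qO) ^ (2 * k) *
          φ (algebraMap (MvPolynomial (Fin 2) ℂ) KTwo
            (Polynomial.aeval (MvPolynomial.X 1) g)) := by
      intro g hgk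
      have e1 : (φ.comp (algebraMap (MvPolynomial (Fin 2) ℂ) KTwo)).comp
          (algebraMap ℂ (MvPolynomial (Fin 2) ℂ)) =
          ε.comp (algebraMap ℂ (MvPolynomial (Fin 2) ℂ)) := by
        ext c
        exact (hc c).symm
      have e2 : ∀ f : ℂ[X], ε (Polynomial.aeval (MvPolynomial.X 1) f) =
          eval₂ (ε.comp (algebraMap ℂ (MvPolynomial (Fin 2) ℂ))) (ε (MvPolynomial.X 1)) f :=
        fun f => by rw [Polynomial.aeval_def, Polynomial.hom_eval₂]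
      have e3 : φ (algebraMap (MvPolynomial (Fin 2) ℂ) KTwo
          (Polynomial.aeval (MvPolynomial.X 1) g)) =
          eval₂ (ε.comp (algebraMap ℂ (MvPolynomial (Fin 2) ℂ)))
            (φ (algebraMap (MvPolynomial (Fin 2) ℂ) KTwo (MvPolynomial.X 1))) g := by
        have e4 : φ (algebraMap (MvPolynomial (Fin 2) ℂ) KTwo
          (Polynomial.aeval (MvPolynomial.X 1) g)) =
          (φ.comp (algebraMap (MvPolynomial (Fin 2) ℂ) KTwo))
            (Polynomial.aeval (MvPolynomial.X 1) g) := rfl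
        rw [e4, Polynomial.aeval_def, Polynomial.hom_eval₂, e1]
        rfl
      rw [e2, e2, e3]
      refine hg_eval _ _ _ pO qO (2 * k) g hgk ?_
      rw [← e2, ← e2]
      exact hx
    rw [linY, linY, map_add, map_mul, h3 _ h1, h3 _ h0, hy, map_add, map_mul, map_add, map_mul]
    ring
  have hsq : ∀ z : M, IsSquare (ε (Polynomial.aeval (MvPolynomial.X 1) qO) ^ (2 * k) * z) →
      IsSquare z := by
    rintro z ⟨r, hr⟩
    refine ⟨r / ε (Polynomial.aeval (MvPolynomial.X 1) qO) ^ k, ?_⟩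
    have h5 : ε (Polynomial.aeval (MvPolynomial.X 1) qO) ^ k ≠ 0 := pow_ne_zero _ hq0
    rw [div_mul_div_comm, ← hr, eq_div_iff (mul_ne_zero h5 h5), two_mul, pow_add]
    ring
  refine h M φ ?_ ?_ ?_ ?_ ?_
  · refine ⟨(ε (MvPolynomial.X 1) ^ 2 + 1) / (2 * ε (MvPolynomial.X 1)), ?_⟩
    rw [div_mul_div_comm, eq_div_iff (mul_ne_zero h2s h2s)]
    linear_combination hx'
  · refine ⟨(ε (MvPolynomial.X 1) ^ 2 - 1) / (2 * ε (MvPolynomial.X 1)), ?_⟩
    rw [map_sub, map_one, map_sub, map_one, div_mul_div_comm, eq_div_iff (mul_ne_zero h2s h2s)]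
    linear_combination hx'
  · rw [hlin _ _ kα1 kα0] at hsα
    exact hsq _ hsα
  · rw [hlin _ _ kβ1 kβ0] at hsβ
    exact hsq _ hsβ
  · obtain ⟨u, v, huv⟩ := hpt
    rw [map_add, map_mul, map_pow, hm_eval φ ε pO qO hc hy hx (2 * k) A kA,
      hm_eval φ ε pO qO hc hy hx (2 * k) B kB, hm_eval φ ε pO qO hc hy hx (2 * k) D kD] at huv
    refine ⟨ε (Polynomial.aeval (MvPolynomial.X 1) qO) ^ k * u,
      ε (Polynomial.aeval (MvPolynomial.X 1) qO) ^ (2 * k) * v, ?_⟩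
    rw [← huv, map_add, map_mul, map_pow, map_add, map_mul, map_pow]
    ring

end Pool.Agent.Lib.MP_2095a9_ag
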