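import Pool.Agent.Lib.MP_2095a9_ag.SlotsBase
import Pool.Agent.Lib.MP_2095a9_ag.SlotsNorm

set_option autoImplicit false

namespace Pool.Agent.Lib.MP_2095a9_ag

open Polynomial

/-- every root of unity of a field containing `ℂ` is a square -/
theorem root_isSquare {M : Type*} [Field M] (c : ℂ →+* M) {n : ℕ} (hn : 0 < n) {z : M}
    (hz : z ^ n = 1) : IsSquare z := by
  have hp : IsPrimitiveRoot (Complex.exp (2 * Real.pi * Complex.I / n)) n :=
    Complex.isPrimitiveRoot_exp n hn.ne'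
  have hp' : IsPrimitiveRoot (c (Complex.exp (2 * Real.pi * Complex.I / n))) n :=
    hp.map_of_injective c.injective
  haveI : NeZero n := ⟨hn.ne'⟩
  obtain ⟨i, _, hi⟩ := hp'.eq_pow_of_pow_eq_one hz
  rw [← hi, ← map_pow]
  obtain ⟨r, hr⟩ := IsAlgClosed.exists_pow_nat_eq
    ((Complex.exp (2 * Real.pi * Complex.I / n)) ^ i) (n := 2) two_pos
  exact ⟨c r, by rw [← map_mul, ← sq, hr]⟩

/-- `w ^ n - t ^ n` is a norm from the field of the square root of `w` when `t` is a square -/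
theorem IsNm.pow_sub {M : Type*} [Field M] (c : ℂ →+* M) {n : ℕ} (hn : 0 < n) (w t : M)
    (ht : IsSquare t) : IsNm w (w ^ n - t ^ n) := by
  have hp : IsPrimitiveRoot (Complex.exp (2 * Real.pi * Complex.I / n)) n :=
    Complex.isPrimitiveRoot_exp n hn.ne'
  have hp' : IsPrimitiveRoot (c (Complex.exp (2 * Real.pi * Complex.I / n))) n :=
    hp.map_of_injective c.injective
  rw [hp'.pow_sub_pow_eq_prod_sub_mul w t hn]
  refine Finset.prod_induction _ (IsNm w) (fun _ _ => IsNm.mul) (IsNm.one w) (fun z hz => ?_)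
  have hz1 : z ^ n = 1 := (Polynomial.mem_nthRootsFinset hn 1).mp hz
  obtain ⟨g, hg⟩ := (root_isSquare c hn hz1).mul ht
  refine ⟨c Complex.I * g, c Complex.I, ?_⟩
  have hj : c Complex.I ^ 2 = -1 := by rw [← map_pow, Complex.I_sq, map_neg, map_one]
  rw [hg]
  linear_combination (w - g ^ 2) * hj

/-- compatibility of the two evaluations for a polynomial base change -/
theorem eps_comp {M : Type} [Field M] (φ : KTwo →+* M) (ε : MvPolynomial (Fin 2) ℂ →+* M)
    (p : ℂ[X]) (hc : ∀ c : ℂ, ε (MvPolynomial.C c) = φ (algebraMap ℂ KTwo c))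
    (hx : φ (algebraMap (MvPolynomial (Fin 2) ℂ) KTwo (MvPolynomial.X 1)) =
      ε (Polynomial.aeval (MvPolynomial.X 1) p)) (f : ℂ[X]) :
    ε (Polynomial.aeval (MvPolynomial.X 1) (f.comp p)) =
      φ (algebraMap (MvPolynomial (Fin 2) ℂ) KTwo (Polynomial.aeval (MvPolynomial.X 1) f)) := by
  have h1 : ε.comp (algebraMap ℂ (MvPolynomial (Fin 2) ℂ)) =
      (φ.comp (algebraMap (MvPolynomial (Fin 2) ℂ) KTwo)).comp
        (algebraMap ℂ (MvPolynomial (Fin 2) ℂ)) := by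
    ext c
    show ε (MvPolynomial.C c) =
      φ (algebraMap (MvPolynomial (Fin 2) ℂ) KTwo (algebraMap ℂ (MvPolynomial (Fin 2) ℂ) c))
    rw [hc, ← IsScalarTower.algebraMap_apply ℂ (MvPolynomial (Fin 2) ℂ) KTwo]
  rw [Polynomial.aeval_comp, Polynomial.aeval_def, Polynomial.hom_eval₂, h1, ← hx]
  have h2 : φ (algebraMap (MvPolynomial (Fin 2) ℂ) KTwo (Polynomial.aeval (MvPolynomial.X 1) f)) =
      (φ.comp (algebraMap (MvPolynomial (Fin 2) ℂ) KTwo))
        (Polynomial.aeval (MvPolynomial.X 1) f) := rfl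
  rw [h2, Polynomial.aeval_def, Polynomial.hom_eval₂]
  rfl

/-- the threefolds `a u² + b v² = 1` with `a` an arbitrary rational function of `x, y` and
`b = q² ∏ γᵢ (a ^ nᵢ - x ^ jᵢ (δᵢ pᵢ²) ^ nᵢ)`, `γᵢ`, `δᵢ` monomials in `α, β` -/
theorem cor_powers (α1 α0 β1 β0 : ℂ[X]) (hα1 : α1 ≠ 0) (hβ1 : β1 ≠ 0)
    (hΔ : α1 * β0 ≠ α0 * β1) (a b q : KTwo)
    (m : ℕ) (e f e' f' j n : Fin m → ℕ) (γ δ p : Fin m → KTwo) (hn : ∀ i, 0 < n i)
    (hγ : ∀ i, γ i = algebraMap (MvPolynomial (Fin 2) ℂ) KTwo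
      (linY α1 α0 ^ e i * linY β1 β0 ^ f i))
    (hδ : ∀ i, δ i = algebraMap (MvPolynomial (Fin 2) ℂ) KTwo
      (linY α1 α0 ^ e' i * linY β1 β0 ^ f' i))
    (hb : b = q ^ 2 * ∏ i, γ i * (a ^ n i -
      algebraMap (MvPolynomial (Fin 2) ℂ) KTwo (MvPolynomial.X 1) ^ j i *
        (δ i * p i ^ 2) ^ n i))
    (ha0 : a ≠ 0) (hb0 : b ≠ 0) :
    Nonempty
        (FractionRing
            (MvPolynomial (Fin 2) (FractionRing (MvPolynomial (Fin 2) ℂ)) ⧸
              Ideal.span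
                {(MvPolynomial.C a * MvPolynomial.X 0 ^ 2 +
                    MvPolynomial.C b * MvPolynomial.X 1 ^ 2 - 1 :
                  MvPolynomial (Fin 2) (FractionRing (MvPolynomial (Fin 2) ℂ)))})
          →ₐ[ℂ] FractionRing (MvPolynomial (Fin 3) ℂ)) := by
  classical
  set N : ℕ := ∏ i, n i with hN
  have hN0 : 0 < N := Finset.prod_pos fun i _ => hn i
  have h2N : 0 < 2 * N := by omega
  have hd1 : (1 : MvPolynomial (Fin 2) ℂ).degreeOf 0 ≤ 1 := by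
    rw [← MvPolynomial.C_1, MvPolynomial.degreeOf_C]; omega
  have hd0 : (0 : MvPolynomial (Fin 2) ℂ).degreeOf 0 ≤ 1 := by
    rw [MvPolynomial.degreeOf_zero]; omega
  have hX : ∀ c : ℂ, (X ^ (2 * N) : ℂ[X]) ≠ C c * 1 := by
    intro c h0
    have h1 := congrArg Polynomial.natDegree h0
    rw [mul_one, natDegree_C, natDegree_X_pow] at h1
    omega
  have hexp : ∀ g : ℂ[X], g ≠ 0 → Polynomial.expand ℂ (2 * N) g ≠ 0 := fun g hg h0 =>
    hg ((Polynomial.expand_eq_zero h2N).mp h0)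
  refine main_base_linear (X ^ (2 * N)) 1 one_ne_zero hX
    (Polynomial.expand ℂ (2 * N) α1) (Polynomial.expand ℂ (2 * N) α0)
    (Polynomial.expand ℂ (2 * N) β1) (Polynomial.expand ℂ (2 * N) β0)
    (hexp _ hα1) (hexp _ hβ1) ?_ 1 0 1 hd1 hd0 hd1 one_ne_zero (by simp) a b ha0 hb0 ?_
  · intro h0
    rw [← map_mul, ← map_mul] at h0
    exact hΔ (Polynomial.expand_injective h2N h0)
  intro M _ φ ε hc hy _ hx hsα hsβ _
  rw [map_one, map_one, mul_one] at hx
  have h2K : (2 : KTwo) ≠ 0 := by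
    have := (map_ne_zero (algebraMap ℂ KTwo)).mpr (two_ne_zero : (2 : ℂ) ≠ 0)
    rwa [map_ofNat] at this
  have h2M : (2 : M) ≠ 0 := by
    have := (map_ne_zero φ).mpr h2K
    rwa [map_ofNat] at this
  have hlin : ∀ g1 g0 : ℂ[X], ε (linY (Polynomial.expand ℂ (2 * N) g1)
      (Polynomial.expand ℂ (2 * N) g0)) =
      φ (algebraMap (MvPolynomial (Fin 2) ℂ) KTwo (linY g1 g0)) := by
    intro g1 g0
    rw [linY, linY, map_add, map_mul, Polynomial.expand_eq_comp_X_pow,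
      Polynomial.expand_eq_comp_X_pow, eps_comp φ ε _ hc hx, eps_comp φ ε _ hc hx, hy, map_add,
      map_mul, map_add, map_mul]
  rw [hlin] at hsα hsβ
  have hxs : φ (algebraMap (MvPolynomial (Fin 2) ℂ) KTwo (MvPolynomial.X 1)) =
      ε (MvPolynomial.X 1) ^ (2 * N) := by
    rw [hx, map_pow, aeval_X, map_pow]
  have hφa : φ a ≠ 0 := (map_ne_zero φ).mpr ha0
  have hφb : φ b ≠ 0 := (map_ne_zero φ).mpr hb0
  refine IsNm.point h2M hφa hφb ?_
  rw [hb, map_mul, map_pow, map_prod]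
  refine (IsNm.sq _ _).mul (IsNm.prod _ fun i => ?_)
  have hγs : IsSquare (φ (γ i)) := by
    rw [hγ, map_mul, map_mul, map_pow, map_pow, map_pow, map_pow]
    exact (hsα.pow _).mul (hsβ.pow _)
  have hδs : IsSquare (φ (δ i)) := by
    rw [hδ, map_mul, map_mul, map_pow, map_pow, map_pow, map_pow]
    exact (hsα.pow _).mul (hsβ.pow _)
  rw [map_mul]
  obtain ⟨r, hr⟩ := hγs
  rw [hr, ← sq]
  refine (IsNm.sq _ _).mul ?_
  obtain ⟨k, hk⟩ : n i ∣ N := Finset.dvd_prod_of_mem n (Finset.mem_univ i)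
  have hkey : φ (a ^ n i - algebraMap (MvPolynomial (Fin 2) ℂ) KTwo (MvPolynomial.X 1) ^ j i *
      (δ i * p i ^ 2) ^ n i) =
      φ a ^ n i - ((ε (MvPolynomial.X 1) ^ (k * j i)) ^ 2 * (φ (δ i) * φ (p i) ^ 2)) ^ n i := by
    rw [map_sub, map_pow, map_mul, map_pow, hxs, map_pow, map_mul, map_pow]
    have e1 : ε (MvPolynomial.X 1) ^ (2 * N) = (ε (MvPolynomial.X 1) ^ (2 * k)) ^ n i := by
      rw [← pow_mul, hk]
      congr 1
      ring
    rw [e1]
    ring
  rw [hkey]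
  refine IsNm.pow_sub (φ.comp (algebraMap ℂ KTwo)) (hn i) _ _ ?_
  exact (IsSquare.sq _).mul (hδs.mul (IsSquare.sq _))

/-- the simplest case: `w u² + (w ^ n - x) v² = 1` -/
theorem cor_power_simple (w : KTwo) (n : ℕ) (hn : 0 < n) (hw : w ≠ 0)
    (hb : w ^ n - algebraMap (MvPolynomial (Fin 2) ℂ) KTwo (MvPolynomial.X 1) ≠ 0) :
    Nonempty
        (FractionRing
            (MvPolynomial (Fin 2) (FractionRing (MvPolynomial (Fin 2) ℂ)) ⧸
              Ideal.span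
                {(MvPolynomial.C w * MvPolynomial.X 0 ^ 2 +
                    MvPolynomial.C (w ^ n -
                      algebraMap (MvPolynomial (Fin 2) ℂ) KTwo (MvPolynomial.X 1)) *
                      MvPolynomial.X 1 ^ 2 - 1 :
                  MvPolynomial (Fin 2) (FractionRing (MvPolynomial (Fin 2) ℂ)))})
          →ₐ[ℂ] FractionRing (MvPolynomial (Fin 3) ℂ)) := by
  refine cor_powers 1 0 1 1 one_ne_zero one_ne_zero (by simp) w _ 1 1 (fun _ => 0) (fun _ => 0)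
    (fun _ => 0) (fun _ => 0) (fun _ => 1) (fun _ => n) (fun _ => 1) (fun _ => 1) (fun _ => 1)
    (fun _ => hn) (fun _ => by simp) (fun _ => by simp) ?_ hw hb
  simp

end Pool.Agent.Lib.MP_2095a9_ag
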