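import Pool.Agent.Lib.MP_2095a9_ag.SlotsPower

set_option autoImplicit false

namespace Pool.Agent.Lib.MP_2095a9_ag

open Polynomial

/-- the substitution `x ↦ s ^ k` in polynomials in `x, y` -/
noncomputable def subS (k : ℕ) : MvPolynomial (Fin 2) ℂ →ₐ[ℂ] MvPolynomial (Fin 2) ℂ :=
  MvPolynomial.aeval ![MvPolynomial.X 0, MvPolynomial.X 1 ^ k]

theorem subS_degreeOf (k : ℕ) (f : MvPolynomial (Fin 2) ℂ) :
    (subS k f).degreeOf 0 ≤ f.degreeOf 0 := by
  classical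
  have h1 : subS k f = ∑ d ∈ f.support, MvPolynomial.C (f.coeff d) *
      (MvPolynomial.X 0 ^ d 0 * (MvPolynomial.X 1 ^ k) ^ d 1) := by
    rw [subS, MvPolynomial.aeval_def, MvPolynomial.eval₂_eq']
    refine Finset.sum_congr rfl fun d _ => ?_
    rw [Fin.prod_univ_two]
    rfl
  rw [h1]
  refine (MvPolynomial.degreeOf_sum_le _ _ _).trans ?_
  refine Finset.sup_le fun d hd => ?_
  have h2 : d 0 ≤ f.degreeOf 0 := by
    rw [MvPolynomial.degreeOf_eq_sup]
    exact Finset.le_sup (f := fun m : Fin 2 →₀ ℕ => m 0) hd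
  refine (MvPolynomial.degreeOf_C_mul_le _ _ _).trans ?_
  refine (MvPolynomial.degreeOf_mul_le _ _ _).trans ?_
  have h3 : (MvPolynomial.X 0 ^ d 0 : MvPolynomial (Fin 2) ℂ).degreeOf 0 ≤ d 0 := by
    refine (MvPolynomial.degreeOf_pow_le _ _ _).trans ?_
    rw [MvPolynomial.degreeOf_X]
    simp
  have h4 : ((MvPolynomial.X 1 ^ k) ^ d 1 : MvPolynomial (Fin 2) ℂ).degreeOf 0 ≤ 0 := by
    rw [← pow_mul]
    refine (MvPolynomial.degreeOf_pow_le _ _ _).trans ?_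
    rw [MvPolynomial.degreeOf_X]
    simp
  omega

theorem sv_pow_transc {k : ℕ} (hk : 0 < k) : ¬ IsAlgebraic ℂ (sv ^ k) := fun h =>
  sv_transc (h.of_pow hk)

theorem Pr_subS (k : ℕ) : (Pr sv).comp (subS k) = Pr (sv ^ k) := by
  apply MvPolynomial.algHom_ext
  intro i
  show Pr sv (subS k (MvPolynomial.X i)) = Pr (sv ^ k) (MvPolynomial.X i)
  rw [subS, MvPolynomial.aeval_X]
  fin_cases i
  · show Pr sv (MvPolynomial.X 0) = Pr (sv ^ k) (MvPolynomial.X 0)
    rw [Pr_X0, Pr_X0]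
  · show Pr sv (MvPolynomial.X 1 ^ k) = Pr (sv ^ k) (MvPolynomial.X 1)
    rw [map_pow, Pr_X1, Pr_X1, C_pow]

theorem subS_inj {k : ℕ} (hk : 0 < k) : Function.Injective (subS k) := by
  intro f g hfg
  apply Pr_inj (sv_pow_transc hk)
  rw [← Pr_subS]
  show Pr sv (subS k f) = Pr sv (subS k g)
  rw [hfg]

/-- compatibility of the two evaluations for `x = s ^ k` -/
theorem eps_subS {M : Type} [Field M] (φ : KTwo →+* M) (ε : MvPolynomial (Fin 2) ℂ →+* M)
    (k : ℕ) (hc : ∀ c : ℂ, ε (MvPolynomial.C c) = φ (algebraMap ℂ KTwo c))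
    (hy : ε (MvPolynomial.X 0) =
      φ (algebraMap (MvPolynomial (Fin 2) ℂ) KTwo (MvPolynomial.X 0)))
    (hx : φ (algebraMap (MvPolynomial (Fin 2) ℂ) KTwo (MvPolynomial.X 1)) =
      ε (MvPolynomial.X 1) ^ k) (f : MvPolynomial (Fin 2) ℂ) :
    ε (subS k f) = φ (algebraMap (MvPolynomial (Fin 2) ℂ) KTwo f) := by
  have h1 : ε.comp (subS k : MvPolynomial (Fin 2) ℂ →+* MvPolynomial (Fin 2) ℂ) =
      φ.comp (algebraMap (MvPolynomial (Fin 2) ℂ) KTwo) := by
    apply MvPolynomial.ringHom_ext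
    · intro c
      show ε (subS k (MvPolynomial.C c)) =
        φ (algebraMap (MvPolynomial (Fin 2) ℂ) KTwo (MvPolynomial.C c))
      rw [← MvPolynomial.algebraMap_eq, (subS k).commutes, MvPolynomial.algebraMap_eq, hc]
      rfl
    · intro i
      show ε (subS k (MvPolynomial.X i)) =
        φ (algebraMap (MvPolynomial (Fin 2) ℂ) KTwo (MvPolynomial.X i))
      rw [subS, MvPolynomial.aeval_X]
      fin_cases i
      · exact hy
      · show ε (MvPolynomial.X 1 ^ k) = _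
        rw [map_pow]
        exact hx.symm
  exact RingHom.congr_fun h1 f

/-- the threefolds `a u² + b v² = 1` with `a = A`, `b = (B² + A D) q² ∏ (A ^ nᵢ - x ^ jᵢ pᵢ ^ (2 nᵢ))`,
`A, B, D` of degree at most four in `y` -/
theorem cor_powers_quartic (A B D : MvPolynomial (Fin 2) ℂ)
    (hA : A.degreeOf 0 ≤ 4) (hB : B.degreeOf 0 ≤ 4) (hD : D.degreeOf 0 ≤ 4)
    (a b q : KTwo) (m : ℕ) (j n : Fin m → ℕ) (p : Fin m → KTwo) (hn : ∀ i, 0 < n i)
    (ha : a = algebraMap (MvPolynomial (Fin 2) ℂ) KTwo A)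
    (hb : b = algebraMap (MvPolynomial (Fin 2) ℂ) KTwo (B ^ 2 + A * D) * q ^ 2 *
      ∏ i, (a ^ n i - algebraMap (MvPolynomial (Fin 2) ℂ) KTwo (MvPolynomial.X 1) ^ j i *
        (p i ^ 2) ^ n i))
    (ha0 : a ≠ 0) (hb0 : b ≠ 0) :
    Nonempty
        (FractionRing
            (MvPolynomial (Fin 2) (FractionRing (MvPolynomial (Fin 2) ℂ)) ⧸
              Ideal.span
                {(MvPolynomial.C a * MvPolynomial.X 0 ^ 2 +
                    MvPolynomial.C b * MvPolynomial.X 1 ^ 2 - 1 :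
                  MvPolynomial (Fin 2) (FractionRing (MvPolynomial (Fin 2) ℂ)))})
          →ₐ[ℂ] FractionRing (MvPolynomial (Fin 3) ℂ)) := by
  classical
  set N : ℕ := ∏ i, n i with hN
  have hN0 : 0 < N := Finset.prod_pos fun i _ => hn i
  have h2N : 0 < 2 * N := by omega
  have hX : ∀ c : ℂ, (X ^ (2 * N) : ℂ[X]) ≠ C c * 1 := by
    intro c h0
    have h1 := congrArg Polynomial.natDegree h0
    rw [mul_one, natDegree_C, natDegree_X_pow] at h1
    omega
  have hA0 : A ≠ 0 := by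
    rintro rfl; exact ha0 (by rw [ha, map_zero])
  have hδ0 : B ^ 2 + A * D ≠ 0 := by
    intro h0; exact hb0 (by rw [hb, h0, map_zero, zero_mul, zero_mul])
  have hδS : subS (2 * N) (B ^ 2 + A * D) =
      subS (2 * N) B ^ 2 + subS (2 * N) A * subS (2 * N) D := by
    rw [map_add, map_mul, map_pow]
  refine main_base_quartic (X ^ (2 * N)) 1 one_ne_zero hX
    (subS (2 * N) A) (subS (2 * N) B) (subS (2 * N) D)
    ((subS_degreeOf _ A).trans hA) ((subS_degreeOf _ B).trans hB) ((subS_degreeOf _ D).trans hD)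
    ((map_ne_zero_iff _ (subS_inj h2N)).mpr hA0)
    (by rw [← hδS]; exact (map_ne_zero_iff _ (subS_inj h2N)).mpr hδ0) a b ha0 hb0 ?_
  intro M _ φ ε hc hy _ hx hpt
  rw [map_one, map_one, mul_one] at hx
  have h2K : (2 : KTwo) ≠ 0 := by
    have := (map_ne_zero (algebraMap ℂ KTwo)).mpr (two_ne_zero : (2 : ℂ) ≠ 0)
    rwa [map_ofNat] at this
  have h2M : (2 : M) ≠ 0 := by
    have := (map_ne_zero φ).mpr h2K
    rwa [map_ofNat] at this
  have hxs : φ (algebraMap (MvPolynomial (Fin 2) ℂ) KTwo (MvPolynomial.X 1)) =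
      ε (MvPolynomial.X 1) ^ (2 * N) := by
    rw [hx, map_pow, aeval_X, map_pow]
  rw [← hδS, eps_subS φ ε _ hc hy hxs, eps_subS φ ε _ hc hy hxs, ← ha] at hpt
  have hφa : φ a ≠ 0 := (map_ne_zero φ).mpr ha0
  have hφb : φ b ≠ 0 := (map_ne_zero φ).mpr hb0
  have hφδ : φ (algebraMap (MvPolynomial (Fin 2) ℂ) KTwo (B ^ 2 + A * D)) ≠ 0 :=
    (map_ne_zero φ).mpr ((map_ne_zero_iff _ (IsFractionRing.injective _ _)).mpr hδ0)
  refine IsNm.point h2M hφa hφb ?_
  rw [hb, map_mul, map_mul, map_pow, map_prod]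
  refine ((IsNm.of_point h2M hφa hφδ hpt).mul (IsNm.sq _ _)).mul (IsNm.prod _ fun i => ?_)
  obtain ⟨k, hk⟩ : n i ∣ N := Finset.dvd_prod_of_mem n (Finset.mem_univ i)
  have hkey : φ (a ^ n i - algebraMap (MvPolynomial (Fin 2) ℂ) KTwo (MvPolynomial.X 1) ^ j i *
      (p i ^ 2) ^ n i) =
      φ a ^ n i - ((ε (MvPolynomial.X 1) ^ (k * j i)) ^ 2 * φ (p i) ^ 2) ^ n i := by
    rw [map_sub, map_pow, map_mul, map_pow, hxs, map_pow, map_pow]
    have e1 : ε (MvPolynomial.X 1) ^ (2 * N) = (ε (MvPolynomial.X 1) ^ (2 * k)) ^ n i := by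
      rw [← pow_mul, hk]
      congr 1
      ring
    rw [e1]
    ring
  rw [hkey]
  refine IsNm.pow_sub (φ.comp (algebraMap ℂ KTwo)) (hn i) _ _ ?_
  exact (IsSquare.sq _).mul (IsSquare.sq _)

end Pool.Agent.Lib.MP_2095a9_ag
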