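import Mathlib

set_option autoImplicit false

namespace Pool.Agent.Lib.MP_2095a9_ag

open Polynomial

section Tsen

variable {k : Type*} [Field k] [IsAlgClosed k]

/-- interpolation: if `b` is squarefree then every `a` is a square modulo `b` -/
theorem exists_sq_mod (hk : (2 : k) ≠ 0) (a b : k[X]) (hb0 : b ≠ 0) (hb : Squarefree b) :
    ∃ c : k[X], c.degree < b.degree ∧ b ∣ c ^ 2 - a := by
  classical
  have hspl : b.Splits := IsAlgClosed.splits b
  -- choose square roots at the roots
  have hsq : ∀ r : k, ∃ z : k, z ^ 2 = a.eval r := fun r =>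
    IsAlgClosed.exists_pow_nat_eq (a.eval r) (by norm_num)
  choose z hz using hsq
  set s : Finset k := b.roots.toFinset with hs
  have hnd : b.roots.Nodup := Multiset.nodup_iff_count_le_one.mpr (fun r => by
    rw [count_roots]
    by_contra hcon
    push Not at hcon
    have h2 : (X - C r) ^ 2 ∣ b := (le_rootMultiplicity_iff hb0).mp hcon
    have h3 : (X - C r) * (X - C r) ∣ b := by rw [← sq]; exact h2
    have h4 := hb _ h3
    exact not_isUnit_X_sub_C r h4)
  let c : k[X] := Lagrange.interpolate s id z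
  have hcard : s.card = b.natDegree := by
    rw [hs, Multiset.toFinset_card_of_nodup hnd]
    exact (splits_iff_card_roots.mp hspl)
  have hdeg : c.degree < b.degree := by
    have h1 : c.degree < s.card := Lagrange.degree_interpolate_lt z (Set.injOn_id _)
    rw [hcard] at h1
    rw [degree_eq_natDegree hb0]
    exact h1
  refine ⟨c, hdeg, ?_⟩
  by_cases hd : c ^ 2 - a = 0
  · rw [hd]; exact dvd_zero _
  have hroots : b.roots ≤ (c ^ 2 - a).roots := by
    rw [Multiset.le_iff_subset hnd]
    intro r hr
    rw [mem_roots hd]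
    have hrs : r ∈ s := by rw [hs]; exact Multiset.mem_toFinset.mpr hr
    have hcr : c.eval r = z r :=
      Lagrange.eval_interpolate_at_node (v := id) z (Set.injOn_id (s : Set k)) hrs
    rw [IsRoot.def, eval_sub, eval_pow, hcr, hz r, sub_self]
  exact (hspl.dvd_iff_roots_le_roots hb0 hd).mpr hroots

theorem conic_aux (hk : (2 : k) ≠ 0) : ∀ (n : ℕ) (a b : k[X]), a ≠ 0 → b ≠ 0 →
    a.natDegree + b.natDegree ≤ n →
    ∃ x y z : k[X], ¬ (x = 0 ∧ y = 0 ∧ z = 0) ∧ a * x ^ 2 + b * y ^ 2 = z ^ 2 := by
  intro n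
  induction n using Nat.strong_induction_on with
  | _ n ih =>
  -- the case when `b` has the larger degree
  have key : ∀ a b : k[X], a ≠ 0 → b ≠ 0 → a.natDegree + b.natDegree ≤ n →
      a.natDegree ≤ b.natDegree →
      ∃ x y z : k[X], ¬ (x = 0 ∧ y = 0 ∧ z = 0) ∧ a * x ^ 2 + b * y ^ 2 = z ^ 2 := by
    intro a b ha hb hn hle
    by_cases hsq : Squarefree b
    · by_cases hbd : b.natDegree = 0
      · -- everything constant
        have ha0 : a.natDegree = 0 := by omega
        obtain ⟨α, hα⟩ := natDegree_eq_zero.mp ha0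
        obtain ⟨c, hc⟩ := IsAlgClosed.exists_pow_nat_eq α (n := 2) (by norm_num)
        refine ⟨1, 0, C c, fun h => one_ne_zero h.1, ?_⟩
        rw [← hα, ← hc, C_pow]; ring
      · obtain ⟨c, hcd, b1, hb1⟩ := exists_sq_mod hk a b hb hsq
        by_cases hb10 : b1 = 0
        · refine ⟨1, 0, c, fun h => one_ne_zero h.1, ?_⟩
          have : c ^ 2 - a = 0 := by rw [hb1, hb10, mul_zero]
          linear_combination -this
        · -- degree of b1
          have hdb1 : b1.natDegree < b.natDegree := by
            have h1 : (c ^ 2 - a).natDegree = b.natDegree + b1.natDegree := by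
              rw [hb1, natDegree_mul hb hb10]
            have h2 : (c ^ 2 - a).natDegree ≤ max (2 * c.natDegree) a.natDegree := by
              refine (natDegree_sub_le _ _).trans ?_
              exact max_le_max natDegree_pow_le le_rfl
            have h3 : c.natDegree < b.natDegree := by
              by_cases hc0 : c = 0
              · rw [hc0, natDegree_zero]; omega
              · exact natDegree_lt_natDegree hc0 hcd
            have h4 : b.natDegree + b1.natDegree ≤ max (2 * c.natDegree) a.natDegree := h1 ▸ h2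
            rcases le_max_iff.mp h4 with h5 | h5
            · omega
            · omega
          obtain ⟨x, y, z, hne, hxyz⟩ := ih (a.natDegree + b1.natDegree) (by omega) a b1 ha hb10 le_rfl
          by_cases hy : y = 0
          · refine ⟨x, 0, z, ?_, ?_⟩
            · rintro ⟨h1, -, h3⟩
              exact hne ⟨h1, hy, h3⟩
            · rw [hy] at hxyz
              linear_combination hxyz
          · refine ⟨c * x + z, b1 * y, c * z + a * x, ?_, ?_⟩
            · rintro ⟨-, h2, -⟩
              exact (mul_ne_zero hb10 hy) h2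
            · have e1 : b * b1 = c ^ 2 - a := hb1.symm
              linear_combination (b1 * y ^ 2) * e1 + (c ^ 2 - a) * hxyz
    · -- remove a square factor
      rw [Squarefree] at hsq
      push Not at hsq
      obtain ⟨r, ⟨b', hb'⟩, hr⟩ := hsq
      have hr0 : r ≠ 0 := by
        rintro rfl
        apply hb; rw [hb']; ring
      have hb'0 : b' ≠ 0 := by
        rintro rfl
        apply hb; rw [hb']; ring
      have hrd : 0 < r.natDegree := by
        by_contra hcon
        have h0 : r.natDegree = 0 := by omega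
        obtain ⟨ρ, hρ⟩ := natDegree_eq_zero.mp h0
        apply hr
        rw [← hρ]
        have : ρ ≠ 0 := by
          rintro rfl
          apply hr0; rw [← hρ, C_0]
        exact (isUnit_C.mpr (isUnit_iff_ne_zero.mpr this))
      have hdb : b.natDegree = r.natDegree + r.natDegree + b'.natDegree := by
        rw [hb', natDegree_mul (mul_ne_zero hr0 hr0) hb'0, natDegree_mul hr0 hr0]
      obtain ⟨x, y, z, hne, hxyz⟩ := ih (a.natDegree + b'.natDegree) (by omega) a b' ha hb'0 le_rfl
      refine ⟨r * x, y, r * z, ?_, ?_⟩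
      · rintro ⟨h1, h2, h3⟩
        exact hne ⟨(mul_eq_zero.mp h1).resolve_left hr0, h2, (mul_eq_zero.mp h3).resolve_left hr0⟩
      · rw [hb']
        linear_combination (r ^ 2) * hxyz
  intro a b ha hb hn
  rcases le_total a.natDegree b.natDegree with h | h
  · exact key a b ha hb hn h
  · obtain ⟨x, y, z, hne, hxyz⟩ := key b a hb ha (by omega) h
    refine ⟨y, x, z, fun h => hne ⟨h.2.1, h.1, h.2.2⟩, ?_⟩
    linear_combination hxyz

/-- Tsen's theorem for ternary quadratic forms over `k[X]`, `k` algebraically closed. -/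
theorem conic_poly (hk : (2 : k) ≠ 0) (a b : k[X]) (ha : a ≠ 0) (hb : b ≠ 0) :
    ∃ x y z : k[X], ¬ (x = 0 ∧ y = 0 ∧ z = 0) ∧ a * x ^ 2 + b * y ^ 2 = z ^ 2 :=
  conic_aux hk _ a b ha hb le_rfl

end Tsen

section Iso

/-- the conic `a x² + b y² = z²` has a nontrivial zero -/
def Iso {L : Type*} [Field L] (a b : L) : Prop :=
  ∃ x y z : L, ¬ (x = 0 ∧ y = 0 ∧ z = 0) ∧ a * x ^ 2 + b * y ^ 2 = z ^ 2

variable {L : Type*} [Field L]

theorem Iso.symm {a b : L} (h : Iso a b) : Iso b a := by
  obtain ⟨x, y, z, hne, h⟩ := h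
  exact ⟨y, x, z, fun h => hne ⟨h.2.1, h.1, h.2.2⟩, by linear_combination h⟩

theorem Iso.map {a b : L} {M : Type*} [Field M] (f : L →+* M) (h : Iso a b) :
    Iso (f a) (f b) := by
  obtain ⟨x, y, z, hne, h⟩ := h
  refine ⟨f x, f y, f z, ?_, ?_⟩
  · rintro ⟨h1, h2, h3⟩
    exact hne ⟨(map_eq_zero f).mp h1, (map_eq_zero f).mp h2, (map_eq_zero f).mp h3⟩
  · rw [← map_pow, ← map_pow, ← map_pow, ← map_mul, ← map_mul, ← map_add, h]

/-- an affine point on the conic `a u² + b v² = 1` -/
theorem Iso.affine (h2 : (2 : L) ≠ 0) {a b : L} (ha : a ≠ 0) (hb : b ≠ 0) (h : Iso a b) :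
    ∃ u v : L, a * u ^ 2 + b * v ^ 2 = 1 := by
  obtain ⟨x, y, z, hne, h⟩ := h
  by_cases hz : z = 0
  · subst hz
    have hy : y ≠ 0 := by
      rintro rfl
      have : x = 0 := by
        have h3 : a * x ^ 2 = 0 := by linear_combination h
        exact pow_eq_zero_iff (two_ne_zero) |>.mp ((mul_eq_zero.mp h3).resolve_left ha)
      exact hne ⟨this, rfl, rfl⟩
    have hx : x ≠ 0 := by
      rintro rfl
      have h3 : b * y ^ 2 = 0 := by linear_combination h
      exact hy (pow_eq_zero_iff (two_ne_zero) |>.mp ((mul_eq_zero.mp h3).resolve_left hb))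
    refine ⟨(1 + 1 / a) / 2, (1 / a - 1) / 2 * (y / x), ?_⟩
    have hb' : b = - a * x ^ 2 / y ^ 2 := by
      field_simp
      linear_combination h
    rw [hb']
    field_simp
    ring
  · refine ⟨x / z, y / z, ?_⟩
    field_simp
    linear_combination h

/-- a solution of `U² - a W² = b` from a zero of the conic -/
theorem Iso.norm_form (h2 : (2 : L) ≠ 0) {a b : L} (ha : a ≠ 0) (hb : b ≠ 0) (h : Iso a b) :
    ∃ U W : L, U ^ 2 - a * W ^ 2 = b := by
  obtain ⟨x, y, z, hne, h⟩ := h
  by_cases hy : y = 0
  · subst hy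
    have hx : x ≠ 0 := by
      rintro rfl
      have h3 : z ^ 2 = 0 := by linear_combination -h
      exact hne ⟨rfl, rfl, pow_eq_zero_iff (two_ne_zero) |>.mp h3⟩
    refine ⟨(1 + b) / 2, (b - 1) / 2 * (x / z), ?_⟩
    have hz : z ≠ 0 := by
      rintro rfl
      have h3 : a * x ^ 2 = 0 := by linear_combination h
      exact hx (pow_eq_zero_iff (two_ne_zero) |>.mp ((mul_eq_zero.mp h3).resolve_left ha))
    have ha' : a = z ^ 2 / x ^ 2 := by
      field_simp
      linear_combination h
    rw [ha']
    field_simp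
    ring
  · refine ⟨z / y, x / y, ?_⟩
    field_simp
    linear_combination -h

theorem Iso.of_norm_form {a b U W : L} (h : U ^ 2 - a * W ^ 2 = b) : Iso a b :=
  ⟨W, 1, U, fun h => one_ne_zero h.2.1, by linear_combination -h⟩

theorem Iso.of_const_mul_sq {κ A : L} (hA : A ≠ 0) (h : Iso κ A) : Iso A (κ * A ^ 2) := by
  obtain ⟨x, y, z, hne, h⟩ := h
  refine ⟨y, x / A, z, ?_, ?_⟩
  · rintro ⟨h1, h2, h3⟩
    apply hne
    refine ⟨?_, h1, h3⟩
    rcases div_eq_zero_iff.mp h2 with h4 | h4
    · exact h4
    · exact absurd h4 hA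
  · field_simp
    linear_combination h

end Iso

end Pool.Agent.Lib.MP_2095a9_ag
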